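import Mathlib

/-!
Random sequences of points of the circle: replacing one coordinate.
-/

set_option autoImplicit false

namespace Pool.Agent.H6.RK

open MeasureTheory Filter Topology AddCircle

/-- the circle `ℝ/ℤ` -/
abbrev T : Type := AddCircle (1 : ℝ)

/-- sequences of points of the circle -/
abbrev Om : Type := ℕ → T

/-- normalised Haar measure of the circle -/
noncomputable abbrev nu : Measure T := haarAddCircle

/-- the law of a sequence of independent uniformly distributed points -/
noncomputable def mu : Measure Om := Measure.infinitePi (fun _ : ℕ => nu)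

instance : IsProbabilityMeasure mu := by unfold mu; infer_instance

/-- replacing the `k`-th coordinate by an independent one does not change the law -/
theorem upd_mp (k : ℕ) : MeasurePreserving (fun q : Om × T => Function.update q.1 k q.2) (mu.prod nu) mu := by
  classical
  have hm : Measurable (fun q : Om × T => Function.update q.1 k q.2) := measurable_update'
  refine ⟨hm, ?_⟩
  unfold mu
  apply Measure.eq_infinitePi
  intro s t ht
  rw [Measure.map_apply hm (.pi s.countable_toSet fun i _ => ht i)]
  have e : (fun q : Om × T => Function.update q.1 k q.2) ⁻¹' (Set.pi s t)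
      = (Set.pi (s.erase k : Finset ℕ) t) ×ˢ (if k ∈ s then t k else Set.univ) := by
    ext ⟨ω, y⟩
    simp only [Set.mem_preimage, Set.mem_pi, Finset.mem_coe, Set.mem_prod, Finset.mem_erase]
    constructor
    · intro h
      refine ⟨fun i hi => ?_, ?_⟩
      · have := h i hi.2
        rwa [Function.update_of_ne hi.1] at this
      · split_ifs with hk
        · have := h k hk
          rwa [Function.update_self] at this
        · trivial
    · rintro ⟨h1, h2⟩ i hi
      by_cases hik : i = k
      · subst hik
        rw [Function.update_self]
        rwa [if_pos hi] at h2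
      · rw [Function.update_of_ne hik]
        exact h1 i ⟨hik, hi⟩
  rw [e, Measure.prod_prod, Measure.infinitePi_pi (fun _ : ℕ => nu) (fun i _ => ht i)]
  split_ifs with hk
  · exact Finset.prod_erase_mul s (fun i => nu (t i)) hk
  · rw [measure_univ, mul_one, Finset.erase_eq_of_notMem hk]

theorem integrable_cont {X : Type*} [TopologicalSpace X] [MeasurableSpace X] [OpensMeasurableSpace X] {m : Measure X}
    [IsFiniteMeasure m] {E : Type*} [NormedAddCommGroup E] [SecondCountableTopologyEither X E] {f : X → E}
    (hf : Continuous f) {C : ℝ} (hb : ∀ x, ‖f x‖ ≤ C) : Integrable f m :=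
  ⟨hf.aestronglyMeasurable, HasFiniteIntegral.of_bounded (C := C) (Eventually.of_forall hb)⟩

/-- averaging over one coordinate -/
theorem split (k : ℕ) {F : Om → T → ℝ} (hF : Continuous fun q : Om × T => F q.1 q.2) {C : ℝ}
    (hC : ∀ ω y, |F ω y| ≤ C) (hk : ∀ ω y z, F (Function.update ω k y) z = F ω z) :
    ∫ ω, F ω (ω k) ∂mu = ∫ ω, ∫ y, F ω y ∂nu ∂mu := by
  have hG : Continuous fun ω : Om => F ω (ω k) := hF.comp (continuous_id.prodMk (continuous_apply k))
  have h1 := (upd_mp k).map_eq
  have h2 : ∫ ω, F ω (ω k) ∂mu = ∫ q, F (Function.update q.1 k q.2) ((Function.update q.1 k q.2) k) ∂(mu.prod nu) := by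
    conv_lhs => rw [← h1]
    rw [integral_map (upd_mp k).measurable.aemeasurable hG.aestronglyMeasurable]
  rw [h2]
  have h3 : (fun q : Om × T => F (Function.update q.1 k q.2) ((Function.update q.1 k q.2) k)) = fun q => F q.1 q.2 := by
    funext q
    rw [hk, Function.update_self]
  rw [h3, integral_prod]
  exact integrable_cont hF (C := C) fun q => hC q.1 q.2

end Pool.Agent.H6.RK
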