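import Mathlib
import Pool.Agent.H6.RK.Prod

/-!
Independence of the coordinates before and after a given time, the maximal inequality of Ottaviani.
-/

set_option autoImplicit false

namespace Pool.Agent.H6.RK

open MeasureTheory Filter Topology Finset

/-- the first `j` coordinates of the first sequence, the other ones of the second -/
def glue (j : ℕ) (q : Om × Om) : Om := fun k => if k < j then q.1 k else q.2 k

theorem glue_meas (j : ℕ) : Measurable (glue j) := by
  unfold glue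
  rw [measurable_pi_iff]
  intro k
  by_cases h : k < j
  · simp only [h, if_true]; fun_prop
  · simp only [h, if_false]; fun_prop

theorem glue_mp (j : ℕ) : MeasurePreserving (glue j) (mu.prod mu) mu := by
  classical
  refine ⟨glue_meas j, ?_⟩
  unfold mu
  apply Measure.eq_infinitePi
  intro s t ht
  rw [Measure.map_apply (glue_meas j) (.pi s.countable_toSet fun i _ => ht i)]
  have e : glue j ⁻¹' (Set.pi s t)
      = (Set.pi (s.filter (· < j) : Finset ℕ) t) ×ˢ (Set.pi (s.filter (fun k => ¬ k < j) : Finset ℕ) t) := by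
    ext ⟨ω, ω'⟩
    simp only [Set.mem_preimage, Set.mem_pi, Finset.mem_coe, Set.mem_prod, Finset.mem_filter]
    constructor
    · intro h
      refine ⟨fun i hi => ?_, fun i hi => ?_⟩
      · have := h i hi.1
        simpa [glue, hi.2] using this
      · have := h i hi.1
        simpa [glue, hi.2] using this
    · rintro ⟨h1, h2⟩ i hi
      by_cases hij : i < j
      · simpa [glue, hij] using h1 i ⟨hi, hij⟩
      · simpa [glue, hij] using h2 i ⟨hi, hij⟩
  rw [e, Measure.prod_prod, Measure.infinitePi_pi (fun _ : ℕ => nu) (fun i _ => ht i),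
    Measure.infinitePi_pi (fun _ : ℕ => nu) (fun i _ => ht i)]
  exact prod_filter_mul_prod_filter_not s (· < j) fun i => nu (t i)

/-- past and future are independent -/
theorem indep_sets (j : ℕ) {A B : Set Om} (hA : MeasurableSet A) (hB : MeasurableSet B)
    (hA' : ∀ ω ω' : Om, (∀ k, k < j → ω k = ω' k) → ω ∈ A → ω' ∈ A)
    (hB' : ∀ ω ω' : Om, (∀ k, j ≤ k → ω k = ω' k) → ω ∈ B → ω' ∈ B) : mu (A ∩ B) = mu A * mu B := by
  have h1 := (glue_mp j).measure_preimage (hA.inter hB).nullMeasurableSet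
  rw [← h1, ← Measure.prod_prod]
  congr 1
  ext ⟨ω, ω'⟩
  simp only [Set.mem_preimage, Set.mem_inter_iff, Set.mem_prod]
  have e1 : ∀ k, k < j → glue j (ω, ω') k = ω k := fun k hk => by simp [glue, hk]
  have e2 : ∀ k, j ≤ k → glue j (ω, ω') k = ω' k := fun k hk => by simp [glue, not_lt.2 hk]
  constructor
  · rintro ⟨h2, h3⟩
    exact ⟨hA' _ _ e1 h2, hB' _ _ e2 h3⟩
  · rintro ⟨h2, h3⟩
    exact ⟨hA' _ _ (fun k hk => (e1 k hk).symm) h2, hB' _ _ (fun k hk => (e2 k hk).symm) h3⟩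

/-- OTTAVIANI'S INEQUALITY -/
theorem ottaviani {f : ℕ → ℕ → Om → ℝ} (hf : ∀ i j, Measurable (f i j))
    (hloc : ∀ i j (ω ω' : Om), (∀ k, i ≤ k → k < j → ω k = ω' k) → f i j ω = f i j ω')
    (hadd : ∀ i j k ω, i ≤ j → j ≤ k → f i j ω ≤ f i k ω + f j k ω) {K M : ℕ} {b : ℝ}
    (hhalf : ∀ j, K ≤ j → j ≤ M → 1 / 2 ≤ mu {ω | f j M ω ≤ b}) :
    mu {ω | ∃ j, K ≤ j ∧ j ≤ M ∧ 2 * b < f K j ω} ≤ 2 * mu {ω | b < f K M ω} := by
  set A : ℕ → Set Om := fun j => {ω | 2 * b < f K j ω} ∩ ⋂ i ∈ Ico K j, {ω | f K i ω ≤ 2 * b} with hA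
  have hAm : ∀ j, MeasurableSet (A j) := fun j =>
    (measurableSet_lt measurable_const (hf K j)).inter (Finset.measurableSet_biInter _ fun i _ =>
      measurableSet_le (hf K i) measurable_const)
  have hBm : ∀ j, MeasurableSet {ω | f j M ω ≤ b} := fun j => measurableSet_le (hf j M) measurable_const
  have hcov : {ω | ∃ j, K ≤ j ∧ j ≤ M ∧ 2 * b < f K j ω} ⊆ ⋃ j ∈ Icc K M, A j := by
    intro ω hω
    classical
    have hex : ∃ j, K ≤ j ∧ j ≤ M ∧ 2 * b < f K j ω := hω
    obtain ⟨h1, h2, h3⟩ := Nat.find_spec hex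
    rw [Set.mem_iUnion₂]
    refine ⟨Nat.find hex, by rw [Finset.mem_Icc]; exact ⟨h1, h2⟩, h3, ?_⟩
    rw [Set.mem_iInter₂]
    intro i hi
    rw [mem_Ico] at hi
    have := Nat.find_min hex hi.2
    by_contra h4
    exact this ⟨hi.1, by omega, by simpa using h4⟩
  have hdisj : ((Icc K M : Finset ℕ) : Set ℕ).PairwiseDisjoint fun j => A j ∩ {ω | f j M ω ≤ b} := by
    intro i hi j hj hij
    rw [Function.onFun, Set.disjoint_left]
    rintro ω ⟨⟨h1, h2⟩, _⟩ ⟨⟨h3, h4⟩, _⟩
    rw [Set.mem_iInter₂] at h2 h4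
    rw [Finset.mem_coe, Finset.mem_Icc] at hi hj
    rcases lt_or_gt_of_ne hij with h | h
    · have h5 : f K i ω ≤ 2 * b := h4 i (by rw [mem_Ico]; omega)
      have h6 : 2 * b < f K i ω := h1
      linarith
    · have h5 : f K j ω ≤ 2 * b := h2 j (by rw [mem_Ico]; omega)
      have h6 : 2 * b < f K j ω := h3
      linarith
  have hprod : ∀ j ∈ Icc K M, mu (A j ∩ {ω | f j M ω ≤ b}) = mu (A j) * mu {ω | f j M ω ≤ b} := by
    intro j hj
    rw [Finset.mem_Icc] at hj
    apply indep_sets j (hAm j) (hBm j)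
    · rintro ω ω' h ⟨h1, h2⟩
      refine ⟨?_, ?_⟩
      · show 2 * b < f K j ω'
        rw [← hloc K j ω ω' fun k _ hk => h k hk]; exact h1
      · rw [Set.mem_iInter₂] at h2 ⊢
        intro i hi
        show f K i ω' ≤ 2 * b
        rw [mem_Ico] at hi
        rw [← hloc K i ω ω' fun k _ hk => h k (by omega)]
        exact h2 i (by rw [mem_Ico]; exact hi)
    · intro ω ω' h h1
      show f j M ω' ≤ b
      rw [← hloc j M ω ω' fun k hk _ => h k hk]; exact h1
  have hsub : ∀ j ∈ Icc K M, A j ∩ {ω | f j M ω ≤ b} ⊆ {ω | b < f K M ω} := by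
    rintro j hj ω ⟨⟨h1, _⟩, h2⟩
    rw [Finset.mem_Icc] at hj
    have h3 : 2 * b < f K j ω := h1
    have h4 : f j M ω ≤ b := h2
    have := hadd K j M ω hj.1 hj.2
    show b < f K M ω
    linarith
  calc mu {ω | ∃ j, K ≤ j ∧ j ≤ M ∧ 2 * b < f K j ω} ≤ mu (⋃ j ∈ Icc K M, A j) := measure_mono hcov
    _ ≤ ∑ j ∈ Icc K M, mu (A j) := measure_biUnion_finset_le _ _
    _ ≤ ∑ j ∈ Icc K M, 2 * mu (A j ∩ {ω | f j M ω ≤ b}) := by
        apply sum_le_sum
        intro j hj
        rw [hprod j hj]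
        rw [Finset.mem_Icc] at hj
        have h1 := hhalf j hj.1 hj.2
        calc mu (A j) = 2 * (mu (A j) * (1 / 2)) := by
              rw [mul_comm (mu (A j)), ← mul_assoc]
              have : (2 : ENNReal) * (1 / 2) = 1 := ENNReal.mul_div_cancel (by norm_num) (by norm_num)
              rw [this, one_mul]
          _ ≤ 2 * (mu (A j) * mu {ω | f j M ω ≤ b}) := by gcongr
    _ = 2 * mu (⋃ j ∈ Icc K M, A j ∩ {ω | f j M ω ≤ b}) := by
        rw [← mul_sum, measure_biUnion_finset hdisj fun j _ => (hAm j).inter (hBm j)]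
    _ ≤ 2 * mu {ω | b < f K M ω} := by
        gcongr
        exact Set.iUnion₂_subset hsub

/-- independent events of probability at least `δ`: one of them happens -/
theorem some_event {Kb : ℕ → ℕ} (hK : Monotone Kb) {G : ℕ → Set Om} (hG : ∀ m, MeasurableSet (G m))
    (hloc : ∀ m (ω ω' : Om), (∀ k, Kb m ≤ k → k < Kb (m + 1) → ω k = ω' k) → ω ∈ G m → ω' ∈ G m) {δ : ENNReal}
    (hδ : 0 < δ) (hp : ∀ m, mu (G m)ᶜ ≤ 1 - δ) : ∀ᵐ ω ∂mu, ∃ m, ω ∈ G m := by
  have hloc' : ∀ m (ω ω' : Om), (∀ k, Kb m ≤ k → k < Kb (m + 1) → ω k = ω' k) → ω ∈ (G m)ᶜ → ω' ∈ (G m)ᶜ := by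
    intro m ω ω' h h1 h2
    exact h1 (hloc m ω' ω (fun k hk hk' => (h k hk hk').symm) h2)
  have h1 : ∀ N, mu (⋂ m ∈ range N, (G m)ᶜ) ≤ (1 - δ) ^ N := by
    intro N
    induction N with
    | zero => simp
    | succ N ih =>
      have e : (⋂ m ∈ range (N + 1), (G m)ᶜ) = (⋂ m ∈ range N, (G m)ᶜ) ∩ (G N)ᶜ := by
        ext ω
        simp only [Set.mem_iInter, mem_range, Set.mem_inter_iff]
        constructor
        · intro h; exact ⟨fun m hm => h m (by omega), h N (by omega)⟩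
        · rintro ⟨h2, h3⟩ m hm
          rcases Nat.lt_succ_iff_lt_or_eq.1 hm with h | rfl
          · exact h2 m h
          · exact h3
      rw [e, indep_sets (Kb N) (Finset.measurableSet_biInter _ fun m _ => (hG m).compl) (hG N).compl, pow_succ]
      · exact mul_le_mul' ih (hp N)
      · intro ω ω' h h2
        rw [Set.mem_iInter₂] at h2 ⊢
        intro m hm
        refine hloc' m ω ω' (fun k _ hk => h k ?_) (h2 m hm)
        rw [mem_range] at hm
        exact lt_of_lt_of_le hk (hK (by omega))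
      · intro ω ω' h h2
        exact hloc' N ω ω' (fun k hk _ => h k hk) h2
  have h2 : (1 - δ) < 1 := ENNReal.sub_lt_self (by norm_num) (by norm_num) hδ.ne'
  have h3 : Tendsto (fun N : ℕ => (1 - δ) ^ N) atTop (𝓝 0) := ENNReal.tendsto_pow_atTop_nhds_zero_of_lt_one h2
  have h4 : mu (⋂ m, (G m)ᶜ) = 0 := by
    refine le_antisymm (ge_of_tendsto' h3 fun N => ?_) bot_le
    refine (measure_mono ?_).trans (h1 N)
    intro ω hω
    rw [Set.mem_iInter₂]
    intro m _
    exact Set.mem_iInter.1 hω m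
  rw [ae_iff]
  convert h4 using 2
  ext ω
  simp

end Pool.Agent.H6.RK
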