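import Mathlib
import Pool.Agent.H6.RK.Prod

/-!
Moments of sums of independent bounded variables.
-/

set_option autoImplicit false

namespace Pool.Agent.H6.RK

open MeasureTheory Filter Topology AddCircle ComplexConjugate Finset

/-- a constant -/
noncomputable def cst (n : ℕ) : ℝ := 4 * ((n : ℝ) + 1) ^ 2

theorem cst_pos (n : ℕ) : 0 < cst n := by unfold cst; positivity

theorem abs_re_le (a b : ℂ) : |(conj a * b).re| ≤ ‖a‖ * ‖b‖ := by
  refine (Complex.abs_re_le_norm _).trans (le_of_eq ?_)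
  rw [norm_mul, RCLike.norm_conj]

/-- expansion of an even power -/
theorem pow_expand (n : ℕ) (a b : ℂ) : ‖a + b‖ ^ (2 * (n + 1))
    ≤ ‖a‖ ^ (2 * (n + 1)) + 2 * (n + 1) * ‖a‖ ^ (2 * n) * (conj a * b).re + cst n * (‖b‖ ^ 2 * (‖a‖ + ‖b‖) ^ (2 * n)) := by
  obtain ⟨A, hA⟩ : ∃ A, A = ‖a‖ := ⟨_, rfl⟩
  obtain ⟨B, hB⟩ : ∃ B, B = ‖b‖ := ⟨_, rfl⟩
  obtain ⟨R, hR⟩ : ∃ R, R = (conj a * b).re := ⟨_, rfl⟩
  have hA0 : 0 ≤ A := hA ▸ norm_nonneg _
  have hB0 : 0 ≤ B := hB ▸ norm_nonneg _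
  have hRAB : |R| ≤ A * B := by rw [hR, hA, hB]; exact abs_re_le a b
  obtain ⟨hR1, hR2⟩ := abs_le.1 hRAB
  have hsq : ‖a + b‖ ^ 2 = A ^ 2 + 2 * R + B ^ 2 := by
    rw [hA, hB, hR, ← Complex.normSq_eq_norm_sq, ← Complex.normSq_eq_norm_sq, ← Complex.normSq_eq_norm_sq, Complex.normSq_add]
    have : (a * conj b).re = (conj a * b).re := by
      rw [← Complex.conj_re, map_mul, Complex.conj_conj]
    rw [this]; ring
  rw [← hA, ← hB, ← hR]
  have hS2 : A ^ 2 + 2 * R + B ^ 2 ≤ (A + B) ^ 2 := by nlinarith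
  have hS0 : 0 ≤ A ^ 2 + 2 * R + B ^ 2 := by rw [← hsq]; positivity
  induction n with
  | zero =>
    have e : 2 * (0 + 1) = 2 := rfl
    simp only [zero_add, mul_one, Nat.cast_zero, mul_zero, pow_zero]
    rw [hsq]
    unfold cst
    push_cast
    nlinarith [sq_nonneg B]
  | succ n ih =>
    have e1 : ‖a + b‖ ^ (2 * (n + 1 + 1)) = (A ^ 2 + 2 * R + B ^ 2) * ‖a + b‖ ^ (2 * (n + 1)) := by
      rw [← hsq, ← pow_add]; congr 1; ring
    rw [e1]
    set S := A + B with hS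
    have hSnn : 0 ≤ S := by positivity
    have hAS : A ≤ S := by linarith
    have hBS : B ≤ S := by linarith
    refine (mul_le_mul_of_nonneg_left ih hS0).trans ?_
    have e2 : A ^ (2 * (n + 1 + 1)) = A ^ 2 * A ^ (2 * (n + 1)) := by rw [← pow_add]; congr 1; ring
    have e3 : A ^ (2 * (n + 1)) = A ^ 2 * A ^ (2 * n) := by rw [← pow_add]; congr 1; ring
    have e4 : S ^ (2 * (n + 1)) = S ^ 2 * S ^ (2 * n) := by rw [← pow_add]; congr 1; ring
    rw [e2, e3, e4]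
    set P := A ^ (2 * n) with hP
    set Q := S ^ (2 * n) with hQ
    have hP0 : 0 ≤ P := by positivity
    have hPQ : P ≤ Q := pow_le_pow_left₀ hA0 hAS _
    have hQ0 : 0 ≤ Q := hP0.trans hPQ
    have hn : (0 : ℝ) ≤ n := Nat.cast_nonneg n
    have t1 : B ^ 2 * (A ^ 2 * P) ≤ B ^ 2 * (S ^ 2 * Q) := by gcongr
    have t2 : P * R ^ 2 ≤ B ^ 2 * (S ^ 2 * Q) := by
      have : R ^ 2 ≤ (A * B) ^ 2 := by rw [← sq_abs]; exact pow_le_pow_left₀ (abs_nonneg _) hRAB 2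
      calc P * R ^ 2 ≤ Q * (S * B) ^ 2 := by
            apply mul_le_mul hPQ (this.trans _) (sq_nonneg _) hQ0
            apply pow_le_pow_left₀ (by positivity)
            gcongr
        _ = B ^ 2 * (S ^ 2 * Q) := by ring
    have t3 : P * R * B ^ 2 ≤ B ^ 2 * (S ^ 2 * Q) := by
      calc P * R * B ^ 2 ≤ P * (A * B) * B ^ 2 := by gcongr
        _ ≤ Q * (S * S) * B ^ 2 := by gcongr
        _ = B ^ 2 * (S ^ 2 * Q) := by ring
    have t4 : cst n * (B ^ 2 * Q) * (A ^ 2 + 2 * R + B ^ 2) ≤ cst n * (B ^ 2 * (S ^ 2 * Q)) := by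
      calc cst n * (B ^ 2 * Q) * (A ^ 2 + 2 * R + B ^ 2) ≤ cst n * (B ^ 2 * Q) * S ^ 2 :=
            mul_le_mul_of_nonneg_left hS2 (by have := cst_pos n; positivity)
        _ = _ := by ring
    have hc : cst n + 1 + 6 * ((n : ℝ) + 1) ≤ cst (n + 1) := by
      unfold cst; push_cast; nlinarith
    have t5 : 0 ≤ B ^ 2 * (S ^ 2 * Q) := by positivity
    have t6 := mul_le_mul_of_nonneg_right hc t5
    push_cast
    nlinarith [mul_le_mul_of_nonneg_left t2 hn, mul_le_mul_of_nonneg_left t3 hn]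

/-! ### sums of independent variables -/

/-- bounded centred variables with small second moments -/
structure Cen (Y : ℕ → T → ℂ) (w : ℕ → ℝ) (G : ℝ) (i j : ℕ) : Prop where
  cont : ∀ k ∈ Ico i j, Continuous (Y k)
  G0 : 0 ≤ G
  w0 : ∀ k ∈ Ico i j, 0 ≤ w k
  bd : ∀ k ∈ Ico i j, ∀ y, ‖Y k y‖ ≤ 4 * G
  mean : ∀ k ∈ Ico i j, ∫ y, Y k y ∂nu = 0
  var : ∀ k ∈ Ico i j, ∫ y, ‖Y k y‖ ^ 2 ∂nu ≤ 2 * w k * G ^ 2

/-- the sum -/
noncomputable def SN (Y : ℕ → T → ℂ) (i j : ℕ) (ω : Om) : ℂ := ∑ k ∈ Ico i j, Y k (ω k)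

variable {Y : ℕ → T → ℂ} {w : ℕ → ℝ} {G : ℝ} {i j : ℕ}

theorem Cen.mono (h : Cen Y w G i j) {i' j' : ℕ} (hi : i ≤ i') (hj : j' ≤ j) : Cen Y w G i' j' := by
  have hs : ∀ k ∈ Ico i' j', k ∈ Ico i j := fun k hk => by rw [mem_Ico] at *; omega
  exact ⟨fun k hk => h.cont k (hs k hk), h.G0, fun k hk => h.w0 k (hs k hk), fun k hk => h.bd k (hs k hk),
    fun k hk => h.mean k (hs k hk), fun k hk => h.var k (hs k hk)⟩

theorem SN_cont (h : Cen Y w G i j) : Continuous (SN Y i j) := by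
  unfold SN
  exact continuous_finsetSum _ fun k hk => (h.cont k hk).comp (continuous_apply k)

theorem SN_bd (h : Cen Y w G i j) (ω : Om) : ‖SN Y i j ω‖ ≤ (j - i : ℕ) * (4 * G) := by
  unfold SN
  refine (norm_sum_le _ _).trans ((sum_le_sum fun k hk => h.bd k hk (ω k)).trans ?_)
  rw [sum_const, Nat.card_Ico, nsmul_eq_mul]

theorem SN_mean (h : Cen Y w G i j) : ∫ ω, SN Y i j ω ∂mu = 0 := by
  unfold SN
  rw [integral_finsetSum]
  · apply sum_eq_zero
    intro k hk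
    have hp := measurePreserving_eval_infinitePi (fun _ : ℕ => nu) k
    have h1 : ∫ ω : Om, Y k (ω k) ∂mu = ∫ y, Y k y ∂nu := by
      have h2 := integral_map (μ := mu) (φ := fun ω : Om => ω k) (f := Y k) hp.measurable.aemeasurable
        (h.cont k hk).aestronglyMeasurable
      rw [← h2]
      congr 1
      exact hp.map_eq
    rw [h1, h.mean k hk]
  · intro k hk
    exact integrable_cont ((h.cont k hk).comp (continuous_apply k)) (C := 4 * G) fun ω => h.bd k hk _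

theorem SN_upd (Y : ℕ → T → ℂ) (i j : ℕ) (ω : Om) (y : T) : SN Y i j (Function.update ω j y) = SN Y i j ω := by
  unfold SN
  refine sum_congr rfl fun k hk => ?_
  rw [mem_Ico] at hk
  rw [Function.update_of_ne (by omega)]

/-- constants -/
noncomputable def K1 (n : ℕ) : ℝ := 2 ^ (2 * n + 2) * 4 ^ (2 * n + 2)
noncomputable def K2 (n : ℕ) : ℝ := 2 * cst n * K1 n

theorem K1_pos (n : ℕ) : 0 < K1 n := by unfold K1; positivity
theorem K2_pos (n : ℕ) : 0 < K2 n := by unfold K2; have := cst_pos n; have := K1_pos n; positivity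

theorem pow_sum_le {x y : ℝ} (hx : 0 ≤ x) (hy : 0 ≤ y) (n : ℕ) :
    (x + 4 * y) ^ (2 * n) * y ^ 2 ≤ K1 n * (x ^ (2 * (n + 1)) + y ^ (2 * (n + 1))) := by
  have h1 : (x + 4 * y) ^ (2 * n) * y ^ 2 ≤ (x + 4 * y) ^ (2 * (n + 1)) := by
    have e : (x + 4 * y) ^ (2 * (n + 1)) = (x + 4 * y) ^ (2 * n) * (x + 4 * y) ^ 2 := by rw [← pow_add]; congr 1
    rw [e]
    apply mul_le_mul_of_nonneg_left _ (by positivity)
    apply pow_le_pow_left₀ hy; linarith
  refine h1.trans ?_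
  have h2 := add_pow_le hx (show 0 ≤ 4 * y by positivity) (2 * (n + 1))
  refine h2.trans ?_
  unfold K1
  have h3 : (4 * y) ^ (2 * (n + 1)) = 4 ^ (2 * n + 2) * y ^ (2 * (n + 1)) := by
    rw [mul_pow]; congr 1
  rw [h3]
  have h4 : (2 : ℝ) ^ (2 * (n + 1) - 1) ≤ 2 ^ (2 * n + 2) := pow_le_pow_right₀ (by norm_num) (by omega)
  have h5 : (1 : ℝ) ≤ 4 ^ (2 * n + 2) := one_le_pow₀ (by norm_num)
  have hx' : 0 ≤ x ^ (2 * (n + 1)) := by positivity
  have hy' : 0 ≤ y ^ (2 * (n + 1)) := by positivity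
  calc (2 : ℝ) ^ (2 * (n + 1) - 1) * (x ^ (2 * (n + 1)) + 4 ^ (2 * n + 2) * y ^ (2 * (n + 1)))
      ≤ 2 ^ (2 * n + 2) * (4 ^ (2 * n + 2) * x ^ (2 * (n + 1)) + 4 ^ (2 * n + 2) * y ^ (2 * (n + 1))) := by
        apply mul_le_mul h4 _ (by positivity) (by positivity)
        nlinarith
    _ = _ := by ring

/-- one more variable -/
theorem mom_step (h : Cen Y w G i (j + 1)) (hij : i ≤ j) (n : ℕ) :
    ∫ ω, ‖SN Y i (j + 1) ω‖ ^ (2 * (n + 1)) ∂mu ≤ (∫ ω, ‖SN Y i j ω‖ ^ (2 * (n + 1)) ∂mu)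
      + K2 n * w j * ((∫ ω, ‖SN Y i j ω‖ ^ (2 * (n + 1)) ∂mu) + G ^ (2 * (n + 1))) := by
  have hj : Cen Y w G i j := h.mono le_rfl (Nat.le_succ j)
  have hmem : j ∈ Ico i (j + 1) := by rw [mem_Ico]; omega
  have hG := h.G0
  have hc := SN_cont hj
  have hYc := h.cont j hmem
  set M : ℝ := ((j - i : ℕ) : ℝ) * (4 * G) with hM
  have hM0 : 0 ≤ M := by positivity
  have hb : ∀ ω, ‖SN Y i j ω‖ ≤ M := SN_bd hj
  have hY := h.bd j hmem
  have h1 := split j (F := fun ω y => ‖SN Y i j ω + Y j y‖ ^ (2 * (n + 1))) (C := (M + 4 * G) ^ (2 * (n + 1)))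
    (by
      have := hc.comp (continuous_fst (X := Om) (Y := T))
      have := hYc.comp (continuous_snd (X := Om) (Y := T))
      fun_prop)
    (fun ω y => by
      rw [abs_pow, abs_norm]
      exact pow_le_pow_left₀ (norm_nonneg _) ((norm_add_le _ _).trans (add_le_add (hb ω) (hY y))) _)
    (fun ω y z => by rw [SN_upd])
  have e1 : ∀ ω : Om, SN Y i j ω + Y j (ω j) = SN Y i (j + 1) ω := fun ω => by
    unfold SN; rw [sum_Ico_succ_top hij]
  simp_rw [e1] at h1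
  rw [h1]
  have i1 : Integrable (fun ω => ‖SN Y i j ω‖ ^ (2 * (n + 1))) mu :=
    integrable_cont (by fun_prop) (C := M ^ (2 * (n + 1))) fun ω => by
      rw [Real.norm_eq_abs, abs_pow, abs_norm]; exact pow_le_pow_left₀ (norm_nonneg _) (hb ω) _
  have h2 : ∀ ω, ∫ y, ‖SN Y i j ω + Y j y‖ ^ (2 * (n + 1)) ∂nu
      ≤ ‖SN Y i j ω‖ ^ (2 * (n + 1)) + K2 n * w j * (‖SN Y i j ω‖ ^ (2 * (n + 1)) + G ^ (2 * (n + 1))) := by
    intro ω
    set a := SN Y i j ω with ha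
    have iY : Integrable (Y j) nu := integrable_cont hYc hY
    have iR : Integrable (fun y => (conj a * Y j y).re) nu := (iY.const_mul _).re
    have iS : Integrable (fun y => ‖Y j y‖ ^ 2) nu := integrable_cont (by fun_prop) (C := (4 * G) ^ 2) fun y => by
      rw [Real.norm_eq_abs, abs_pow, abs_norm]; exact pow_le_pow_left₀ (norm_nonneg _) (hY y) _
    have hpt : ∀ y, ‖a + Y j y‖ ^ (2 * (n + 1)) ≤ ‖a‖ ^ (2 * (n + 1)) + 2 * (n + 1) * ‖a‖ ^ (2 * n) * (conj a * Y j y).re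
        + cst n * (‖a‖ + 4 * G) ^ (2 * n) * ‖Y j y‖ ^ 2 := by
      intro y
      refine (pow_expand n a (Y j y)).trans ?_
      have h3 : (‖a‖ + ‖Y j y‖) ^ (2 * n) ≤ (‖a‖ + 4 * G) ^ (2 * n) :=
        pow_le_pow_left₀ (by positivity) (by linarith [hY y]) _
      have h4 : cst n * (‖Y j y‖ ^ 2 * (‖a‖ + ‖Y j y‖) ^ (2 * n)) ≤ cst n * (‖a‖ + 4 * G) ^ (2 * n) * ‖Y j y‖ ^ 2 := by
        calc cst n * (‖Y j y‖ ^ 2 * (‖a‖ + ‖Y j y‖) ^ (2 * n)) ≤ cst n * (‖Y j y‖ ^ 2 * (‖a‖ + 4 * G) ^ (2 * n)) := by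
              apply mul_le_mul_of_nonneg_left _ (cst_pos n).le
              exact mul_le_mul_of_nonneg_left h3 (sq_nonneg _)
          _ = _ := by ring
      linarith
    have iL : Integrable (fun y => ‖a + Y j y‖ ^ (2 * (n + 1))) nu :=
      integrable_cont (by fun_prop) (C := (M + 4 * G) ^ (2 * (n + 1))) fun y => by
        rw [Real.norm_eq_abs, abs_pow, abs_norm]
        exact pow_le_pow_left₀ (norm_nonneg _) ((norm_add_le _ _).trans (add_le_add (hb ω) (hY y))) _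
    have iC : Integrable (fun _ : T => ‖a‖ ^ (2 * (n + 1))) nu := integrable_const _
    have h5 := integral_mono iL ((iC.add (iR.const_mul (2 * (n + 1) * ‖a‖ ^ (2 * n)))).add
      (iS.const_mul (cst n * (‖a‖ + 4 * G) ^ (2 * n)))) hpt
    simp only [Pi.add_apply] at h5
    have iCR : Integrable (fun y => ‖a‖ ^ (2 * (n + 1)) + 2 * (n + 1) * ‖a‖ ^ (2 * n) * (conj a * Y j y).re) nu :=
      iC.add (iR.const_mul (2 * (n + 1) * ‖a‖ ^ (2 * n)))
    rw [integral_add iCR (iS.const_mul _), integral_add iC (iR.const_mul _), integral_const_mul, integral_const_mul,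
      integral_const, probReal_univ, one_smul] at h5
    have hre : ∫ y, (conj a * Y j y).re ∂nu = 0 := by
      have h6 := integral_re (iY.const_mul (conj a))
      rw [integral_const_mul, h.mean j hmem, mul_zero] at h6
      exact h6.trans (by simp)
    rw [hre, mul_zero, add_zero] at h5
    refine h5.trans ?_
    have h7 := mul_le_mul_of_nonneg_left (h.var j hmem) (show 0 ≤ cst n * (‖a‖ + 4 * G) ^ (2 * n) by
      have := cst_pos n; positivity)
    have h8 := pow_sum_le (norm_nonneg a) hG n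
    have hw := h.w0 j hmem
    have h9 : cst n * (‖a‖ + 4 * G) ^ (2 * n) * (2 * w j * G ^ 2) ≤ K2 n * w j * (‖a‖ ^ (2 * (n + 1)) + G ^ (2 * (n + 1))) := by
      calc cst n * (‖a‖ + 4 * G) ^ (2 * n) * (2 * w j * G ^ 2) = (2 * cst n * w j) * ((‖a‖ + 4 * G) ^ (2 * n) * G ^ 2) := by ring
        _ ≤ (2 * cst n * w j) * (K1 n * (‖a‖ ^ (2 * (n + 1)) + G ^ (2 * (n + 1)))) :=
          mul_le_mul_of_nonneg_left h8 (by have := cst_pos n; positivity)
        _ = _ := by unfold K2; ring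
    linarith
  have i2 : Integrable (fun _ : Om => G ^ (2 * (n + 1))) mu := integrable_const _
  have i3 : Integrable (fun ω => ‖SN Y i j ω‖ ^ (2 * (n + 1)) + G ^ (2 * (n + 1))) mu := i1.add i2
  have h10 : ∫ ω, ∫ y, ‖SN Y i j ω + Y j y‖ ^ (2 * (n + 1)) ∂nu ∂mu
      ≤ ∫ ω, (‖SN Y i j ω‖ ^ (2 * (n + 1)) + K2 n * w j * (‖SN Y i j ω‖ ^ (2 * (n + 1)) + G ^ (2 * (n + 1)))) ∂mu := by
    apply integral_mono_of_nonneg (Eventually.of_forall fun ω => integral_nonneg fun y => by positivity)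
      (i1.add (i3.const_mul _)) (Eventually.of_forall h2)
  refine h10.trans (le_of_eq ?_)
  rw [integral_add i1 (i3.const_mul _), integral_const_mul, integral_add i1 i2, integral_const, probReal_univ, one_smul]

/-- MOMENTS -/
theorem mom (h : Cen Y w G i j) (n : ℕ) :
    (∫ ω, ‖SN Y i j ω‖ ^ (2 * (n + 1)) ∂mu) + G ^ (2 * (n + 1)) ≤ Real.exp (K2 n * ∑ k ∈ Ico i j, w k) * G ^ (2 * (n + 1)) := by
  rcases Nat.lt_or_ge j i with hji | hij
  · have e : Ico i j = ∅ := Ico_eq_empty (by omega)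
    unfold SN
    rw [e]; simp
  · induction j, hij using Nat.le_induction with
    | base => unfold SN; simp
    | succ j hij ih =>
      have h1 := mom_step h hij n
      have h2 := ih (h.mono le_rfl (Nat.le_succ j))
      have hw := h.w0 j (by rw [mem_Ico]; omega)
      rw [sum_Ico_succ_top hij, mul_add (K2 n), Real.exp_add]
      have h3 : 1 + K2 n * w j ≤ Real.exp (K2 n * w j) := by
        have := Real.add_one_le_exp (K2 n * w j); linarith
      have h4 : 0 ≤ K2 n * w j := mul_nonneg (K2_pos n).le hw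
      have h5 : 0 ≤ (∫ ω, ‖SN Y i j ω‖ ^ (2 * (n + 1)) ∂mu) + G ^ (2 * (n + 1)) := by
        have : 0 ≤ ∫ ω, ‖SN Y i j ω‖ ^ (2 * (n + 1)) ∂mu := integral_nonneg fun ω => by positivity
        have := h.G0
        positivity
      calc (∫ ω, ‖SN Y i (j + 1) ω‖ ^ (2 * (n + 1)) ∂mu) + G ^ (2 * (n + 1))
          ≤ (1 + K2 n * w j) * ((∫ ω, ‖SN Y i j ω‖ ^ (2 * (n + 1)) ∂mu) + G ^ (2 * (n + 1))) := by linarith
        _ ≤ Real.exp (K2 n * w j) * (Real.exp (K2 n * ∑ k ∈ Ico i j, w k) * G ^ (2 * (n + 1))) :=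
          mul_le_mul h3 h2 h5 (Real.exp_pos _).le
        _ = _ := by ring

/-- constants -/
noncomputable def K3 (n : ℕ) : ℝ := cst n * 2 ^ (2 * n + 2) * (1 + Real.exp (K2 n))
noncomputable def tt (n : ℕ) : ℝ := 1 / (8 * K3 n)

theorem K3_ge (n : ℕ) : 1 ≤ K3 n := by
  unfold K3 cst
  have h1 : (1 : ℝ) ≤ 2 ^ (2 * n + 2) := one_le_pow₀ (by norm_num)
  have h2 : 0 < Real.exp (K2 n) := Real.exp_pos _
  have h3 : (1 : ℝ) ≤ 4 * ((n : ℝ) + 1) ^ 2 := by nlinarith [Nat.cast_nonneg (α := ℝ) n]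
  nlinarith [mul_le_mul h3 h1 (by norm_num) (by positivity)]

theorem tt_pos (n : ℕ) : 0 < tt n := by unfold tt; have := K3_ge n; positivity
theorem tt_le (n : ℕ) : tt n ≤ 1 / 8 := by
  unfold tt
  have := K3_ge n
  apply div_le_div_of_nonneg_left (by norm_num) (by norm_num) (by linarith)

/-- the remainder is smaller than the function -/
theorem resid (h : Cen Y w G i j) (hs : ∑ k ∈ Ico i j, w k ≤ 1) (n : ℕ) {a : ℂ} (ha : ‖a‖ ≤ (1 - tt n / 4) * G) :
    ∫ ω, ‖a - (tt n : ℂ) * SN Y i j ω‖ ^ (2 * (n + 1)) ∂mu ≤ (1 - tt n / 8) * G ^ (2 * (n + 1)) := by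
  have ht0 := tt_pos n
  have ht1 := tt_le n
  obtain ⟨t, ht⟩ : ∃ t, t = tt n := ⟨_, rfl⟩
  rw [← ht] at ht0 ht1 ha ⊢
  have hG := h.G0
  have hc := SN_cont h
  set M : ℝ := ((j - i : ℕ) : ℝ) * (4 * G) with hM
  have hb : ∀ ω, ‖SN Y i j ω‖ ≤ M := SN_bd h
  have haG : ‖a‖ ≤ G := ha.trans (by nlinarith)
  have hcn := cst_pos n
  have hpt : ∀ ω, ‖a - (t : ℂ) * SN Y i j ω‖ ^ (2 * (n + 1)) ≤ ‖a‖ ^ (2 * (n + 1))
      + -(2 * (n + 1) * ‖a‖ ^ (2 * n) * t) * (conj a * SN Y i j ω).re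
      + cst n * t ^ 2 * 2 ^ (2 * n + 2) * (G ^ (2 * (n + 1)) + ‖SN Y i j ω‖ ^ (2 * (n + 1))) := by
    intro ω
    set N := SN Y i j ω with hN
    have h1 := pow_expand n a (-((t : ℂ) * N))
    rw [← sub_eq_add_neg, norm_neg, norm_mul, Complex.norm_real, Real.norm_eq_abs, abs_of_pos ht0] at h1
    have e1 : (conj a * -((t : ℂ) * N)).re = -t * (conj a * N).re := by
      have : conj a * -((t : ℂ) * N) = ((-t : ℝ) : ℂ) * (conj a * N) := by push_cast; ring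
      rw [this, Complex.re_ofReal_mul]
    rw [e1] at h1
    have hN0 := norm_nonneg N
    have h2 : (t * ‖N‖) ^ 2 * (‖a‖ + t * ‖N‖) ^ (2 * n) ≤ t ^ 2 * (2 ^ (2 * n + 2) * (G ^ (2 * (n + 1)) + ‖N‖ ^ (2 * (n + 1)))) := by
      have h3 : (‖a‖ + t * ‖N‖) ^ (2 * n) ≤ (G + ‖N‖) ^ (2 * n) := by
        apply pow_le_pow_left₀ (by positivity)
        nlinarith
      have h4 : ‖N‖ ^ 2 * (G + ‖N‖) ^ (2 * n) ≤ (G + ‖N‖) ^ (2 * (n + 1)) := by
        have e : (G + ‖N‖) ^ (2 * (n + 1)) = (G + ‖N‖) ^ 2 * (G + ‖N‖) ^ (2 * n) := by rw [← pow_add]; congr 1; ring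
        rw [e]
        apply mul_le_mul_of_nonneg_right _ (by positivity)
        apply pow_le_pow_left₀ hN0; linarith
      have h5 := add_pow_le hG hN0 (2 * (n + 1))
      have h6 : (2 : ℝ) ^ (2 * (n + 1) - 1) ≤ 2 ^ (2 * n + 2) := pow_le_pow_right₀ (by norm_num) (by omega)
      calc (t * ‖N‖) ^ 2 * (‖a‖ + t * ‖N‖) ^ (2 * n) ≤ (t * ‖N‖) ^ 2 * (G + ‖N‖) ^ (2 * n) :=
            mul_le_mul_of_nonneg_left h3 (by positivity)
        _ = t ^ 2 * (‖N‖ ^ 2 * (G + ‖N‖) ^ (2 * n)) := by ring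
        _ ≤ t ^ 2 * (2 ^ (2 * (n + 1) - 1) * (G ^ (2 * (n + 1)) + ‖N‖ ^ (2 * (n + 1)))) :=
            mul_le_mul_of_nonneg_left (h4.trans h5) (by positivity)
        _ ≤ _ := by
            apply mul_le_mul_of_nonneg_left _ (by positivity)
            exact mul_le_mul_of_nonneg_right h6 (by positivity)
    have h7 := mul_le_mul_of_nonneg_left h2 hcn.le
    calc _ ≤ _ := h1
      _ ≤ _ := by nlinarith
  have iN : Integrable (SN Y i j) mu := integrable_cont hc hb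
  have iR : Integrable (fun ω => (conj a * SN Y i j ω).re) mu := (iN.const_mul _).re
  have iC : Integrable (fun _ : Om => ‖a‖ ^ (2 * (n + 1))) mu := integrable_const _
  have iG : Integrable (fun _ : Om => G ^ (2 * (n + 1))) mu := integrable_const _
  have iP : Integrable (fun ω => ‖SN Y i j ω‖ ^ (2 * (n + 1))) mu :=
    integrable_cont (by fun_prop) (C := M ^ (2 * (n + 1))) fun ω => by
      rw [Real.norm_eq_abs, abs_pow, abs_norm]; exact pow_le_pow_left₀ (norm_nonneg _) (hb ω) _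
  have iGP : Integrable (fun ω => G ^ (2 * (n + 1)) + ‖SN Y i j ω‖ ^ (2 * (n + 1))) mu := iG.add iP
  have iCR : Integrable (fun ω => ‖a‖ ^ (2 * (n + 1)) + -(2 * (n + 1) * ‖a‖ ^ (2 * n) * t) * (conj a * SN Y i j ω).re) mu :=
    iC.add (iR.const_mul _)
  have h8 := integral_mono_of_nonneg (Eventually.of_forall fun ω => by positivity) (iCR.add (iGP.const_mul _))
    (Eventually.of_forall hpt)
  simp only [Pi.add_apply] at h8
  rw [integral_add iCR (iGP.const_mul _), integral_add iC (iR.const_mul _), integral_const_mul, integral_const_mul,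
    integral_add iG iP, integral_const, integral_const, probReal_univ, one_smul, one_smul] at h8
  have hre : ∫ ω, (conj a * SN Y i j ω).re ∂mu = 0 := by
    have h6 := integral_re (iN.const_mul (conj a))
    rw [integral_const_mul, SN_mean h, mul_zero] at h6
    exact h6.trans (by simp)
  rw [hre, mul_zero, add_zero] at h8
  refine h8.trans ?_
  have h9 := mom h n
  have h10 : Real.exp (K2 n * ∑ k ∈ Ico i j, w k) ≤ Real.exp (K2 n) := by
    apply Real.exp_le_exp.2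
    have := K2_pos n
    nlinarith
  have hGp : 0 ≤ G ^ (2 * (n + 1)) := by positivity
  have h11 : ‖a‖ ^ (2 * (n + 1)) ≤ (1 - t / 4) * G ^ (2 * (n + 1)) := by
    calc ‖a‖ ^ (2 * (n + 1)) ≤ ((1 - t / 4) * G) ^ (2 * (n + 1)) := pow_le_pow_left₀ (norm_nonneg _) ha _
      _ = (1 - t / 4) ^ (2 * (n + 1)) * G ^ (2 * (n + 1)) := mul_pow _ _ _
      _ ≤ (1 - t / 4) * G ^ (2 * (n + 1)) := by
        apply mul_le_mul_of_nonneg_right _ hGp
        apply pow_le_of_le_one (by linarith) (by linarith) (by omega)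
  have h12 : G ^ (2 * (n + 1)) + ∫ ω, ‖SN Y i j ω‖ ^ (2 * (n + 1)) ∂mu ≤ (1 + Real.exp (K2 n)) * G ^ (2 * (n + 1)) := by
    have := mul_le_mul_of_nonneg_right h10 hGp
    linarith
  have h13 : cst n * t ^ 2 * 2 ^ (2 * n + 2) * (G ^ (2 * (n + 1)) + ∫ ω, ‖SN Y i j ω‖ ^ (2 * (n + 1)) ∂mu)
      ≤ (t / 8) * G ^ (2 * (n + 1)) := by
    have h14 : t * K3 n = 1 / 8 := by
      rw [ht]; unfold tt
      have := K3_ge n
      field_simp
    calc cst n * t ^ 2 * 2 ^ (2 * n + 2) * (G ^ (2 * (n + 1)) + ∫ ω, ‖SN Y i j ω‖ ^ (2 * (n + 1)) ∂mu)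
        ≤ cst n * t ^ 2 * 2 ^ (2 * n + 2) * ((1 + Real.exp (K2 n)) * G ^ (2 * (n + 1))) :=
          mul_le_mul_of_nonneg_left h12 (by positivity)
      _ = t * (t * K3 n) * G ^ (2 * (n + 1)) := by unfold K3; ring
      _ = (t / 8) * G ^ (2 * (n + 1)) := by rw [h14]; ring
  linarith

end Pool.Agent.H6.RK
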