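import Mathlib
import Pool.Agent.H6.RK.Prod

/-!
Random unit vectors of `ℓ²` with prescribed moduli of the coordinates; one step of the Kaczmarz algorithm.
-/

set_option autoImplicit false

namespace Pool.Agent.H6.RK

open MeasureTheory Filter Topology AddCircle ComplexConjugate

/-- the space `ℓ²` (the Taylor coefficients of the functions of `H²`) -/
abbrev H2 : Type := lp (fun _ : ℕ => ℂ) 2

theorem hs_congr {E : Type*} [AddCommMonoid E] [TopologicalSpace E] {f g : ℕ → E} {s : E} (h : ∀ n, f n = g n)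
    (hg : HasSum g s) : HasSum f s := by
  rw [funext h]; exact hg

theorem norm_sq (a : H2) : ‖a‖ ^ 2 = ∑' n, ‖a n‖ ^ 2 := by
  have := lp.norm_rpow_eq_tsum (p := 2) (by norm_num) a
  simpa using this

theorem hasSum_norm_sq (a : H2) : HasSum (fun n => ‖a n‖ ^ 2) (‖a‖ ^ 2) := by
  rw [norm_sq]
  have := (lp.memℓp a).summable (by norm_num)
  simp only [ENNReal.toReal_ofNat, Real.rpow_ofNat] at this
  exact this.hasSum

theorem mem_of {x : ℕ → ℂ} (h : Summable fun n => ‖x n‖ ^ 2) : Memℓp x 2 := by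
  rw [memℓp_gen_iff (by norm_num)]
  simpa using h

theorem nrm_fourier (n : ℤ) (x : T) : ‖(fourier n x : ℂ)‖ = 1 := by
  rw [fourier_apply]; exact Circle.norm_coe _

open Classical in
/-- the unit vector with the moduli `√ (p n)` and the phases `-n x` -/
noncomputable def vec (p : ℕ → ℝ) (x : T) : H2 :=
  if h : Summable p ∧ ∀ n, 0 ≤ p n then
    ⟨fun n => (√ (p n) : ℂ) * fourier (-(n : ℤ)) x, mem_of (by
      have e : (fun n : ℕ => ‖(√ (p n) : ℂ) * fourier (-(n : ℤ)) x‖ ^ 2) = p := by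
        funext n
        rw [norm_mul, nrm_fourier, mul_one, Complex.norm_real, Real.norm_eq_abs, sq_abs, Real.sq_sqrt (h.2 n)]
      rw [e]; exact h.1)⟩
  else 0

variable {p : ℕ → ℝ}

theorem vec_apply (hp : HasSum p 1) (h0 : ∀ n, 0 ≤ p n) (x : T) (n : ℕ) :
    vec p x n = (√ (p n) : ℂ) * fourier (-(n : ℤ)) x := by
  unfold vec
  rw [dif_pos ⟨hp.summable, h0⟩]

theorem vec_norm_sq_apply (hp : HasSum p 1) (h0 : ∀ n, 0 ≤ p n) (x : T) (n : ℕ) : ‖vec p x n‖ ^ 2 = p n := by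
  rw [vec_apply hp h0, norm_mul, nrm_fourier, mul_one, Complex.norm_real, Real.norm_eq_abs, sq_abs, Real.sq_sqrt (h0 n)]

theorem vec_norm (hp : HasSum p 1) (h0 : ∀ n, 0 ≤ p n) (x : T) : ‖vec p x‖ = 1 := by
  have h : ‖vec p x‖ ^ 2 = 1 := by
    rw [norm_sq]
    simp_rw [vec_norm_sq_apply hp h0]
    exact hp.tsum_eq
  have h1 := norm_nonneg (vec p x)
  nlinarith

theorem vec_cont (hp : HasSum p 1) (h0 : ∀ n, 0 ≤ p n) : Continuous (vec p) := by
  rw [continuous_iff_continuousAt]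
  intro x
  rw [ContinuousAt, tendsto_iff_norm_sub_tendsto_zero]
  have h1 : Continuous fun y : T => ∑' n : ℕ, ‖(√ (p n) : ℂ) * fourier (-(n : ℤ)) y - (√ (p n) : ℂ) * fourier (-(n : ℤ)) x‖ ^ 2 := by
    apply continuous_tsum (u := fun n => 4 * p n)
    · intro n
      fun_prop
    · exact hp.summable.mul_left 4
    · intro n y
      rw [← mul_sub, norm_mul, Complex.norm_real, Real.norm_eq_abs, Real.norm_eq_abs, abs_pow, abs_mul, abs_abs, abs_norm,
        mul_pow, sq_abs, Real.sq_sqrt (h0 n)]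
      have h2 : ‖(fourier (-(n : ℤ)) y : ℂ) - fourier (-(n : ℤ)) x‖ ≤ 2 := by
        refine (norm_sub_le _ _).trans ?_
        rw [nrm_fourier, nrm_fourier]; norm_num
      have h3 := norm_nonneg ((fourier (-(n : ℤ)) y : ℂ) - fourier (-(n : ℤ)) x)
      have h4 : ‖(fourier (-(n : ℤ)) y : ℂ) - fourier (-(n : ℤ)) x‖ ^ 2 ≤ 4 := by nlinarith
      nlinarith [h0 n]
  have h2 : (fun y : T => ‖vec p y - vec p x‖ ^ 2) = fun y : T => ∑' n : ℕ, ‖(√ (p n) : ℂ) * fourier (-(n : ℤ)) y - (√ (p n) : ℂ) * fourier (-(n : ℤ)) x‖ ^ 2 := by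
    funext y
    rw [norm_sq]
    congr 1
    funext n
    rw [lp.coeFn_sub, Pi.sub_apply, vec_apply hp h0, vec_apply hp h0]
  have h3 : Tendsto (fun y : T => ‖vec p y - vec p x‖ ^ 2) (𝓝 x) (𝓝 0) := by
    have := (h2 ▸ h1).tendsto x
    simpa using this
  have h4 := h3.sqrt
  simpa [Real.sqrt_sq (norm_nonneg _)] using h4

/-- one step of the algorithm -/
noncomputable def stp (e a : H2) : H2 := a - (inner ℂ e a : ℂ) • e

theorem stp_norm {e : H2} (he : ‖e‖ = 1) (a : H2) : ‖stp e a‖ ^ 2 = ‖a‖ ^ 2 - ‖(inner ℂ e a : ℂ)‖ ^ 2 := by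
  unfold stp
  rw [@norm_sub_sq ℂ, inner_smul_right, norm_smul, he, mul_one]
  have h1 : inner ℂ a e = conj (inner ℂ e a) := (inner_conj_symm _ _).symm
  have h2 : RCLike.re (inner ℂ e a * inner ℂ a e) = ‖(inner ℂ e a : ℂ)‖ ^ 2 := by
    rw [h1, Complex.mul_conj, Complex.normSq_eq_norm_sq]
    exact Complex.ofReal_re _
  rw [h2]; ring

theorem stp_cont {X : Type*} [TopologicalSpace X] {e a : X → H2} (he : Continuous e) (ha : Continuous a) :
    Continuous fun x => stp (e x) (a x) := by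
  unfold stp
  exact ha.sub (Continuous.smul (f := fun x => (inner ℂ (e x) (a x) : ℂ)) (he.inner ha) he)

/-! ### averages over the phase -/

/-- the function with the coefficients `b` -/
noncomputable def Fn (b : ℕ → ℂ) (x : T) : ℂ := ∑' n : ℕ, b n * fourier (n : ℤ) x

theorem nrm_term (b : ℕ → ℂ) (n : ℕ) (x : T) : ‖b n * fourier (n : ℤ) x‖ = ‖b n‖ := by
  rw [norm_mul, nrm_fourier, mul_one]

theorem Fn_hasSum {b : ℕ → ℂ} (hb : Summable fun n => ‖b n‖) (x : T) :
    HasSum (fun n : ℕ => b n * fourier (n : ℤ) x) (Fn b x) := by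
  unfold Fn
  apply Summable.hasSum
  apply Summable.of_norm
  simp_rw [nrm_term]; exact hb

theorem Fn_bound {b : ℕ → ℂ} (hb : Summable fun n => ‖b n‖) (x : T) : ‖Fn b x‖ ≤ ∑' n, ‖b n‖ := by
  unfold Fn
  refine (norm_tsum_le_tsum_norm ?_).trans (le_of_eq ?_)
  · simp_rw [nrm_term]; exact hb
  · simp_rw [nrm_term]

theorem Fn_cont {b : ℕ → ℂ} (hb : Summable fun n => ‖b n‖) : Continuous (Fn b) := by
  unfold Fn
  apply continuous_tsum (u := fun n => ‖b n‖) (fun n => by fun_prop) hb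
  intro n x
  rw [nrm_term]

theorem int_fourier (m : ℤ) : ∫ x : T, (fourier m x : ℂ) ∂nu = if m = 0 then 1 else 0 := by
  have h := congrFun (fourierCoeff_fourier (T := (1 : ℝ)) m) 0
  rw [fourierCoeff] at h
  simp only [neg_zero, fourier_zero, one_smul] at h
  rw [h, Pi.single_apply]
  simp only [eq_comm]

/-- the coefficients of `Fn b` -/
theorem int_Fn {b : ℕ → ℂ} (hb : Summable fun n => ‖b n‖) (n : ℕ) :
    ∫ x, Fn b x * fourier (-(n : ℤ)) x ∂nu = b n := by
  have h1 : HasSum (fun m : ℕ => ∫ x, (b m * fourier (m : ℤ) x) * fourier (-(n : ℤ)) x ∂nu)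
      (∫ x, Fn b x * fourier (-(n : ℤ)) x ∂nu) := by
    apply hasSum_integral_of_dominated_convergence (fun m _ => ‖b m‖)
    · intro m; exact Continuous.aestronglyMeasurable (by fun_prop)
    · intro m
      exact Eventually.of_forall fun x => by rw [norm_mul, nrm_term, nrm_fourier, mul_one]
    · exact Eventually.of_forall fun x => hb
    · exact integrable_const _
    · exact Eventually.of_forall fun x => (Fn_hasSum hb x).mul_right _
  have h2 : ∀ m : ℕ, ∫ x, (b m * fourier (m : ℤ) x) * fourier (-(n : ℤ)) x ∂nu = if m = n then b m else 0 := by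
    intro m
    have e : ∀ x : T, (b m * (fourier (m : ℤ) x : ℂ)) * fourier (-(n : ℤ)) x = b m * fourier ((m : ℤ) + -(n : ℤ)) x := by
      intro x; rw [fourier_add]; ring
    simp_rw [e]
    rw [integral_const_mul, int_fourier]
    by_cases h : m = n
    · subst h; simp
    · rw [if_neg (by omega), if_neg h, mul_zero]
  simp_rw [h2] at h1
  refine h1.unique ?_
  have := hasSum_single (f := fun m : ℕ => if m = n then b m else 0) n (fun m hm => if_neg hm)
  simpa using this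

theorem conj_fourier (n : ℤ) (x : T) : conj (fourier n x : ℂ) = fourier (-n) x := fourier_neg.symm

/-- Parseval -/
theorem int_Fn_sq {b : ℕ → ℂ} (hb : Summable fun n => ‖b n‖) :
    HasSum (fun n => ‖b n‖ ^ 2) (∫ x, ‖Fn b x‖ ^ 2 ∂nu) := by
  have h1 : HasSum (fun n : ℕ => ∫ x, conj (b n) * (Fn b x * fourier (-(n : ℤ)) x) ∂nu)
      (∫ x, ((‖Fn b x‖ ^ 2 : ℝ) : ℂ) ∂nu) := by
    apply hasSum_integral_of_dominated_convergence (fun n _ => ‖b n‖ * ∑' m, ‖b m‖)
    · intro m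
      have := Fn_cont hb
      exact Continuous.aestronglyMeasurable (by fun_prop)
    · intro m
      refine Eventually.of_forall fun x => ?_
      rw [norm_mul, norm_mul, nrm_fourier, mul_one, RCLike.norm_conj]
      exact mul_le_mul_of_nonneg_left (Fn_bound hb x) (norm_nonneg _)
    · exact Eventually.of_forall fun x => hb.mul_right _
    · exact integrable_const _
    · refine Eventually.of_forall fun x => ?_
      have h := ((Fn_hasSum hb x).map (starRingEnd ℂ) Complex.continuous_conj).mul_right (Fn b x)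
      have e : conj (Fn b x) * Fn b x = ((‖Fn b x‖ ^ 2 : ℝ) : ℂ) := by
        rw [mul_comm, Complex.mul_conj, Complex.normSq_eq_norm_sq]
      rw [e] at h
      refine hs_congr (fun n => ?_) h
      simp only [Function.comp_apply, map_mul, conj_fourier]
      ring
  have h2 : ∀ n : ℕ, ∫ x, conj (b n) * (Fn b x * fourier (-(n : ℤ)) x) ∂nu = ((‖b n‖ ^ 2 : ℝ) : ℂ) := by
    intro n
    rw [integral_const_mul, int_Fn hb, mul_comm, Complex.mul_conj, Complex.normSq_eq_norm_sq]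
  simp_rw [h2] at h1
  rw [integral_complex_ofReal] at h1
  exact_mod_cast h1

/-! ### one step -/

theorem coef_summable (hp : HasSum p 1) (h0 : ∀ n, 0 ≤ p n) (a : H2) : Summable fun n => ‖(√ (p n) : ℂ) * a n‖ := by
  have h1 : Summable fun n => (p n + ‖a n‖ ^ 2) := hp.summable.add (hasSum_norm_sq a).summable
  refine Summable.of_nonneg_of_le (fun n => norm_nonneg _) (fun n => ?_) h1
  rw [norm_mul, Complex.norm_real, Real.norm_eq_abs, abs_of_nonneg (Real.sqrt_nonneg _)]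
  have h2 := Real.sq_sqrt (h0 n)
  have h3 := Real.sqrt_nonneg (p n)
  nlinarith [sq_nonneg (√ (p n) - ‖a n‖), norm_nonneg (a n)]

theorem inner_vec (hp : HasSum p 1) (h0 : ∀ n, 0 ≤ p n) (a : H2) (x : T) :
    (inner ℂ (vec p x) a : ℂ) = Fn (fun n => (√ (p n) : ℂ) * a n) x := by
  have h1 := lp.hasSum_inner (𝕜 := ℂ) (vec p x) a
  refine h1.unique ?_
  have h2 := Fn_hasSum (coef_summable hp h0 a) x
  refine hs_congr (fun n => ?_) h2
  rw [vec_apply hp h0, RCLike.inner_apply, map_mul, conj_fourier, neg_neg, Complex.conj_ofReal]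
  ring

/-- the mean energy after one step -/
theorem stp_energy (hp : HasSum p 1) (h0 : ∀ n, 0 ≤ p n) (a : H2) :
    HasSum (fun n => p n * ‖a n‖ ^ 2) (∫ x, ‖(inner ℂ (vec p x) a : ℂ)‖ ^ 2 ∂nu) := by
  have h := int_Fn_sq (coef_summable hp h0 a)
  simp_rw [inner_vec hp h0]
  refine hs_congr (fun n => ?_) h
  rw [norm_mul, mul_pow, Complex.norm_real, Real.norm_eq_abs, sq_abs, Real.sq_sqrt (h0 n)]

/-- the mean energy of a coefficient after one step -/
theorem stp_coef (hp : HasSum p 1) (h0 : ∀ n, 0 ≤ p n) (a : H2) (n : ℕ) :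
    ∫ x, ‖stp (vec p x) a n‖ ^ 2 ∂nu = ‖a n‖ ^ 2 * (1 - 2 * p n) + p n * ∑' m, p m * ‖a m‖ ^ 2 := by
  set b : ℕ → ℂ := fun n => (√ (p n) : ℂ) * a n with hb
  have hbs := coef_summable hp h0 a
  have hc := Fn_cont hbs
  have e1 : ∀ x, ‖stp (vec p x) a n‖ ^ 2 = ‖a n‖ ^ 2 - 2 * ((conj (b n)) * (Fn b x * fourier (-(n : ℤ)) x)).re
      + p n * ‖Fn b x‖ ^ 2 := by
    intro x
    unfold stp
    rw [lp.coeFn_sub, Pi.sub_apply, lp.coeFn_smul, Pi.smul_apply, inner_vec hp h0, smul_eq_mul, vec_apply hp h0]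
    have e2 : ‖a n - Fn b x * ((√ (p n) : ℂ) * fourier (-(n : ℤ)) x)‖ ^ 2
        = ‖a n‖ ^ 2 - 2 * (conj (a n) * (Fn b x * ((√ (p n) : ℂ) * fourier (-(n : ℤ)) x))).re
          + ‖Fn b x * ((√ (p n) : ℂ) * fourier (-(n : ℤ)) x)‖ ^ 2 := by
      rw [← Complex.normSq_eq_norm_sq, ← Complex.normSq_eq_norm_sq, ← Complex.normSq_eq_norm_sq, Complex.normSq_sub]
      have : (a n * conj (Fn b x * ((√ (p n) : ℂ) * fourier (-(n : ℤ)) x))).re
          = (conj (a n) * (Fn b x * ((√ (p n) : ℂ) * fourier (-(n : ℤ)) x))).re := by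
        rw [← Complex.conj_re, map_mul, Complex.conj_conj]
      rw [this]; ring
    rw [e2]
    have e3 : conj (a n) * (Fn b x * ((√ (p n) : ℂ) * fourier (-(n : ℤ)) x)) = conj (b n) * (Fn b x * fourier (-(n : ℤ)) x) := by
      rw [hb]; simp only [map_mul, Complex.conj_ofReal]; ring
    have e4 : ‖Fn b x * ((√ (p n) : ℂ) * fourier (-(n : ℤ)) x)‖ ^ 2 = p n * ‖Fn b x‖ ^ 2 := by
      rw [norm_mul, norm_mul, nrm_fourier, mul_one, mul_pow, Complex.norm_real, Real.norm_eq_abs, sq_abs, Real.sq_sqrt (h0 n)]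
      ring
    rw [e3, e4]
  simp_rw [e1]
  have i1 : Integrable (fun x : T => (conj (b n)) * (Fn b x * fourier (-(n : ℤ)) x)) nu := by
    refine integrable_cont (by fun_prop) (C := ‖b n‖ * ∑' m, ‖b m‖) fun x => ?_
    rw [norm_mul, norm_mul, nrm_fourier, mul_one, RCLike.norm_conj]
    exact mul_le_mul_of_nonneg_left (Fn_bound hbs x) (norm_nonneg _)
  have i2 : Integrable (fun x : T => ‖Fn b x‖ ^ 2) nu := by
    refine integrable_cont (by fun_prop) (C := (∑' m, ‖b m‖) ^ 2) fun x => ?_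
    rw [Real.norm_eq_abs, abs_pow, abs_norm]
    exact pow_le_pow_left₀ (norm_nonneg _) (Fn_bound hbs x) 2
  have i3 : Integrable (fun x : T => 2 * ((conj (b n)) * (Fn b x * fourier (-(n : ℤ)) x)).re) nu := i1.re.const_mul 2
  have i4 : Integrable (fun _ : T => ‖a n‖ ^ 2) nu := integrable_const _
  have i5 : Integrable (fun x : T => ‖a n‖ ^ 2 - 2 * ((conj (b n)) * (Fn b x * fourier (-(n : ℤ)) x)).re) nu := i4.sub i3
  rw [integral_add i5 (i2.const_mul _), integral_sub i4 i3,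
    integral_const_mul, integral_const_mul, integral_const]
  have e5 : ∫ x : T, ((conj (b n)) * (Fn b x * fourier (-(n : ℤ)) x)).re ∂nu = p n * ‖a n‖ ^ 2 := by
    have h1 := integral_re i1
    rw [integral_const_mul, int_Fn hbs] at h1
    have h2 : (conj (b n) * b n) = ((p n * ‖a n‖ ^ 2 : ℝ) : ℂ) := by
      rw [mul_comm, Complex.mul_conj, Complex.normSq_eq_norm_sq, hb, norm_mul, mul_pow, Complex.norm_real, Real.norm_eq_abs, sq_abs,
        Real.sq_sqrt (h0 n)]
    rw [h2] at h1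
    exact h1.trans (Complex.ofReal_re _)
  have e6 : ∫ x, ‖Fn b x‖ ^ 2 ∂nu = ∑' m, p m * ‖a m‖ ^ 2 := by
    have h := (stp_energy hp h0 a).tsum_eq
    rw [h]
    simp_rw [inner_vec hp h0]
    rfl
  rw [e5, e6]
  rw [probReal_univ, one_smul]
  ring

end Pool.Agent.H6.RK
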