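import Mathlib
import Pool.Agent.H6.RK.Vec
import Pool.Agent.H6.RK.Mo
import Pool.Graph.R_seed8.Y242.CK.Sharp

/-!
The random terms of the expansion, at a fixed point of the circle.
-/

set_option autoImplicit false

namespace Pool.Agent.H6.RK

open MeasureTheory Filter Topology AddCircle ComplexConjugate Finset
open Pool.Agent.Y242.CK (kr kr_apply ez norm_ez eval_bound)
open Pool.Agent.H155R3 (polyT polyT_apply)

/-- the point of modulus `r` and argument `y` -/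
noncomputable def pt (r : ℝ) (y : T) : ℂ := (r : ℂ) * fourier 1 y

theorem norm_pt {r : ℝ} (h0 : 0 ≤ r) (y : T) : ‖pt r y‖ = r := by
  rw [pt, norm_mul, nrm_fourier, mul_one, Complex.norm_real, Real.norm_eq_abs, abs_of_nonneg h0]

theorem ez_eq (t : T) : ez t = fourier 1 t := rfl

theorem kr_pt {r : ℝ} (h0 : 0 ≤ r) (h1 : r < 1) (y t : T) :
    kr (pt r y) t = (1 - conj (pt r y) * fourier 1 t)⁻¹ := by
  rw [kr_apply (by rw [norm_pt h0]; exact h1)]; rfl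

theorem conj_mul_self_one (y : T) : conj (fourier 1 y : ℂ) * fourier 1 y = 1 := by
  rw [mul_comm, Complex.mul_conj, Complex.normSq_eq_norm_sq, nrm_fourier]; norm_num

theorem dist_pt (r : ℝ) (y t : T) : ‖pt r y - fourier 1 t‖ = ‖1 - conj (pt r y) * fourier 1 t‖ := by
  have h1 : ‖pt r y - fourier 1 t‖ ^ 2 = ‖1 - conj (pt r y) * fourier 1 t‖ ^ 2 := by
    rw [← Complex.normSq_eq_norm_sq, ← Complex.normSq_eq_norm_sq, Complex.normSq_sub, Complex.normSq_sub]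
    have e1 : Complex.normSq (fourier 1 t : ℂ) = 1 := by rw [Complex.normSq_eq_norm_sq, nrm_fourier]; norm_num
    have e2 : Complex.normSq (conj (pt r y) * fourier 1 t) = Complex.normSq (pt r y) := by
      rw [map_mul, e1, mul_one, Complex.normSq_conj]
    have e3 : (1 * conj (conj (pt r y) * fourier 1 t)).re = (pt r y * conj (fourier 1 t : ℂ)).re := by
      rw [one_mul, map_mul, Complex.conj_conj]
    rw [e1, e2, e3, map_one]
    ring
  have h2 := norm_nonneg (pt r y - fourier 1 t)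
  have h3 := norm_nonneg (1 - conj (pt r y) * fourier 1 t)
  exact (pow_left_inj₀ h2 h3 two_ne_zero).1 h1

theorem den_ge {r : ℝ} (h0 : 0 ≤ r) (y t : T) : 1 - r ≤ ‖1 - conj (pt r y) * fourier 1 t‖ := by
  have h := norm_sub_norm_le (1 : ℂ) (conj (pt r y) * fourier 1 t)
  rw [norm_one, norm_mul, nrm_fourier, mul_one, RCLike.norm_conj, norm_pt h0] at h
  exact h

/-- a term of the expansion at the point `t` -/
noncomputable def xk (g : Polynomial ℂ) (r : ℝ) (t y : T) : ℂ := ((1 - r ^ 2 : ℝ) : ℂ) * g.eval (pt r y) * kr (pt r y) t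

theorem pt_cont (r : ℝ) : Continuous (pt r) := by
  unfold pt
  exact continuous_const.mul (fourier 1).continuous

theorem xk_cont {r : ℝ} (h0 : 0 ≤ r) (h1 : r < 1) (g : Polynomial ℂ) : Continuous fun q : T × T => xk g r q.1 q.2 := by
  unfold xk
  simp_rw [kr_pt h0 h1]
  have hp := (pt_cont r).comp (continuous_snd (X := T) (Y := T))
  refine (continuous_const.mul (g.continuous.comp hp)).mul (Continuous.inv₀ ?_ fun q => ?_)
  · exact continuous_const.sub ((Complex.continuous_conj.comp hp).mul ((fourier 1).continuous.comp continuous_fst))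
  · intro h
    have := den_ge h0 q.2 q.1
    rw [h, norm_zero] at this
    linarith

theorem xk_cont_y {r : ℝ} (h0 : 0 ≤ r) (h1 : r < 1) (g : Polynomial ℂ) (t : T) : Continuous (xk g r t) := by
  have h2 : Continuous fun y : T => ((t, y) : T × T) := by fun_prop
  have h3 : Continuous fun y : T => (fun q : T × T => xk g r q.1 q.2) (t, y) := Continuous.comp (xk_cont h0 h1 g) h2
  exact h3

/-- the kernel as a Fourier series in the argument of the point -/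
theorem kr_fn {r : ℝ} (h0 : 0 ≤ r) (h1 : r < 1) (t y : T) :
    HasSum (fun n : ℕ => ((r : ℂ) ^ n * fourier (n : ℤ) t) * fourier (-(n : ℤ)) y) (kr (pt r y) t) := by
  rw [kr_pt h0 h1]
  have hn : ‖conj (pt r y) * fourier 1 t‖ < 1 := by
    rw [norm_mul, nrm_fourier, mul_one, RCLike.norm_conj, norm_pt h0]; exact h1
  have h2 := hasSum_geometric_of_norm_lt_one hn
  refine hs_congr (fun n => ?_) h2
  rw [mul_pow, pt, map_mul, Complex.conj_ofReal, mul_pow]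
  have e1 : (fourier (n : ℤ) t : ℂ) = (fourier 1 t : ℂ) ^ n := by
    have := Pool.Agent.H155R3.fourier_pow n t
    exact this
  have e2 : (fourier (-(n : ℤ)) y : ℂ) = conj (fourier 1 y : ℂ) ^ n := by
    rw [fourier_neg, ← map_pow]
    congr 1
    exact Pool.Agent.H155R3.fourier_pow n y
  rw [e1, e2]; ring

theorem geo_summable {r : ℝ} (h0 : 0 ≤ r) (h1 : r < 1) (t : T) : Summable fun n : ℕ => ‖(r : ℂ) ^ n * fourier (-(n : ℤ)) t‖ := by
  have e : (fun n : ℕ => ‖(r : ℂ) ^ n * fourier (-(n : ℤ)) t‖) = fun n => r ^ n := by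
    funext n
    rw [norm_mul, nrm_fourier, mul_one, norm_pow, Complex.norm_real, Real.norm_eq_abs, abs_of_nonneg h0]
  rw [e]
  exact summable_geometric_of_lt_one h0 h1

/-- the second moment of the kernel -/
theorem kr_sq {r : ℝ} (h0 : 0 ≤ r) (h1 : r < 1) (t : T) : ∫ y, ‖kr (pt r y) t‖ ^ 2 ∂nu = 1 / (1 - r ^ 2) := by
  have hb := geo_summable h0 h1 t
  have e : ∀ y, ‖kr (pt r y) t‖ = ‖Fn (fun n : ℕ => (r : ℂ) ^ n * fourier (-(n : ℤ)) t) y‖ := by
    intro y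
    have h2 := (kr_fn h0 h1 t y).map (starRingEnd ℂ) Complex.continuous_conj
    have h3 := Fn_hasSum hb y
    have h4 : conj (kr (pt r y) t) = Fn (fun n : ℕ => (r : ℂ) ^ n * fourier (-(n : ℤ)) t) y := by
      refine h2.unique (hs_congr (fun n => ?_) h3)
      simp only [Function.comp_apply, map_mul, map_pow, Complex.conj_ofReal, conj_fourier, neg_neg]
    rw [← h4, RCLike.norm_conj]
  simp_rw [e]
  have h5 := (int_Fn_sq hb).tsum_eq
  rw [← h5]
  have h6 : ∀ n : ℕ, ‖(r : ℂ) ^ n * fourier (-(n : ℤ)) t‖ ^ 2 = (r ^ 2) ^ n := by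
    intro n
    rw [norm_mul, nrm_fourier, mul_one, norm_pow, Complex.norm_real, Real.norm_eq_abs, abs_of_nonneg h0, ← pow_mul, ← pow_mul, mul_comm]
  simp_rw [h6]
  rw [tsum_geometric_of_lt_one (by positivity) (by nlinarith), one_div]

/-- the mean of a term -/
theorem xk_mean {r : ℝ} (h0 : 0 ≤ r) (h1 : r < 1) (g : Polynomial ℂ) (t : T) :
    ∫ y, xk g r t y ∂nu = ((1 - r ^ 2 : ℝ) : ℂ) * g.eval ((r ^ 2 : ℝ) * fourier 1 t) := by
  unfold xk
  simp_rw [mul_assoc]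
  rw [integral_const_mul]
  congr 1
  set c : ℕ → ℂ := fun n => g.coeff n * (r : ℂ) ^ n with hc
  have hsupp : ∀ n, n ∉ range (g.natDegree + 1) → c n = 0 := by
    intro n hn
    rw [mem_range, not_lt] at hn
    rw [hc]; simp only
    rw [Polynomial.coeff_eq_zero_of_natDegree_lt (by omega), zero_mul]
  have hcs : Summable fun n => ‖c n‖ := by
    apply summable_of_ne_finset_zero (s := range (g.natDegree + 1))
    intro n hn
    rw [hsupp n hn, norm_zero]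
  have hFn : ∀ y, Fn c y = g.eval (pt r y) := by
    intro y
    have h2 := Fn_hasSum hcs y
    have h3 : HasSum (fun n : ℕ => c n * fourier (n : ℤ) y) (∑ n ∈ range (g.natDegree + 1), c n * fourier (n : ℤ) y) := by
      apply hasSum_sum_of_ne_finset_zero
      intro n hn
      rw [hsupp n hn, zero_mul]
    rw [h2.unique h3, Polynomial.eval_eq_sum_range]
    refine sum_congr rfl fun n _ => ?_
    have e1 : (fourier (n : ℤ) y : ℂ) = (fourier 1 y : ℂ) ^ n := Pool.Agent.H155R3.fourier_pow n y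
    rw [hc, pt, mul_pow, e1]; simp only; ring
  have h4 : HasSum (fun n : ℕ => ∫ y, ((r : ℂ) ^ n * fourier (n : ℤ) t) * (Fn c y * fourier (-(n : ℤ)) y) ∂nu)
      (∫ y, g.eval (pt r y) * kr (pt r y) t ∂nu) := by
    apply hasSum_integral_of_dominated_convergence (fun n _ => r ^ n * ∑' n, ‖c n‖)
    · intro n
      have := Fn_cont hcs
      exact Continuous.aestronglyMeasurable (by fun_prop)
    · intro n
      refine Eventually.of_forall fun y => ?_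
      rw [norm_mul, norm_mul, norm_mul, nrm_fourier, nrm_fourier, mul_one, mul_one, norm_pow, Complex.norm_real, Real.norm_eq_abs,
        abs_of_nonneg h0]
      exact mul_le_mul_of_nonneg_left (Fn_bound hcs y) (by positivity)
    · exact Eventually.of_forall fun y => (summable_geometric_of_lt_one h0 h1).mul_right _
    · exact integrable_const _
    · refine Eventually.of_forall fun y => ?_
      have h5 := (kr_fn h0 h1 t y).mul_left (Fn c y)
      rw [hFn y] at h5 ⊢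
      exact hs_congr (fun n => by ring) h5
  simp_rw [integral_const_mul, int_Fn hcs] at h4
  have h6 : HasSum (fun n : ℕ => (r : ℂ) ^ n * fourier (n : ℤ) t * c n)
      (∑ n ∈ range (g.natDegree + 1), (r : ℂ) ^ n * fourier (n : ℤ) t * c n) := by
    apply hasSum_sum_of_ne_finset_zero
    intro n hn
    rw [hsupp n hn, mul_zero]
  rw [h4.unique h6, Polynomial.eval_eq_sum_range]
  refine sum_congr rfl fun n _ => ?_
  have e1 : (fourier (n : ℤ) t : ℂ) = (fourier 1 t : ℂ) ^ n := Pool.Agent.H155R3.fourier_pow n t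
  rw [hc, e1]
  push_cast
  simp only [mul_pow]
  ring

/-! ### bounds -/

theorem lip (g : Polynomial ℂ) : ∃ L : ℝ, 0 ≤ L ∧ (∀ u v : ℂ, ‖u‖ ≤ 1 → ‖v‖ ≤ 1 → ‖g.eval u - g.eval v‖ ≤ L * ‖u - v‖) := by
  obtain ⟨D, hD0, hD, _⟩ := eval_bound g.derivative
  refine ⟨D, hD0, fun u v hu hv => ?_⟩
  refine Convex.norm_image_sub_le_of_norm_deriv_le (f := fun z => g.eval z) (s := Metric.closedBall (0 : ℂ) 1)
    (fun z _ => g.differentiable.differentiableAt) (fun z hz => ?_) (convex_closedBall _ _) ?_ ?_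
  · rw [Polynomial.deriv]
    exact hD z (by simpa using hz)
  · simpa using hv
  · simpa using hu

/-- the centred term -/
noncomputable def Yk (g : Polynomial ℂ) (r : ℝ) (t y : T) : ℂ :=
  xk g r t y - ((1 - r ^ 2 : ℝ) : ℂ) * g.eval ((r ^ 2 : ℝ) * fourier 1 t)

theorem var_le {X : T → ℂ} (hX : Continuous X) {C : ℝ} (hC : ∀ y, ‖X y‖ ≤ C) :
    ∫ y, ‖X y - ∫ z, X z ∂nu‖ ^ 2 ∂nu ≤ ∫ y, ‖X y‖ ^ 2 ∂nu := by
  set m := ∫ z, X z ∂nu with hm
  have iX : Integrable X nu := integrable_cont hX hC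
  have iX2 : Integrable (fun y => ‖X y‖ ^ 2) nu := integrable_cont (by fun_prop) (C := C ^ 2) fun y => by
    rw [Real.norm_eq_abs, abs_pow, abs_norm]; exact pow_le_pow_left₀ (norm_nonneg _) (hC y) _
  have iR : Integrable (fun y => (conj m * X y).re) nu := (iX.const_mul _).re
  have iC : Integrable (fun _ : T => ‖m‖ ^ 2) nu := integrable_const _
  have e : ∀ y, ‖X y - m‖ ^ 2 = ‖X y‖ ^ 2 - 2 * (conj m * X y).re + ‖m‖ ^ 2 := by
    intro y
    rw [← Complex.normSq_eq_norm_sq, ← Complex.normSq_eq_norm_sq, ← Complex.normSq_eq_norm_sq, Complex.normSq_sub]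
    rw [mul_comm (X y)]; ring
  simp_rw [e]
  have iXR : Integrable (fun y => ‖X y‖ ^ 2 - 2 * (conj m * X y).re) nu := iX2.sub (iR.const_mul 2)
  rw [integral_add iXR iC, integral_sub iX2 (iR.const_mul 2), integral_const_mul, integral_const, probReal_univ, one_smul]
  have hre : ∫ y, (conj m * X y).re ∂nu = ‖m‖ ^ 2 := by
    have h6 := integral_re (iX.const_mul (conj m))
    rw [integral_const_mul, ← hm, mul_comm (conj m), Complex.mul_conj, Complex.normSq_eq_norm_sq] at h6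
    exact h6.trans (Complex.ofReal_re _)
  rw [hre]
  have := sq_nonneg ‖m‖
  linarith

theorem kr_norm_mul {r : ℝ} (h0 : 0 ≤ r) (h1 : r < 1) (t y : T) : ‖kr (pt r y) t‖ * ‖pt r y - fourier 1 t‖ = 1 := by
  rw [kr_pt h0 h1, dist_pt, norm_inv]
  have := den_ge h0 y t
  exact inv_mul_cancel₀ (by linarith)

theorem kr_norm_le {r : ℝ} (h0 : 0 ≤ r) (h1 : r < 1) (t y : T) : (1 - r ^ 2) * ‖kr (pt r y) t‖ ≤ 2 := by
  have h2 := kr_norm_mul h0 h1 t y
  have h3 := den_ge h0 y t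
  rw [← dist_pt] at h3
  have h4 := norm_nonneg (kr (pt r y) t)
  have h5 : ‖kr (pt r y) t‖ * (1 - r) ≤ 1 := (mul_le_mul_of_nonneg_left h3 h4).trans h2.le
  nlinarith

variable {g : Polynomial ℂ} {L : ℝ}

theorem xk_le {r : ℝ} (h0 : 0 ≤ r) (h1 : r < 1)
    (hL : ∀ u v : ℂ, ‖u‖ ≤ 1 → ‖v‖ ≤ 1 → ‖g.eval u - g.eval v‖ ≤ L * ‖u - v‖) (t y : T) :
    ‖xk g r t y‖ ≤ (1 - r ^ 2) * (‖g.eval (fourier 1 t : ℂ)‖ * ‖kr (pt r y) t‖ + L) := by
  have hw : 0 ≤ 1 - r ^ 2 := by nlinarith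
  rw [xk, norm_mul, norm_mul, Complex.norm_real, Real.norm_eq_abs, abs_of_nonneg hw, mul_assoc]
  apply mul_le_mul_of_nonneg_left _ hw
  have h2 := hL (pt r y) (fourier 1 t) (by rw [norm_pt h0]; linarith) (by rw [nrm_fourier])
  have h3 : ‖g.eval (pt r y)‖ ≤ ‖g.eval (fourier 1 t : ℂ)‖ + L * ‖pt r y - fourier 1 t‖ := by
    have := norm_sub_norm_le (g.eval (pt r y)) (g.eval (fourier 1 t : ℂ))
    linarith
  calc ‖g.eval (pt r y)‖ * ‖kr (pt r y) t‖
      ≤ (‖g.eval (fourier 1 t : ℂ)‖ + L * ‖pt r y - fourier 1 t‖) * ‖kr (pt r y) t‖ :=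
        mul_le_mul_of_nonneg_right h3 (norm_nonneg _)
    _ = ‖g.eval (fourier 1 t : ℂ)‖ * ‖kr (pt r y) t‖ + L * (‖kr (pt r y) t‖ * ‖pt r y - fourier 1 t‖) := by ring
    _ = _ := by rw [kr_norm_mul h0 h1, mul_one]

theorem xk_bd {r ε : ℝ} (h0 : 0 ≤ r) (h1 : r < 1)
    (hL : ∀ u v : ℂ, ‖u‖ ≤ 1 → ‖v‖ ≤ 1 → ‖g.eval u - g.eval v‖ ≤ L * ‖u - v‖)
    (hε : (1 - r ^ 2) * L ≤ 2 * ε) (t y : T) : ‖xk g r t y‖ ≤ 2 * (‖g.eval (fourier 1 t : ℂ)‖ + ε) := by
  refine (xk_le h0 h1 hL t y).trans ?_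
  have h2 := kr_norm_le h0 h1 t y
  have h3 := norm_nonneg (g.eval (fourier 1 t : ℂ))
  nlinarith [mul_le_mul_of_nonneg_left h2 h3]

theorem kr_sq_cont {r : ℝ} (h0 : 0 ≤ r) (h1 : r < 1) (t : T) : Continuous fun y => ‖kr (pt r y) t‖ ^ 2 := by
  have e : (fun y => ‖kr (pt r y) t‖ ^ 2) = fun y => ‖(1 - conj (pt r y) * fourier 1 t)⁻¹‖ ^ 2 := by
    funext y; rw [kr_pt h0 h1]
  rw [e]
  refine (Continuous.norm (Continuous.inv₀ ?_ fun y => ?_)).pow 2
  · exact continuous_const.sub ((Complex.continuous_conj.comp (pt_cont r)).mul continuous_const)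
  · intro h
    have := den_ge h0 y t
    rw [h, norm_zero] at this
    linarith

theorem kr_sq_int {r : ℝ} (h0 : 0 ≤ r) (h1 : r < 1) (t : T) : Integrable (fun y => ‖kr (pt r y) t‖ ^ 2) nu := by
  have hw0 : 0 < 1 - r ^ 2 := by nlinarith
  refine integrable_cont (kr_sq_cont h0 h1 t) (C := (2 / (1 - r ^ 2)) ^ 2) fun y => ?_
  rw [Real.norm_eq_abs, abs_pow, abs_norm]
  apply pow_le_pow_left₀ (norm_nonneg _)
  rw [le_div_iff₀ hw0, mul_comm]
  exact kr_norm_le h0 h1 t y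

theorem xk_sq {r ε : ℝ} (h0 : 0 ≤ r) (h1 : r < 1)
    (hL : ∀ u v : ℂ, ‖u‖ ≤ 1 → ‖v‖ ≤ 1 → ‖g.eval u - g.eval v‖ ≤ L * ‖u - v‖) (hε0 : 0 ≤ ε)
    (hε2 : (1 - r ^ 2) * L ^ 2 ≤ ε ^ 2) (t : T) :
    ∫ y, ‖xk g r t y‖ ^ 2 ∂nu ≤ 2 * (1 - r ^ 2) * (‖g.eval (fourier 1 t : ℂ)‖ + ε) ^ 2 := by
  obtain ⟨a, ha⟩ : ∃ a : ℝ, a = ‖g.eval (fourier 1 t : ℂ)‖ := ⟨_, rfl⟩
  have ha0 : 0 ≤ a := ha ▸ norm_nonneg _
  have hw0 : 0 < 1 - r ^ 2 := by nlinarith
  obtain ⟨w, hw⟩ : ∃ w : ℝ, w = 1 - r ^ 2 := ⟨_, rfl⟩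
  have ik := kr_sq_int h0 h1 t
  have hpt : ∀ y, ‖xk g r t y‖ ^ 2 ≤ 2 * w ^ 2 * a ^ 2 * ‖kr (pt r y) t‖ ^ 2 + 2 * w ^ 2 * L ^ 2 := by
    intro y
    have h2 := pow_le_pow_left₀ (norm_nonneg _) (xk_le h0 h1 hL t y) 2
    rw [← ha, ← hw] at h2
    refine h2.trans ?_
    obtain ⟨k, hk⟩ : ∃ k : ℝ, k = ‖kr (pt r y) t‖ := ⟨_, rfl⟩
    rw [← hk]
    have h3 := sq_nonneg (a * k - L)
    have h4 := sq_nonneg w
    nlinarith [mul_nonneg h4 h3]
  have iC : Integrable (fun _ : T => 2 * w ^ 2 * L ^ 2) nu := integrable_const _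
  have h5 : ∫ y, ‖xk g r t y‖ ^ 2 ∂nu ≤ ∫ y, (2 * w ^ 2 * a ^ 2 * ‖kr (pt r y) t‖ ^ 2 + 2 * w ^ 2 * L ^ 2) ∂nu :=
    integral_mono_of_nonneg (Eventually.of_forall fun y => sq_nonneg ‖xk g r t y‖) ((ik.const_mul _).add iC)
      (Eventually.of_forall hpt)
  rw [integral_add (ik.const_mul _) iC, integral_const_mul, kr_sq h0 h1, integral_const, probReal_univ, one_smul, ← hw] at h5
  refine h5.trans ?_
  rw [← ha, ← hw]
  rw [← hw] at hw0 hε2
  have e : 2 * w ^ 2 * a ^ 2 * (1 / w) + 2 * w ^ 2 * L ^ 2 = 2 * w * (a ^ 2 + w * L ^ 2) := by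
    field_simp
  rw [e]
  apply mul_le_mul_of_nonneg_left _ (by positivity)
  nlinarith

theorem Yk_eq {r : ℝ} (h0 : 0 ≤ r) (h1 : r < 1) (g : Polynomial ℂ) (t y : T) : Yk g r t y = xk g r t y - ∫ z, xk g r t z ∂nu := by
  rw [xk_mean h0 h1 g t, Yk]

theorem cen_one {r ε : ℝ} (h0 : 0 ≤ r) (h1 : r < 1)
    (hL : ∀ u v : ℂ, ‖u‖ ≤ 1 → ‖v‖ ≤ 1 → ‖g.eval u - g.eval v‖ ≤ L * ‖u - v‖) (hε0 : 0 ≤ ε)
    (hε : (1 - r ^ 2) * L ≤ 2 * ε) (hε2 : (1 - r ^ 2) * L ^ 2 ≤ ε ^ 2) (t : T) :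
    Continuous (Yk g r t) ∧ (∀ y, ‖Yk g r t y‖ ≤ 4 * (‖g.eval (fourier 1 t : ℂ)‖ + ε)) ∧ (∫ y, Yk g r t y ∂nu = 0) ∧
      (∫ y, ‖Yk g r t y‖ ^ 2 ∂nu ≤ 2 * (1 - r ^ 2) * (‖g.eval (fourier 1 t : ℂ)‖ + ε) ^ 2) := by
  obtain ⟨G, hG⟩ : ∃ G : ℝ, G = ‖g.eval (fourier 1 t : ℂ)‖ + ε := ⟨_, rfl⟩
  have hxc : Continuous (xk g r t) := xk_cont_y h0 h1 g t
  have hb := xk_bd h0 h1 hL hε t
  rw [← hG] at hb
  have hmle : ‖∫ z, xk g r t z ∂nu‖ ≤ 2 * G := by
    refine (norm_integral_le_of_norm_le_const (Eventually.of_forall hb)).trans ?_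
    rw [probReal_univ, mul_one]
  have ix : Integrable (xk g r t) nu := integrable_cont hxc hb
  have hsq := xk_sq h0 h1 hL hε0 hε2 t
  have hYf : Yk g r t = fun y => xk g r t y - ∫ z, xk g r t z ∂nu := by
    funext y; exact Yk_eq h0 h1 g t y
  rw [hYf, ← hG]
  rw [← hG] at hsq
  refine ⟨hxc.sub continuous_const, fun y => ?_, ?_, ?_⟩
  · refine (norm_sub_le _ _).trans ?_
    linarith [hb y]
  · rw [integral_sub ix (integrable_const _), integral_const, probReal_univ, one_smul, sub_self]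
  · exact (var_le hxc hb).trans hsq

/-- the centred terms satisfy the hypotheses of the moment bounds, far enough -/
theorem cen_block {r : ℕ → ℝ} (hr : ∀ k, 0 ≤ r k ∧ r k < 1) (hL : ∀ u v : ℂ, ‖u‖ ≤ 1 → ‖v‖ ≤ 1 → ‖g.eval u - g.eval v‖ ≤ L * ‖u - v‖) {ε : ℝ} (hε0 : 0 ≤ ε) {i : ℕ}
    (hi : ∀ k, i ≤ k → (1 - r k ^ 2) * L ≤ 2 * ε ∧ (1 - r k ^ 2) * L ^ 2 ≤ ε ^ 2) (j : ℕ) (t : T) :
    Cen (fun k => Yk g (r k) t) (fun k => 1 - r k ^ 2) (‖g.eval (fourier 1 t : ℂ)‖ + ε) i j := by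
  have h : ∀ k ∈ Ico i j, _ := fun k hk => cen_one (hr k).1 (hr k).2 hL hε0 (hi k (mem_Ico.1 hk).1).1 (hi k (mem_Ico.1 hk).1).2 t
  exact ⟨fun k hk => (h k hk).1, by positivity, fun k _ => by have := hr k; nlinarith, fun k hk => (h k hk).2.1,
    fun k hk => (h k hk).2.2.1, fun k hk => (h k hk).2.2.2⟩

end Pool.Agent.H6.RK
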