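import Mathlib
import Pool.Agent.H6.RK.Ker
import Pool.Agent.H6.RK.Ind

/-!
From moments at a point of the circle to `L^p` norms.
-/

set_option autoImplicit false

namespace Pool.Agent.H6.RK

open MeasureTheory Filter Topology AddCircle ComplexConjugate Finset
open Pool.Agent.Y242.CK (kr kr_apply ez norm_ez nm nm_rpow nm_add nm_smul nm_sum nm_nonneg nm_le_sup one_le_toReal memLp_c)
open Pool.Agent.H155R3 (polyT polyT_apply)
open scoped ENNReal

/-! ### Jensen and Markov -/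

theorem int_compact {X : Type*} [TopologicalSpace X] [CompactSpace X] [MeasurableSpace X] [OpensMeasurableSpace X]
    [SecondCountableTopology X] {m : Measure X} [IsFiniteMeasure m] {f : X → ℝ} (hf : Continuous f) : Integrable f m := by
  obtain ⟨C, hC⟩ := (isCompact_range hf).isBounded.exists_norm_le
  exact integrable_cont hf (C := C) fun x => hC _ ⟨x, rfl⟩

theorem jen {f : Om → ℝ} (hf : Continuous f) (h0 : ∀ ω, 0 ≤ f ω) {s : ℝ} {N : ℕ} (hs : 1 ≤ s) (hsN : s ≤ N) {a : ℝ}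
    (ha : 0 ≤ a) (h : ∫ ω, f ω ^ N ∂mu ≤ a ^ N) : ∫ ω, f ω ^ s ∂mu ≤ a ^ s := by
  have hs0 : 0 < s := by linarith
  have hθ : 1 ≤ (N : ℝ) / s := by rw [le_div_iff₀ hs0]; linarith
  have hc : Continuous fun ω => f ω ^ s := hf.rpow_const fun ω => Or.inr hs0.le
  have e : ∀ x : ℝ, 0 ≤ x → (x ^ s) ^ ((N : ℝ) / s) = x ^ N := by
    intro x hx
    rw [← Real.rpow_mul hx, mul_div_cancel₀ _ hs0.ne', Real.rpow_natCast]
  have h1 := (convexOn_rpow hθ).map_integral_le (μ := mu) (f := fun ω => f ω ^ s)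
    (fun x _ => (Real.continuousAt_rpow_const x _ (Or.inr (by positivity))).continuousWithinAt)
    isClosed_Ici (Eventually.of_forall fun ω => Real.rpow_nonneg (h0 ω) s) (int_compact hc) (by
      have : ((fun x : ℝ => x ^ ((N : ℝ) / s)) ∘ fun ω => f ω ^ s) = fun ω => f ω ^ N := by
        funext ω; exact e _ (h0 ω)
      rw [this]
      exact int_compact (by fun_prop))
  have h2 : ∫ ω, (f ω ^ s) ^ ((N : ℝ) / s) ∂mu = ∫ ω, f ω ^ N ∂mu := by
    congr 1; funext ω; exact e _ (h0 ω)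
  rw [h2] at h1
  have h3 : (∫ ω, f ω ^ s ∂mu) ^ ((N : ℝ) / s) ≤ (a ^ s) ^ ((N : ℝ) / s) := by
    rw [e a ha]; exact h1.trans h
  have hI : 0 ≤ ∫ ω, f ω ^ s ∂mu := integral_nonneg fun ω => Real.rpow_nonneg (h0 ω) s
  exact (Real.rpow_le_rpow_iff hI (Real.rpow_nonneg ha s) (by linarith)).1 h3

section

variable {p : ℝ≥0∞} [hp : Fact (1 ≤ p)]

theorem nm_cont (hpt : p ≠ ∞) : Continuous (nm p) := by
  unfold nm
  exact (ContinuousMap.toLp p haarAddCircle ℂ).continuous.norm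

theorem push (hpt : p ≠ ∞) {n : ℕ} (hpn : p ≤ ((2 * (n + 1) : ℕ) : ℝ≥0∞)) {D : Om → C(T, ℂ)} (hD : Continuous D)
    {H : C(T, ℂ)} {c : ℝ} (hc : 0 ≤ c)
    (h : ∀ t, ∫ ω, ‖D ω t‖ ^ (2 * (n + 1)) ∂mu ≤ (c * ‖H t‖) ^ (2 * (n + 1))) :
    ∫ ω, nm p (D ω) ^ p.toReal ∂mu ≤ (c * nm p H) ^ p.toReal := by
  have hs := one_le_toReal (p := p) hpt
  have hs0 : 0 < p.toReal := by linarith
  have hsN : p.toReal ≤ ((2 * (n + 1) : ℕ) : ℝ) := by
    have := ENNReal.toReal_mono (ENNReal.natCast_ne_top _) hpn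
    rwa [ENNReal.toReal_natCast] at this
  simp_rw [nm_rpow hpt]
  have hj : Continuous fun q : Om × T => ‖D q.1 q.2‖ ^ p.toReal := by
    have h1 : Continuous fun q : Om × T => D q.1 q.2 := by
      have := hD.comp (continuous_fst (X := Om) (Y := T))
      fun_prop
    exact h1.norm.rpow_const fun q => Or.inr hs0.le
  have hsw : ∫ ω, ∫ t, ‖D ω t‖ ^ p.toReal ∂nu ∂mu = ∫ t, ∫ ω, ‖D ω t‖ ^ p.toReal ∂mu ∂nu :=
    integral_integral_swap (f := fun ω t => ‖D ω t‖ ^ p.toReal) (int_compact hj)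
  rw [hsw, Real.mul_rpow hc (nm_nonneg p H), nm_rpow hpt, ← integral_const_mul]
  have hHc : Continuous fun t => c ^ p.toReal * ‖H t‖ ^ p.toReal :=
    continuous_const.mul (H.continuous.norm.rpow_const fun t => Or.inr hs0.le)
  refine integral_mono_of_nonneg (Eventually.of_forall fun t => integral_nonneg fun ω => Real.rpow_nonneg (norm_nonneg _) _)
    (int_compact hHc) (Eventually.of_forall fun t => ?_)
  simp only
  rw [← Real.mul_rpow hc (norm_nonneg _)]
  have hDt : Continuous fun ω => ‖D ω t‖ := by fun_prop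
  exact jen hDt (fun ω => norm_nonneg _) hs hsN (by positivity) (h t)

theorem markov (hpt : p ≠ ∞) {n : ℕ} (hpn : p ≤ ((2 * (n + 1) : ℕ) : ℝ≥0∞)) {D : Om → C(T, ℂ)} (hD : Continuous D)
    {H : C(T, ℂ)} {c c' : ℝ} (hc : 0 ≤ c) (hcc : c ≤ c') (hc' : 0 < c') {B : ℝ} (hB : 0 < B) (hHB : nm p H ≤ B)
    (h : ∀ t, ∫ ω, ‖D ω t‖ ^ (2 * (n + 1)) ∂mu ≤ (c * ‖H t‖) ^ (2 * (n + 1))) :
    mu {ω | c' * B < nm p (D ω)} ≤ ENNReal.ofReal (c / c') := by
  have hs := one_le_toReal (p := p) hpt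
  have hs0 : 0 < p.toReal := by linarith
  have h1 := push hpt hpn hD hc h
  have hcn : Continuous fun ω => nm p (D ω) ^ p.toReal :=
    ((nm_cont hpt).comp hD).rpow_const fun ω => Or.inr hs0.le
  have h2 := mul_meas_ge_le_integral_of_nonneg (μ := mu) (f := fun ω => nm p (D ω) ^ p.toReal)
    (Eventually.of_forall fun ω => Real.rpow_nonneg (nm_nonneg p _) _) (int_compact hcn) ((c' * B) ^ p.toReal)
  have hpos : 0 < (c' * B) ^ p.toReal := Real.rpow_pos_of_pos (by positivity) _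
  have h3 : (c * nm p H) ^ p.toReal ≤ (c * B) ^ p.toReal :=
    Real.rpow_le_rpow (mul_nonneg hc (nm_nonneg p H)) (mul_le_mul_of_nonneg_left hHB hc) hs0.le
  have h4 : mu.real {ω | (c' * B) ^ p.toReal ≤ nm p (D ω) ^ p.toReal} ≤ c / c' := by
    have h5 : (c' * B) ^ p.toReal * mu.real {ω | (c' * B) ^ p.toReal ≤ nm p (D ω) ^ p.toReal} ≤ (c * B) ^ p.toReal :=
      (h2.trans h1).trans h3
    have h6 : mu.real {ω | (c' * B) ^ p.toReal ≤ nm p (D ω) ^ p.toReal} ≤ (c * B) ^ p.toReal / (c' * B) ^ p.toReal := by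
      rw [le_div_iff₀ hpos, mul_comm]; exact h5
    refine h6.trans ?_
    rw [← Real.div_rpow (by positivity) (by positivity), mul_div_mul_right _ _ hB.ne']
    have h7 : c / c' ≤ 1 := by rw [div_le_one hc']; exact hcc
    calc (c / c') ^ p.toReal ≤ (c / c') ^ (1 : ℝ) := by
          apply Real.rpow_le_rpow_of_exponent_ge' (by positivity) h7 (by norm_num) hs
      _ = c / c' := Real.rpow_one _
  have h8 : {ω | c' * B < nm p (D ω)} ⊆ {ω | (c' * B) ^ p.toReal ≤ nm p (D ω) ^ p.toReal} := by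
    intro ω hω
    have h9 : c' * B < nm p (D ω) := hω
    exact Real.rpow_le_rpow (by positivity) h9.le hs0.le
  refine (measure_mono h8).trans ?_
  rw [← ofReal_measureReal]
  exact ENNReal.ofReal_le_ofReal h4

end

/-! ### the random functions -/

/-- the mean of a term -/
noncomputable def mn (g : Polynomial ℂ) (r : ℝ) : C(T, ℂ) :=
  ((1 - r ^ 2 : ℝ) : ℂ) • polyT (g.comp (Polynomial.C ((r ^ 2 : ℝ) : ℂ) * Polynomial.X))

/-- a term -/
noncomputable def tm (g : Polynomial ℂ) (r : ℝ) (y : T) : C(T, ℂ) :=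
  (((1 - r ^ 2 : ℝ) : ℂ) * g.eval (pt r y)) • kr (pt r y)

theorem mn_apply (g : Polynomial ℂ) (r : ℝ) (t : T) : mn g r t = ((1 - r ^ 2 : ℝ) : ℂ) * g.eval ((r ^ 2 : ℝ) * fourier 1 t) := by
  rw [mn, ContinuousMap.smul_apply, polyT_apply, smul_eq_mul]
  simp

theorem tm_apply (g : Polynomial ℂ) (r : ℝ) (y t : T) : tm g r y t = xk g r t y := by
  rw [tm, ContinuousMap.smul_apply, smul_eq_mul, xk]

theorem tm_cont {r : ℝ} (h0 : 0 ≤ r) (h1 : r < 1) (g : Polynomial ℂ) : Continuous (tm g r) := by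
  apply ContinuousMap.continuous_of_continuous_uncurry
  have h2 : (Function.uncurry fun y t => tm g r y t) = fun q : T × T => xk g r q.2 q.1 := by
    funext q
    rw [Function.uncurry, tm_apply]
  rw [h2]
  have h4 : Continuous fun q : T × T => ((q.2, q.1) : T × T) := by fun_prop
  have h3 : Continuous fun q : T × T => (fun q : T × T => xk g r q.1 q.2) (q.2, q.1) := Continuous.comp (xk_cont h0 h1 g) h4
  exact h3

/-- partial sums -/
noncomputable def PS (g : Polynomial ℂ) (r : ℕ → ℝ) (i j : ℕ) (ω : Om) : C(T, ℂ) := ∑ k ∈ Ico i j, tm g (r k) (ω k)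

/-- centred partial sums -/
noncomputable def NN (g : Polynomial ℂ) (r : ℕ → ℝ) (i j : ℕ) (ω : Om) : C(T, ℂ) :=
  ∑ k ∈ Ico i j, (tm g (r k) (ω k) - mn g (r k))

theorem NN_apply (g : Polynomial ℂ) (r : ℕ → ℝ) (i j : ℕ) (ω : Om) (t : T) :
    NN g r i j ω t = SN (fun k => Yk g (r k) t) i j ω := by
  rw [NN, ContinuousMap.sum_apply, SN]
  refine sum_congr rfl fun k _ => ?_
  rw [ContinuousMap.sub_apply, tm_apply, mn_apply, Yk]

theorem PS_eq (g : Polynomial ℂ) (r : ℕ → ℝ) (i j : ℕ) (ω : Om) : PS g r i j ω = NN g r i j ω + ∑ k ∈ Ico i j, mn g (r k) := by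
  rw [PS, NN, ← sum_add_distrib]
  refine sum_congr rfl fun k _ => ?_
  abel

section

variable {r : ℕ → ℝ} (hr : ∀ k, 0 ≤ r k ∧ r k < 1) (g : Polynomial ℂ)
include hr

theorem PS_cont (i j : ℕ) : Continuous (PS g r i j) := by
  unfold PS
  exact continuous_finsetSum _ fun k _ => (tm_cont (hr k).1 (hr k).2 g).comp (continuous_apply k)

theorem NN_cont (i j : ℕ) : Continuous (NN g r i j) := by
  unfold NN
  exact continuous_finsetSum _ fun k _ => ((tm_cont (hr k).1 (hr k).2 g).comp (continuous_apply k)).sub continuous_const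

end

theorem NN_add (g : Polynomial ℂ) (r : ℕ → ℝ) {i j k : ℕ} (h1 : i ≤ j) (h2 : j ≤ k) (ω : Om) :
    NN g r i k ω = NN g r i j ω + NN g r j k ω := by
  rw [NN, NN, NN, sum_Ico_consecutive _ h1 h2]

theorem PS_loc (g : Polynomial ℂ) (r : ℕ → ℝ) {i j : ℕ} {ω ω' : Om} (h : ∀ k, i ≤ k → k < j → ω k = ω' k) :
    PS g r i j ω = PS g r i j ω' := by
  unfold PS
  refine sum_congr rfl fun k hk => ?_
  rw [mem_Ico] at hk
  rw [h k hk.1 hk.2]

theorem NN_loc (g : Polynomial ℂ) (r : ℕ → ℝ) {i j : ℕ} {ω ω' : Om} (h : ∀ k, i ≤ k → k < j → ω k = ω' k) :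
    NN g r i j ω = NN g r i j ω' := by
  unfold NN
  refine sum_congr rfl fun k hk => ?_
  rw [mem_Ico] at hk
  rw [h k hk.1 hk.2]

end Pool.Agent.H6.RK
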