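import Mathlib
import Pool.Agent.H6.RK.Nor

/-!
A block of random terms reduces the norm of a polynomial with a probability bounded from below.
-/

set_option autoImplicit false

namespace Pool.Agent.H6.RK

open MeasureTheory Filter Topology AddCircle ComplexConjugate Finset
open Pool.Agent.Y242.CK (kr kr_apply ez norm_ez nm nm_rpow nm_add nm_smul nm_sum nm_nonneg nm_le_sup one_le_toReal memLp_c)
open Pool.Agent.H155R3 (polyT polyT_apply)
open scoped ENNReal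

/-! ### constants -/

noncomputable def qq (n : ℕ) : ℝ := 1 - tt n / (16 * ((n : ℝ) + 1))
noncomputable def q1 (n : ℕ) : ℝ := (1 + qq n) / 2
noncomputable def dd (n : ℕ) : ℝ := (1 - qq n / q1 n) / 2
noncomputable def AA (n : ℕ) : ℝ := Real.exp (K2 n) * (2 / dd n)

theorem qq_lt (n : ℕ) : qq n < 1 := by
  unfold qq; have := tt_pos n
  have : 0 < tt n / (16 * ((n : ℝ) + 1)) := by positivity
  linarith

theorem qq_ge (n : ℕ) : 1 / 2 ≤ qq n := by
  unfold qq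
  have h1 := tt_le n
  have h2 := tt_pos n
  have h3 : tt n / (16 * ((n : ℝ) + 1)) ≤ tt n := by
    apply div_le_self h2.le
    have : (0 : ℝ) ≤ n := Nat.cast_nonneg n
    linarith
  linarith

theorem q1_lt (n : ℕ) : q1 n < 1 := by unfold q1; have := qq_lt n; linarith
theorem qq_lt_q1 (n : ℕ) : qq n < q1 n := by unfold q1; have := qq_lt n; linarith
theorem q1_pos (n : ℕ) : 0 < q1 n := by have := qq_lt_q1 n; have := qq_ge n; linarith

theorem dd_pos (n : ℕ) : 0 < dd n := by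
  unfold dd
  have h1 : qq n / q1 n < 1 := by rw [div_lt_one (q1_pos n)]; exact qq_lt_q1 n
  linarith

theorem dd_lt (n : ℕ) : dd n < 1 := by
  unfold dd
  have h1 : 0 ≤ qq n / q1 n := div_nonneg (by have := qq_ge n; linarith) (q1_pos n).le
  linarith

theorem AA_ge (n : ℕ) : 1 ≤ AA n := by
  unfold AA
  have h1 : 1 ≤ Real.exp (K2 n) := Real.one_le_exp (K2_pos n).le
  have h2 : 1 ≤ 2 / dd n := by
    rw [le_div_iff₀ (dd_pos n)]; have := dd_lt n; linarith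
  nlinarith

theorem qq_pow (n : ℕ) : 1 - tt n / 8 ≤ qq n ^ (2 * (n + 1)) := by
  have h := one_add_mul_le_pow (a := -(tt n / (16 * ((n : ℝ) + 1)))) (by
    have := tt_le n
    have h2 := tt_pos n
    have h3 : tt n / (16 * ((n : ℝ) + 1)) ≤ tt n := by
      apply div_le_self h2.le
      have : (0 : ℝ) ≤ n := Nat.cast_nonneg n
      linarith
    linarith) (2 * (n + 1))
  have e : 1 + ((2 * (n + 1) : ℕ) : ℝ) * -(tt n / (16 * ((n : ℝ) + 1))) = 1 - tt n / 8 := by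
    push_cast
    have : (n : ℝ) + 1 ≠ 0 := by positivity
    field_simp
    ring
  rw [e] at h
  unfold qq
  rw [sub_eq_add_neg]
  exact h

/-! ### the comparison function -/

/-- `|g| + ε` on the circle -/
noncomputable def Hc (g : Polynomial ℂ) (ε : ℝ) : C(T, ℂ) :=
  ⟨fun t => ((‖g.eval (fourier 1 t : ℂ)‖ + ε : ℝ) : ℂ),
    Complex.continuous_ofReal.comp ((g.continuous.comp (fourier 1).continuous).norm.add continuous_const)⟩

theorem Hc_norm (g : Polynomial ℂ) {ε : ℝ} (hε : 0 ≤ ε) (t : T) : ‖Hc g ε t‖ = ‖g.eval (fourier 1 t : ℂ)‖ + ε := by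
  show ‖((‖g.eval (fourier 1 t : ℂ)‖ + ε : ℝ) : ℂ)‖ = _
  rw [Complex.norm_real, Real.norm_eq_abs, abs_of_nonneg (by positivity)]

section

variable {p : ℝ≥0∞} [hp : Fact (1 ≤ p)]

theorem nm_congr (hpt : p ≠ ∞) {F G : C(T, ℂ)} (h : ∀ t, ‖F t‖ = ‖G t‖) : nm p F = nm p G := by
  have hs := one_le_toReal (p := p) hpt
  have h1 : nm p F ^ p.toReal = nm p G ^ p.toReal := by
    rw [nm_rpow hpt, nm_rpow hpt]
    simp_rw [h]
  exact (Real.rpow_left_inj (nm_nonneg p F) (nm_nonneg p G) (by linarith)).1 h1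

theorem Hc_nm (hpt : p ≠ ∞) (g : Polynomial ℂ) {ε : ℝ} (hε : 0 ≤ ε) : nm p (Hc g ε) ≤ nm p (polyT g) + ε := by
  obtain ⟨F, hF⟩ : ∃ F : C(T, ℂ), F = Hc g 0 := ⟨_, rfl⟩
  obtain ⟨E, hE⟩ : ∃ E : C(T, ℂ), E = ContinuousMap.const T ((ε : ℝ) : ℂ) := ⟨_, rfl⟩
  have e : Hc g ε = F + E := by
    ext t
    rw [ContinuousMap.add_apply, hF, hE]
    show ((‖g.eval (fourier 1 t : ℂ)‖ + ε : ℝ) : ℂ) = ((‖g.eval (fourier 1 t : ℂ)‖ + 0 : ℝ) : ℂ) + ((ε : ℝ) : ℂ)
    push_cast; ring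
  rw [e]
  refine (nm_add p _ _).trans (add_le_add (le_of_eq ?_) ?_)
  · apply nm_congr hpt
    intro t
    rw [hF, Hc_norm g le_rfl, add_zero, polyT_apply]
  · apply nm_le_sup
    intro t
    rw [hE, ContinuousMap.const_apply, Complex.norm_real, Real.norm_eq_abs, abs_of_nonneg hε]

end

/-- far enough for the polynomial `g` with the Lipschitz constant `L` -/
def Far (r : ℕ → ℝ) (L ε : ℝ) (i : ℕ) : Prop := ∀ k, i ≤ k → (1 - r k ^ 2) * L ≤ ε / 4 ∧ (1 - r k ^ 2) * L ^ 2 ≤ ε ^ 2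

theorem exists_far {r : ℕ → ℝ} (hr1 : Tendsto r atTop (𝓝 1)) (L : ℝ) {ε : ℝ} (hε : 0 < ε) : ∃ i, Far r L ε i := by
  have h1 : Tendsto (fun k => (1 - r k ^ 2) * L) atTop (𝓝 ((1 - 1 ^ 2) * L)) := ((tendsto_const_nhds.sub (hr1.pow 2)).mul_const L)
  have h2 : Tendsto (fun k => (1 - r k ^ 2) * L ^ 2) atTop (𝓝 ((1 - 1 ^ 2) * L ^ 2)) := ((tendsto_const_nhds.sub (hr1.pow 2)).mul_const _)
  rw [one_pow, sub_self, zero_mul] at h1 h2
  obtain ⟨i, hi⟩ := eventually_atTop.1 (((tendsto_order.1 h1).2 (ε / 4) (by positivity)).and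
    ((tendsto_order.1 h2).2 (ε ^ 2) (by positivity)))
  exact ⟨i, fun k hk => ⟨(hi k hk).1.le, (hi k hk).2.le⟩⟩

theorem Far.mono {r : ℕ → ℝ} {L ε : ℝ} {i j : ℕ} (h : Far r L ε i) (hij : i ≤ j) : Far r L ε j := fun k hk => h k (hij.trans hk)

section

variable {r : ℕ → ℝ} (hr : ∀ k, 0 ≤ r k ∧ r k < 1) {g : Polynomial ℂ} {L : ℝ}
  (hL : ∀ u v : ℂ, ‖u‖ ≤ 1 → ‖v‖ ≤ 1 → ‖g.eval u - g.eval v‖ ≤ L * ‖u - v‖) {ε : ℝ} (hε : 0 < ε)

include hr hL hε

theorem far_cen {i : ℕ} (hi : Far r L ε i) (j : ℕ) (t : T) :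
    Cen (fun k => Yk g (r k) t) (fun k => 1 - r k ^ 2) (‖g.eval (fourier 1 t : ℂ)‖ + ε) i j :=
  cen_block hr hL hε.le (fun k hk => ⟨(hi k hk).1.trans (by linarith), (hi k hk).2⟩) j t

theorem mn_near {i k : ℕ} (hi : Far r L ε i) (hk : i ≤ k) (t : T) :
    ‖mn g (r k) t - ((1 - r k ^ 2 : ℝ) : ℂ) * g.eval (fourier 1 t : ℂ)‖ ≤ (1 - r k ^ 2) * (ε / 4) := by
  obtain ⟨h0, h1⟩ := hr k
  have hw : 0 ≤ 1 - r k ^ 2 := by nlinarith
  rw [mn_apply, ← mul_sub, norm_mul, Complex.norm_real, Real.norm_eq_abs, abs_of_nonneg hw]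
  apply mul_le_mul_of_nonneg_left _ hw
  refine le_trans ?_ (hi k hk).1
  have hn : ‖((r k ^ 2 : ℝ) : ℂ) * fourier 1 t‖ ≤ 1 := by
    rw [norm_mul, nrm_fourier, mul_one, Complex.norm_real, Real.norm_eq_abs, abs_of_nonneg (by positivity)]
    nlinarith
  refine (hL _ _ hn (by rw [nrm_fourier])).trans (le_of_eq ?_)
  have e : ((r k ^ 2 : ℝ) : ℂ) * fourier 1 t - fourier 1 t = (((r k ^ 2 - 1 : ℝ)) : ℂ) * fourier 1 t := by push_cast; ring
  rw [e, norm_mul, nrm_fourier, mul_one, Complex.norm_real, Real.norm_eq_abs, abs_of_nonpos (by linarith)]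
  ring

/-- the remainder after a block, at a point -/
theorem rem_point {K M : ℕ} (hK : Far r L ε K) (hs1 : 1 / 2 ≤ ∑ k ∈ Ico K M, (1 - r k ^ 2))
    (hs2 : ∑ k ∈ Ico K M, (1 - r k ^ 2) ≤ 1) (n : ℕ) (t : T) :
    ∫ ω, ‖(polyT g - (tt n : ℂ) • PS g r K M ω) t‖ ^ (2 * (n + 1)) ∂mu ≤ (qq n * ‖Hc g ε t‖) ^ (2 * (n + 1)) := by
  obtain ⟨x, hx⟩ : ∃ x : ℂ, x = g.eval (fourier 1 t : ℂ) := ⟨_, rfl⟩
  obtain ⟨S, hS⟩ : ∃ S : ℝ, S = ∑ k ∈ Ico K M, (1 - r k ^ 2) := ⟨_, rfl⟩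
  obtain ⟨m, hm⟩ : ∃ m : ℂ, m = ∑ k ∈ Ico K M, mn g (r k) t := ⟨_, rfl⟩
  have ht0 := tt_pos n
  have ht1 := tt_le n
  have e1 : ∀ ω, (polyT g - (tt n : ℂ) • PS g r K M ω) t
      = (x - (tt n : ℂ) * m) - (tt n : ℂ) * SN (fun k => Yk g (r k) t) K M ω := by
    intro ω
    rw [ContinuousMap.sub_apply, ContinuousMap.smul_apply, PS_eq, ContinuousMap.add_apply, NN_apply, ContinuousMap.sum_apply,
      polyT_apply, smul_eq_mul, ← hx, ← hm]
    ring
  simp_rw [e1]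
  have hcen := far_cen hr hL hε hK M t
  rw [← hx] at hcen
  have hxn := norm_nonneg x
  have ha : ‖x - (tt n : ℂ) * m‖ ≤ (1 - tt n / 4) * (‖x‖ + ε) := by
    have h1 : ‖m - (S : ℂ) * x‖ ≤ S * (ε / 4) := by
      have e2 : m - (S : ℂ) * x = ∑ k ∈ Ico K M, (mn g (r k) t - ((1 - r k ^ 2 : ℝ) : ℂ) * x) := by
        rw [sum_sub_distrib, ← sum_mul, ← hm, hS]
        push_cast
        ring
      rw [e2, hS, sum_mul]
      refine (norm_sum_le _ _).trans (sum_le_sum fun k hk => ?_)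
      rw [hx]
      exact mn_near hr hL hε hK (mem_Ico.1 hk).1 t
    have e3 : x - (tt n : ℂ) * m = (((1 - tt n * S : ℝ)) : ℂ) * x - (tt n : ℂ) * (m - (S : ℂ) * x) := by push_cast; ring
    rw [e3]
    refine (norm_sub_le _ _).trans ?_
    rw [← hS] at hs1 hs2
    rw [norm_mul, norm_mul, Complex.norm_real, Complex.norm_real, Real.norm_eq_abs, Real.norm_eq_abs, abs_of_pos ht0,
      abs_of_nonneg (by nlinarith : 0 ≤ 1 - tt n * S)]
    have h2 := mul_le_mul_of_nonneg_left h1 ht0.le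
    have h3 : tt n * (S * (ε / 4)) ≤ tt n * (ε / 4) := by
      apply mul_le_mul_of_nonneg_left _ ht0.le
      nlinarith
    have h4 : (1 - tt n * S) * ‖x‖ ≤ (1 - tt n / 2) * ‖x‖ := by
      apply mul_le_mul_of_nonneg_right _ hxn
      nlinarith
    nlinarith
  have h5 := resid hcen hs2 n ha
  have hG0 : 0 ≤ ‖x‖ + ε := by positivity
  rw [Hc_norm g hε.le, ← hx, mul_pow]
  exact h5.trans (mul_le_mul_of_nonneg_right (qq_pow n) (by positivity))

/-- the fluctuations, at a point -/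
theorem fluct_point {i j K M : ℕ} (hK : Far r L ε K) (hi : K ≤ i) (hj : j ≤ M)
    (hs2 : ∑ k ∈ Ico K M, (1 - r k ^ 2) ≤ 1) (n : ℕ) (t : T) :
    ∫ ω, ‖NN g r i j ω t‖ ^ (2 * (n + 1)) ∂mu ≤ (Real.exp (K2 n) * ‖Hc g ε t‖) ^ (2 * (n + 1)) := by
  simp_rw [NN_apply]
  have hcen := (far_cen hr hL hε hK M t).mono hi hj
  have h1 := mom hcen n
  have hw : ∀ k, 0 ≤ 1 - r k ^ 2 := fun k => by have := hr k; nlinarith
  have h2 : ∑ k ∈ Ico i j, (1 - r k ^ 2) ≤ 1 :=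
    (sum_le_sum_of_subset_of_nonneg (Ico_subset_Ico hi hj) fun k _ _ => hw k).trans hs2
  rw [Hc_norm g hε.le]
  set G := ‖g.eval (fourier 1 t : ℂ)‖ + ε with hG
  have hG0 : 0 ≤ G ^ (2 * (n + 1)) := by positivity
  have h3 : Real.exp (K2 n * ∑ k ∈ Ico i j, (1 - r k ^ 2)) ≤ Real.exp (K2 n) := by
    apply Real.exp_le_exp.2
    have := K2_pos n
    nlinarith
  have h4 : Real.exp (K2 n) ≤ Real.exp (K2 n) ^ (2 * (n + 1)) := by
    apply le_self_pow₀ (Real.one_le_exp (K2_pos n).le) (by omega)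
  rw [mul_pow]
  have h5 := mul_le_mul_of_nonneg_right (h3.trans h4) hG0
  linarith

end

section

variable {p : ℝ≥0∞} [hp : Fact (1 ≤ p)]

theorem nm_mono (hpt : p ≠ ∞) {F G : C(T, ℂ)} {c : ℝ} (hc : 0 ≤ c) (h : ∀ t, ‖F t‖ ≤ c * ‖G t‖) : nm p F ≤ c * nm p G := by
  have hs := one_le_toReal (p := p) hpt
  have hs0 : 0 < p.toReal := by linarith
  have h1 : nm p F ^ p.toReal ≤ (c * nm p G) ^ p.toReal := by
    rw [Real.mul_rpow hc (nm_nonneg p G), nm_rpow hpt, nm_rpow hpt, ← integral_const_mul]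
    have hGc : Continuous fun t => c ^ p.toReal * ‖G t‖ ^ p.toReal :=
      continuous_const.mul (G.continuous.norm.rpow_const fun t => Or.inr hs0.le)
    refine integral_mono_of_nonneg (Eventually.of_forall fun t => Real.rpow_nonneg (norm_nonneg _) _) (int_compact hGc)
      (Eventually.of_forall fun t => ?_)
    simp only
    rw [← Real.mul_rpow hc (norm_nonneg _)]
    exact Real.rpow_le_rpow (norm_nonneg _) (h t) hs0.le
  exact (Real.rpow_le_rpow_iff (nm_nonneg p F) (mul_nonneg hc (nm_nonneg p G)) hs0).1 h1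

theorem nm_cont' : Continuous (nm p) := by
  unfold nm
  exact (ContinuousMap.toLp p haarAddCircle ℂ).continuous.norm

theorem nm_sub_le (F G : C(T, ℂ)) : nm p (F - G) ≤ nm p F + nm p G := by
  rw [nm, map_sub]; exact norm_sub_le _ _

theorem tPS_cont {r : ℕ → ℝ} (hr : ∀ k, 0 ≤ r k ∧ r k < 1) (g : Polynomial ℂ) (c : ℂ) (i j : ℕ) :
    Continuous fun ω => c • PS g r i j ω := by
  have h := PS_cont hr g i j
  have h2 : Continuous fun ω => c • (PS g r i j) ω := Continuous.smul (f := fun _ : Om => c) continuous_const h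
  exact h2

/-- the event that the block `[K, M)` is good -/
def Ev (p : ℝ≥0∞) [Fact (1 ≤ p)] (n : ℕ) (g : Polynomial ℂ) (r : ℕ → ℝ) (H : ℝ) (K M : ℕ) : Set Om :=
  {ω | nm p (polyT g - (tt n : ℂ) • PS g r K M ω) ≤ q1 n * H ∧
    ∀ j ∈ Icc K M, nm p ((tt n : ℂ) • PS g r K j ω) ≤ (2 * AA n + 1) * H}

theorem Ev_meas {n : ℕ} {g : Polynomial ℂ} {r : ℕ → ℝ} (hr : ∀ k, 0 ≤ r k ∧ r k < 1) (H : ℝ) (K M : ℕ) :
    MeasurableSet (Ev p n g r H K M) := by
  have e : Ev p n g r H K M = {ω | nm p (polyT g - (tt n : ℂ) • PS g r K M ω) ≤ q1 n * H} ∩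
      ⋂ j ∈ Icc K M, {ω | nm p ((tt n : ℂ) • PS g r K j ω) ≤ (2 * AA n + 1) * H} := by
    ext ω
    simp only [Ev, Set.mem_ofPred_eq, Set.mem_inter_iff, Set.mem_iInter]
  rw [e]
  have hc : ∀ j, Continuous fun ω => (tt n : ℂ) • PS g r K j ω := fun j => tPS_cont hr g _ K j
  refine MeasurableSet.inter ?_ (Finset.measurableSet_biInter _ fun j _ => ?_)
  · exact measurableSet_le ((nm_cont' (p := p)).comp (continuous_const.sub (hc M))).measurable measurable_const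
  · exact measurableSet_le ((nm_cont' (p := p)).comp (hc j)).measurable measurable_const

theorem Ev_loc {n : ℕ} {g : Polynomial ℂ} {r : ℕ → ℝ} {H : ℝ} {K M : ℕ} {ω ω' : Om} (h : ∀ k, K ≤ k → k < M → ω k = ω' k)
    (hω : ω ∈ Ev p n g r H K M) : ω' ∈ Ev p n g r H K M := by
  obtain ⟨h1, h2⟩ := hω
  refine ⟨?_, fun j hj => ?_⟩
  · rw [← PS_loc g r h]; exact h1
  · have h3 := h2 j hj
    rw [Finset.mem_Icc] at hj
    rw [← PS_loc g r fun k hk hk' => h k hk (by omega)]; exact h3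

/-- the probability that a block is good -/
theorem Ev_prob (hpt : p ≠ ∞) {n : ℕ} (hpn : p ≤ ((2 * (n + 1) : ℕ) : ℝ≥0∞)) {r : ℕ → ℝ} (hr : ∀ k, 0 ≤ r k ∧ r k < 1)
    {g : Polynomial ℂ} {L : ℝ} (hL : ∀ u v : ℂ, ‖u‖ ≤ 1 → ‖v‖ ≤ 1 → ‖g.eval u - g.eval v‖ ≤ L * ‖u - v‖) {ε : ℝ}
    (hε : 0 < ε) {K M : ℕ} (hK : Far r L ε K) (hs1 : 1 / 2 ≤ ∑ k ∈ Ico K M, (1 - r k ^ 2))
    (hs2 : ∑ k ∈ Ico K M, (1 - r k ^ 2) ≤ 1) :
    mu (Ev p n g r (nm p (polyT g) + ε) K M)ᶜ ≤ 1 - ENNReal.ofReal (dd n) := by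
  obtain ⟨H, hH⟩ : ∃ H : ℝ, H = nm p (polyT g) + ε := ⟨_, rfl⟩
  have hH0 : 0 < H := by rw [hH]; have := nm_nonneg p (polyT g); linarith
  have hHc : nm p (Hc g ε) ≤ H := by rw [hH]; exact Hc_nm hpt g hε.le
  rw [← hH]
  have hw : ∀ k, 0 ≤ 1 - r k ^ 2 := fun k => by have := hr k; nlinarith
  have hA := AA_ge n
  have hdd := dd_pos n
  have hdd1 := dd_lt n
  have ht0 := tt_pos n
  have ht1 := tt_le n
  -- the remainder
  have P1 : mu {ω | q1 n * H < nm p (polyT g - (tt n : ℂ) • PS g r K M ω)} ≤ ENNReal.ofReal (qq n / q1 n) := by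
    refine markov hpt hpn (D := fun ω => polyT g - (tt n : ℂ) • PS g r K M ω)
      (continuous_const.sub (tPS_cont hr g _ K M)) (H := Hc g ε) (by have := qq_ge n; linarith)
      (qq_lt_q1 n).le (q1_pos n) hH0 hHc (fun t => rem_point hr hL hε hK hs1 hs2 n t)
  -- the fluctuations
  have P2' : ∀ i j, K ≤ i → j ≤ M → mu {ω | AA n * H < nm p (NN g r i j ω)} ≤ ENNReal.ofReal (dd n / 2) := by
    intro i j hi hj
    have h1 := markov hpt hpn (D := NN g r i j) (NN_cont hr g i j) (H := Hc g ε) (c := Real.exp (K2 n)) (c' := AA n)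
      (Real.exp_pos _).le (by
        unfold AA
        have : 1 ≤ 2 / dd n := by rw [le_div_iff₀ hdd]; linarith
        have := Real.exp_pos (K2 n)
        nlinarith) (by linarith) hH0 hHc (fun t => fluct_point hr hL hε hK hi hj hs2 n t)
    refine h1.trans (le_of_eq ?_)
    congr 1
    unfold AA
    have := Real.exp_pos (K2 n)
    field_simp
  have P2 : mu {ω | ∃ j, K ≤ j ∧ j ≤ M ∧ 2 * (AA n * H) < nm p (NN g r K j ω)} ≤ ENNReal.ofReal (dd n) := by
    have h1 := ottaviani (f := fun i j ω => nm p (NN g r i j ω)) (fun i j => ((nm_cont' (p := p)).comp (NN_cont hr g i j)).measurable)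
      (fun i j ω ω' h => by rw [NN_loc g r h]) (fun i j k ω hij hjk => by
        have e : NN g r i j ω = NN g r i k ω - NN g r j k ω := by rw [NN_add g r hij hjk]; abel
        rw [e]; exact nm_sub_le _ _) (K := K) (M := M) (b := AA n * H) (fun j hj hjM => by
        have h2 := P2' j M hj le_rfl
        have h3 : {ω | nm p (NN g r j M ω) ≤ AA n * H}ᶜ = {ω | AA n * H < nm p (NN g r j M ω)} := by
          ext ω; simp
        have hm : MeasurableSet {ω | nm p (NN g r j M ω) ≤ AA n * H} :=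
          measurableSet_le ((nm_cont' (p := p)).comp (NN_cont hr g j M)).measurable measurable_const
        have h4 := prob_compl_eq_one_sub (μ := mu) hm
        have h5 : mu {ω | nm p (NN g r j M ω) ≤ AA n * H} = 1 - mu {ω | AA n * H < nm p (NN g r j M ω)} := by
          rw [← h3, h4, ENNReal.sub_sub_cancel (by norm_num) prob_le_one]
        rw [h5]
        have h6 : ENNReal.ofReal (dd n / 2) ≤ 1 / 2 := by
          have : (1 / 2 : ℝ≥0∞) = ENNReal.ofReal (1 / 2) := by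
            rw [ENNReal.ofReal_div_of_pos (by norm_num)]; simp
          rw [this]
          exact ENNReal.ofReal_le_ofReal (by linarith)
        have h7 : (1 : ℝ≥0∞) - 1 / 2 = 1 / 2 := by
          rw [one_div]; exact ENNReal.one_sub_inv_two
        rw [← h7]
        exact tsub_le_tsub_left (h2.trans h6) 1)
    refine h1.trans ?_
    have h8 := P2' K M le_rfl le_rfl
    calc 2 * mu {ω | AA n * H < nm p (NN g r K M ω)} ≤ 2 * ENNReal.ofReal (dd n / 2) := by gcongr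
      _ = ENNReal.ofReal (dd n) := by
        rw [← ENNReal.ofReal_ofNat, ← ENNReal.ofReal_mul (by norm_num)]
        congr 1; ring
  -- the complement
  have hsub : (Ev p n g r H K M)ᶜ ⊆ {ω | q1 n * H < nm p (polyT g - (tt n : ℂ) • PS g r K M ω)} ∪
      {ω | ∃ j, K ≤ j ∧ j ≤ M ∧ 2 * (AA n * H) < nm p (NN g r K j ω)} := by
    intro ω hω
    by_contra hcon
    rw [Set.mem_union, not_or] at hcon
    obtain ⟨h1, h2⟩ := hcon
    apply hω
    refine ⟨not_lt.1 h1, fun j hj => ?_⟩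
    rw [Finset.mem_Icc] at hj
    have h3 : nm p (NN g r K j ω) ≤ 2 * (AA n * H) := by
      by_contra h4
      exact h2 ⟨j, hj.1, hj.2, not_le.1 h4⟩
    rw [nm_smul, Complex.norm_real, Real.norm_eq_abs, abs_of_pos ht0, PS_eq]
    have h5 := nm_add p (NN g r K j ω) (∑ k ∈ Ico K j, mn g (r k))
    have h6 : nm p (∑ k ∈ Ico K j, mn g (r k)) ≤ H := by
      refine (nm_sum p _ _).trans ?_
      have h7 : ∀ k ∈ Ico K j, nm p (mn g (r k)) ≤ (1 - r k ^ 2) * H := by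
        intro k hk
        refine (nm_mono hpt (hw k) (G := Hc g ε) fun t => ?_).trans (mul_le_mul_of_nonneg_left hHc (hw k))
        rw [Hc_norm g hε.le]
        have h8 := mn_near hr hL hε hK (mem_Ico.1 hk).1 t
        have h9 := norm_sub_norm_le (mn g (r k) t) (((1 - r k ^ 2 : ℝ) : ℂ) * g.eval (fourier 1 t : ℂ))
        rw [norm_mul, Complex.norm_real, Real.norm_eq_abs, abs_of_nonneg (hw k)] at h9
        nlinarith [hw k]
      refine (sum_le_sum h7).trans ?_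
      rw [← sum_mul]
      have h10 : ∑ k ∈ Ico K j, (1 - r k ^ 2) ≤ 1 :=
        (sum_le_sum_of_subset_of_nonneg (Ico_subset_Ico le_rfl hj.2) fun k _ _ => hw k).trans hs2
      nlinarith
    have h11 : nm p (NN g r K j ω + ∑ k ∈ Ico K j, mn g (r k)) ≤ (2 * AA n + 1) * H := by linarith
    have h12 := nm_nonneg p (NN g r K j ω + ∑ k ∈ Ico K j, mn g (r k))
    nlinarith
  refine (measure_mono hsub).trans ((measure_union_le _ _).trans ((add_le_add P1 P2).trans (le_of_eq ?_)))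
  rw [← ENNReal.ofReal_add (div_nonneg (by have := qq_ge n; linarith) (q1_pos n).le) hdd.le, ← ENNReal.ofReal_one,
    ← ENNReal.ofReal_sub _ hdd.le]
  congr 1
  unfold dd; ring

end

end Pool.Agent.H6.RK
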