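import Mathlib
import Pool.Agent.H6.RK.Blk

/-!
Almost all sequences of points are representing in `H^p`.
-/

set_option autoImplicit false

namespace Pool.Agent.H6.RK

open MeasureTheory Filter Topology AddCircle ComplexConjugate Finset
open Pool.Agent.Y242.CK (kr kr_apply nm nm_nonneg nm_smul lk lk_mem sum_lk nm_sum_lk iter isRepP zs)
open Pool.Agent.H155R3 (polyT polyT_apply muT Van Van_approx Phi Phi_apply PolyC)
open Pool.Agent.Results.MP_459ac8_an.ZeroDensity (IsRepresenting)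
open scoped ENNReal

/-- blocks of total weight about one -/
theorem exists_block {w : ℕ → ℝ} (h0 : ∀ k, 0 ≤ w k) (hd : ¬ Summable w) {K : ℕ} (hK : ∀ k, K ≤ k → w k ≤ 1 / 2) :
    ∃ M, K < M ∧ 1 / 2 ≤ ∑ k ∈ Ico K M, w k ∧ ∑ k ∈ Ico K M, w k ≤ 1 := by
  classical
  have hex : ∃ n, 1 / 2 ≤ ∑ k ∈ range n, w (K + k) := by
    by_contra hcon
    push Not at hcon
    apply hd
    have h1 : Summable fun k => w (K + k) := summable_of_sum_range_le (fun k => h0 _) fun n => (hcon n).le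
    have h2 : Summable fun k => w (k + K) := by simpa [add_comm] using h1
    exact (summable_nat_add_iff K).1 h2
  set n := Nat.find hex with hn
  have hn1 := Nat.find_spec hex
  rw [← hn] at hn1
  have hn0 : n ≠ 0 := by
    intro h
    rw [h, range_zero, sum_empty] at hn1
    norm_num at hn1
  have hn2 := Nat.find_min hex (m := n - 1) (by omega)
  rw [not_le] at hn2
  have e : ∀ m, ∑ k ∈ Ico K (K + m), w k = ∑ k ∈ range m, w (K + k) := fun m => by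
    rw [sum_Ico_eq_sum_range, Nat.add_sub_cancel_left]
  refine ⟨K + n, by omega, by rw [e]; exact hn1, ?_⟩
  rw [e]
  obtain ⟨m, hm⟩ : ∃ m, n = m + 1 := ⟨n - 1, by omega⟩
  rw [hm, sum_range_succ]
  rw [hm, Nat.add_sub_cancel] at hn2
  have := hK (K + m) (by omega)
  linarith

section

variable {p : ℝ≥0∞} [hp : Fact (1 ≤ p)] {r : ℕ → ℝ}

theorem ae_good (hpt : p ≠ ∞) {n : ℕ} (hpn : p ≤ ((2 * (n + 1) : ℕ) : ℝ≥0∞)) (hr : ∀ k, 0 ≤ r k ∧ r k < 1)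
    (hr1 : Tendsto r atTop (𝓝 1)) (hd : ¬ Summable fun k => 1 - r k ^ 2) (g : Polynomial ℂ) {ε : ℝ} (hε : 0 < ε) (m₀ : ℕ) :
    ∀ᵐ ω ∂mu, ∃ K M, m₀ ≤ K ∧ K < M ∧ ω ∈ Ev p n g r (nm p (polyT g) + ε) K M := by
  obtain ⟨L, _, hL⟩ := lip g
  obtain ⟨i, hi⟩ := exists_far hr1 L hε
  have hw : ∀ k, 0 ≤ 1 - r k ^ 2 := fun k => by have := hr k; nlinarith
  obtain ⟨i2, hi2⟩ : ∃ i2, ∀ k, i2 ≤ k → 1 - r k ^ 2 ≤ 1 / 2 := by
    have h1 : Tendsto (fun k => 1 - r k ^ 2) atTop (𝓝 (1 - 1 ^ 2)) := tendsto_const_nhds.sub (hr1.pow 2)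
    rw [one_pow, sub_self] at h1
    obtain ⟨i2, h⟩ := eventually_atTop.1 ((tendsto_order.1 h1).2 (1 / 2) (by norm_num))
    exact ⟨i2, fun k hk => (h k hk).le⟩
  obtain ⟨K0, hK0⟩ : ∃ K0, K0 = max m₀ (max i i2) := ⟨_, rfl⟩
  have hex : ∀ K, ∃ M, K < M ∧ (K0 ≤ K → 1 / 2 ≤ ∑ k ∈ Ico K M, (1 - r k ^ 2) ∧ ∑ k ∈ Ico K M, (1 - r k ^ 2) ≤ 1) := by
    intro K
    by_cases h : K0 ≤ K
    · obtain ⟨M, h1, h2⟩ := exists_block hw hd (K := K) fun k hk => hi2 k (by omega)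
      exact ⟨M, h1, fun _ => h2⟩
    · exact ⟨K + 1, Nat.lt_succ_self K, fun h2 => absurd h2 h⟩
  choose nxt hn1 hn2 using hex
  obtain ⟨Kb, hKb⟩ : ∃ Kb : ℕ → ℕ, Kb = fun m => nxt^[m] K0 := ⟨_, rfl⟩
  have hKs : ∀ m, Kb (m + 1) = nxt (Kb m) := fun m => by
    rw [hKb]; exact Function.iterate_succ_apply' nxt m K0
  have hmono : StrictMono Kb := strictMono_nat_of_lt_succ fun m => by rw [hKs]; exact hn1 _
  have hge : ∀ m, K0 ≤ Kb m := fun m => by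
    have h1 : Kb 0 = K0 := by rw [hKb]; rfl
    rw [← h1]; exact hmono.monotone (Nat.zero_le m)
  have h1 := some_event (Kb := Kb) hmono.monotone (G := fun m => Ev p n g r (nm p (polyT g) + ε) (Kb m) (Kb (m + 1)))
    (fun m => Ev_meas hr _ _ _) (fun m ω ω' h hω => Ev_loc h hω) (δ := ENNReal.ofReal (dd n))
    (ENNReal.ofReal_pos.2 (dd_pos n)) (fun m => by
      have h2 := hge m
      have h3 := hn2 (Kb m) h2
      rw [← hKs] at h3
      exact Ev_prob hpt hpn hr hL hε (hi.mono (by omega)) h3.1 h3.2)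
  filter_upwards [h1] with ω hω
  obtain ⟨m, hm⟩ := hω
  have := hge m
  exact ⟨Kb m, Kb (m + 1), by omega, hmono (Nat.lt_succ_self m), hm⟩

variable (p) in
/-- there are good blocks for all the polynomials `G i` -/
def Good (n : ℕ) (r : ℕ → ℝ) (G : ℕ → Polynomial ℂ) (ω : Om) : Prop :=
  ∀ (i : ℕ) (η : ℝ), 0 < η → ∀ m₀ : ℕ, ∃ K M, m₀ ≤ K ∧ K < M ∧ ω ∈ Ev p n (G i) r (nm p (polyT (G i)) + η) K M

theorem Ev_mono {n : ℕ} {g : Polynomial ℂ} {H H' : ℝ} (hH : H ≤ H') {K M : ℕ} : Ev p n g r H K M ⊆ Ev p n g r H' K M := by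
  rintro ω ⟨h1, h2⟩
  have hA := AA_ge n
  exact ⟨h1.trans (mul_le_mul_of_nonneg_left hH (q1_pos n).le), fun j hj => (h2 j hj).trans
    (mul_le_mul_of_nonneg_left hH (by linarith))⟩

theorem ae_Good (hpt : p ≠ ∞) {n : ℕ} (hpn : p ≤ ((2 * (n + 1) : ℕ) : ℝ≥0∞)) (hr : ∀ k, 0 ≤ r k ∧ r k < 1)
    (hr1 : Tendsto r atTop (𝓝 1)) (hd : ¬ Summable fun k => 1 - r k ^ 2) (G : ℕ → Polynomial ℂ) :
    ∀ᵐ ω ∂mu, Good p n r G ω := by
  have h : ∀ᵐ ω ∂mu, ∀ i j m₀ : ℕ, ∃ K M, m₀ ≤ K ∧ K < M ∧ ω ∈ Ev p n (G i) r (nm p (polyT (G i)) + 1 / ((j : ℝ) + 1)) K M :=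
    ae_all_iff.2 fun i => ae_all_iff.2 fun j => ae_all_iff.2 fun m₀ => ae_good hpt hpn hr hr1 hd (G i) (by positivity) m₀
  filter_upwards [h] with ω hω i η hη m₀
  obtain ⟨j, hj⟩ := exists_nat_one_div_lt hη
  obtain ⟨K, M, h1, h2, h3⟩ := hω i j m₀
  exact ⟨K, M, h1, h2, Ev_mono (by linarith) h3⟩

/-! ### all exponents at once -/

theorem nm_exp_le {p' : ℝ≥0∞} [Fact (1 ≤ p')] (hpp : p ≤ p') (F : C(T, ℂ)) : nm p F ≤ nm p' F := by
  rw [Pool.Agent.Y242.CK.nm_eLp, Pool.Agent.Y242.CK.nm_eLp]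
  refine ENNReal.toReal_mono (Pool.Agent.Y242.CK.memLp_c p' F).2.ne ?_
  exact eLpNorm_le_eLpNorm_of_exponent_le hpp (Pool.Agent.Y242.CK.memLp_c p' F).1

/-- the `L^p` norm is continuous from the right in `p` -/
theorem nm_right (hpt : p ≠ ∞) (F : C(T, ℂ)) {η : ℝ} (hη : 0 < η) : ∃ δ : ℝ, 0 < δ ∧ ∀ (p' : ℝ≥0∞) [Fact (1 ≤ p')],
    p' ≠ ∞ → p ≤ p' → p'.toReal ≤ p.toReal + δ → nm p' F ≤ nm p F + η := by
  obtain ⟨s, hs⟩ : ∃ s, s = p.toReal := ⟨_, rfl⟩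
  have hs1 : 1 ≤ s := by rw [hs]; exact Pool.Agent.Y242.CK.one_le_toReal hpt
  obtain ⟨N, hN⟩ : ∃ N, N = nm p F + η / 2 := ⟨_, rfl⟩
  have hN0 : 0 < N := by rw [hN]; have := nm_nonneg p F; positivity
  obtain ⟨B, hB⟩ : ∃ B : ℝ, B = ‖F‖ + 1 := ⟨_, rfl⟩
  have hB1 : 1 ≤ B := by rw [hB]; have := norm_nonneg F; linarith
  have hcont : Tendsto (fun x : ℝ => B ^ ((x - s) / x) * N ^ (s / x)) (𝓝 s) (𝓝 (B ^ ((s - s) / s) * N ^ (s / s))) := by
    have h1 : Tendsto (fun x : ℝ => (x - s) / x) (𝓝 s) (𝓝 ((s - s) / s)) :=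
      (tendsto_id.sub tendsto_const_nhds).div tendsto_id (by linarith)
    have h2 : Tendsto (fun x : ℝ => s / x) (𝓝 s) (𝓝 (s / s)) := tendsto_const_nhds.div tendsto_id (by linarith)
    exact (tendsto_const_nhds.rpow h1 (Or.inl (by linarith))).mul (tendsto_const_nhds.rpow h2 (Or.inl (by linarith)))
  rw [sub_self, zero_div, Real.rpow_zero, one_mul, div_self (by linarith), Real.rpow_one] at hcont
  obtain ⟨δ, hδ, hδ2⟩ := Metric.eventually_nhds_iff.1 ((tendsto_order.1 hcont).2 (N + η / 2) (by linarith))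
  refine ⟨δ / 2, by positivity, fun p' _ hp't hpp hle => ?_⟩
  have hs' : 1 ≤ p'.toReal := Pool.Agent.Y242.CK.one_le_toReal hp't
  have hss : s ≤ p'.toReal := by rw [hs]; exact ENNReal.toReal_mono hp't hpp
  obtain ⟨x, hx⟩ : ∃ x, x = p'.toReal := ⟨_, rfl⟩
  rw [← hx] at hs' hss hle
  rw [← hs] at hle
  have h3 := hδ2 (y := x) (by rw [Real.dist_eq, abs_of_nonneg (by linarith)]; linarith)
  have hx0 : 0 < x := by linarith
  have h4 : nm p' F ≤ B ^ ((x - s) / x) * N ^ (s / x) := by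
    have h5 : nm p' F ^ x ≤ (B ^ ((x - s) / x) * N ^ (s / x)) ^ x := by
      rw [Real.mul_rpow (by positivity) (by positivity), ← Real.rpow_mul (by linarith), ← Real.rpow_mul hN0.le,
        div_mul_cancel₀ _ hx0.ne', div_mul_cancel₀ _ hx0.ne', hx, Pool.Agent.Y242.CK.nm_rpow hp't, ← hx]
      have h6 : ∀ t, ‖F t‖ ^ x ≤ B ^ (x - s) * ‖F t‖ ^ s := by
        intro t
        have h7 : ‖F t‖ ≤ B := by rw [hB]; have := ContinuousMap.norm_coe_le_norm F t; linarith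
        rcases eq_or_lt_of_le (norm_nonneg (F t)) with h8 | h8
        · rw [← h8, Real.zero_rpow hx0.ne']; positivity
        · have e : x = (x - s) + s := by ring
          rw [show ‖F t‖ ^ x = ‖F t‖ ^ ((x - s) + s) by rw [← e], Real.rpow_add h8]
          apply mul_le_mul_of_nonneg_right _ (by positivity)
          exact Real.rpow_le_rpow h8.le h7 (by linarith)
      have hc : Continuous fun t => B ^ (x - s) * ‖F t‖ ^ s :=
        continuous_const.mul (F.continuous.norm.rpow_const fun t => Or.inr (by linarith))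
      have h9 : ∫ t, ‖F t‖ ^ x ∂nu ≤ ∫ t, B ^ (x - s) * ‖F t‖ ^ s ∂nu :=
        integral_mono_of_nonneg (Eventually.of_forall fun t => Real.rpow_nonneg (norm_nonneg _) _) (int_compact hc)
          (Eventually.of_forall h6)
      rw [integral_const_mul] at h9
      refine h9.trans (mul_le_mul_of_nonneg_left ?_ (by positivity))
      have h10 := Pool.Agent.Y242.CK.nm_rpow hpt F
      rw [← hs] at h10
      rw [← h10]
      exact Real.rpow_le_rpow (nm_nonneg p F) (by rw [hN]; linarith) (by linarith)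
    exact (Real.rpow_le_rpow_iff (nm_nonneg p' F) (by positivity) hx0).1 h5
  have h11 : nm p' F < N + η / 2 := h4.trans_lt h3
  rw [hN] at h11
  linarith

/-- countably many exponents -/
noncomputable def PP (x : ℚ) : ℝ≥0∞ := ENNReal.ofReal (max 1 (x : ℝ))

instance (x : ℚ) : Fact (1 ≤ PP x) := ⟨by
  unfold PP
  rw [← ENNReal.ofReal_one]
  exact ENNReal.ofReal_le_ofReal (le_max_left _ _)⟩

theorem PP_ne (x : ℚ) : PP x ≠ ∞ := ENNReal.ofReal_ne_top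

theorem Good_of {n : ℕ} (hpt : p ≠ ∞) (hpn : p < ((2 * (n + 1) : ℕ) : ℝ≥0∞)) {G : ℕ → Polynomial ℂ} {ω : Om}
    (h : ∀ x : ℚ, PP x ≤ ((2 * (n + 1) : ℕ) : ℝ≥0∞) → Good (PP x) n r G ω) : Good p n r G ω := by
  intro i η hη m₀
  obtain ⟨δ, hδ, hδ2⟩ := nm_right hpt (polyT (G i)) (show 0 < η / 2 by positivity)
  have hs1 : 1 ≤ p.toReal := Pool.Agent.Y242.CK.one_le_toReal hpt
  have hsn : p.toReal < ((2 * (n + 1) : ℕ) : ℝ) := by
    have := (ENNReal.toReal_lt_toReal hpt (ENNReal.natCast_ne_top _)).2 hpn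
    rwa [ENNReal.toReal_natCast] at this
  obtain ⟨x, hx1, hx2⟩ := exists_rat_btwn (show p.toReal < min (p.toReal + δ) ((2 * (n + 1) : ℕ) : ℝ) from
    lt_min (by linarith) hsn)
  have hx3 := lt_min_iff.1 hx2
  have hPr : (PP x).toReal = x := by
    unfold PP
    rw [ENNReal.toReal_ofReal (by positivity), max_eq_right (by linarith)]
  have hle : p ≤ PP x := by
    rw [← ENNReal.toReal_le_toReal hpt (PP_ne x), hPr]; exact hx1.le
  have hPn : PP x ≤ ((2 * (n + 1) : ℕ) : ℝ≥0∞) := by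
    rw [← ENNReal.toReal_le_toReal (PP_ne x) (ENNReal.natCast_ne_top _), hPr, ENNReal.toReal_natCast]; exact hx3.2.le
  have hnm := hδ2 (PP x) (PP_ne x) hle (by rw [hPr]; exact hx3.1.le)
  obtain ⟨K, M, h1, h2, h3, h4⟩ := h x hPn i (η / 2) (by positivity) m₀
  have hA := AA_ge n
  refine ⟨K, M, h1, h2, (nm_exp_le hle _).trans (h3.trans ?_), fun j hj => (nm_exp_le hle _).trans ((h4 j hj).trans ?_)⟩
  · apply mul_le_mul_of_nonneg_left _ (q1_pos n).le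
    linarith
  · apply mul_le_mul_of_nonneg_left _ (by linarith)
    linarith

/-- one step of the expansion -/
theorem one_step {n : ℕ} {G : ℕ → Polynomial ℂ} (hG : ∀ (g : Polynomial ℂ) (η : ℝ), 0 < η → ∃ i, ‖polyT (G i) - polyT g‖ ≤ η)
    {ω : Om} (hω : Good p n r G ω) (f : Lp ℂ p muT) (hf : f ∈ Van p) (m₀ : ℕ) :
    ∃ m₁, m₀ < m₁ ∧ ∃ c : ℕ → ℂ,
      ‖f - ∑ m ∈ Ico m₀ m₁, c m • lk p (pt (r m) (ω m))‖ ≤ (1 + q1 n) / 2 * ‖f‖ ∧
      ∀ t, m₀ ≤ t → t ≤ m₁ → ‖∑ m ∈ Ico m₀ t, c m • lk p (pt (r m) (ω m))‖ ≤ (2 * (2 * AA n + 1)) * ‖f‖ := by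
  rcases eq_or_ne f 0 with hf0 | hf0
  · refine ⟨m₀ + 1, Nat.lt_succ_self _, fun _ => 0, ?_, ?_⟩ <;> simp [hf0]
  obtain ⟨F, hF⟩ : ∃ F : ℝ, F = ‖f‖ := ⟨_, rfl⟩
  have hFp : 0 < F := by rw [hF]; exact norm_pos_iff.2 hf0
  obtain ⟨q, hq⟩ : ∃ q : ℝ, q = q1 n := ⟨_, rfl⟩
  have hq1 : q < 1 := hq ▸ q1_lt n
  have hq0 : 0 < q := hq ▸ q1_pos n
  have hA := AA_ge n
  obtain ⟨κ, hκ⟩ : ∃ κ : ℝ, κ = (1 - q) / 8 := ⟨_, rfl⟩
  have hκ0 : 0 < κ := by rw [hκ]; linarith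
  have hκ1 : κ ≤ 1 / 8 := by rw [hκ]; linarith
  obtain ⟨g', hg'⟩ := Van_approx p f hf (κ * F / 2) (by positivity)
  obtain ⟨i, hi⟩ := hG g' (κ * F / 2) (by positivity)
  rw [Phi_apply] at hg'
  obtain ⟨g, hgdef⟩ : ∃ g, g = G i := ⟨_, rfl⟩
  rw [← hgdef] at hi
  have hg : ‖(ContinuousMap.toLp p muT ℂ (polyT g) : Lp ℂ p muT) - f‖ ≤ κ * F := by
    have e : (ContinuousMap.toLp p muT ℂ (polyT g) : Lp ℂ p muT) - f
        = ContinuousMap.toLp p muT ℂ (polyT g - polyT g') + ((ContinuousMap.toLp p muT ℂ (polyT g') : Lp ℂ p muT) - f) := by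
      rw [map_sub]; abel
    rw [e]
    refine (norm_add_le _ _).trans ?_
    have h1 : ‖(ContinuousMap.toLp p muT ℂ (polyT g - polyT g') : Lp ℂ p muT)‖ ≤ κ * F / 2 := by
      have h2 : nm p (polyT g - polyT g') ≤ κ * F / 2 :=
        Pool.Agent.Y242.CK.nm_le_sup p fun t => (ContinuousMap.norm_coe_le_norm _ t).trans hi
      exact h2
    linarith
  obtain ⟨K, M, hK, hKM, h1, h2⟩ := hω i (κ * F) (by positivity) m₀
  rw [← hgdef] at h1 h2
  obtain ⟨H, hH⟩ : ∃ H : ℝ, H = nm p (polyT g) + κ * F := ⟨_, rfl⟩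
  rw [← hH] at h1 h2
  have hnmg : nm p (polyT g) ≤ (1 + κ) * F := by
    have h3 : nm p (polyT g) = ‖(ContinuousMap.toLp p muT ℂ (polyT g) : Lp ℂ p muT)‖ := rfl
    have h4 := norm_sub_norm_le (ContinuousMap.toLp p muT ℂ (polyT g) : Lp ℂ p muT) f
    rw [h3, ← hF] at *
    linarith
  have hHF : H ≤ (1 + 2 * κ) * F := by rw [hH]; nlinarith
  have hH0 : 0 < H := by rw [hH]; have := nm_nonneg p (polyT g); positivity
  obtain ⟨c, hc⟩ : ∃ c : ℕ → ℂ, c = fun m => if K ≤ m ∧ m < M then (tt n : ℂ) * (((1 - r m ^ 2 : ℝ) : ℂ) * g.eval (pt (r m) (ω m))) else 0 := ⟨_, rfl⟩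
  have hzero : ∀ t, t ≤ K → ∑ m ∈ Ico m₀ t, c m • kr (pt (r m) (ω m)) = 0 := by
    intro t ht
    refine sum_eq_zero fun m hm => ?_
    rw [hc]
    simp only
    rw [if_neg (by rw [mem_Ico] at hm; omega), zs]
  have hblock : ∀ t, K ≤ t → t ≤ M → ∑ m ∈ Ico m₀ t, c m • kr (pt (r m) (ω m)) = (tt n : ℂ) • PS g r K t ω := by
    intro t h3 h4
    rw [← sum_Ico_consecutive _ hK h3, hzero K le_rfl, zero_add]
    ext z
    rw [ContinuousMap.sum_apply, ContinuousMap.smul_apply, PS, ContinuousMap.sum_apply, smul_eq_mul, mul_sum]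
    refine sum_congr rfl fun m hm => ?_
    rw [mem_Ico] at hm
    rw [ContinuousMap.smul_apply, hc]
    simp only
    rw [if_pos ⟨hm.1, by omega⟩, tm, ContinuousMap.smul_apply, smul_eq_mul, smul_eq_mul]
    ring
  refine ⟨M, by omega, c, ?_, ?_⟩
  · rw [sum_lk, hblock M hKM.le le_rfl]
    have h3 : f - ContinuousMap.toLp p muT ℂ ((tt n : ℂ) • PS g r K M ω) =
        (f - ContinuousMap.toLp p muT ℂ (polyT g)) +
          ContinuousMap.toLp p muT ℂ (polyT g - (tt n : ℂ) • PS g r K M ω) := by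
      rw [map_sub]; abel
    rw [h3]
    refine (norm_add_le _ _).trans ?_
    rw [norm_sub_rev] at hg
    have h4 : ‖(ContinuousMap.toLp p muT ℂ (polyT g - (tt n : ℂ) • PS g r K M ω) : Lp ℂ p muT)‖ ≤ q1 n * H := h1
    rw [← hq] at h4 ⊢
    rw [← hF]
    have h5 : q * H ≤ q * ((1 + 2 * κ) * F) := mul_le_mul_of_nonneg_left hHF hq0.le
    have h6 : q * ((1 + 2 * κ) * F) ≤ (q + 2 * κ) * F := by nlinarith [mul_pos hκ0 hFp]
    have h7 : (q + 4 * κ) * F = (1 + q) / 2 * F := by rw [hκ]; ring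
    nlinarith [mul_pos hκ0 hFp]
  · intro t ht1 ht2
    rw [nm_sum_lk, ← hF]
    rcases le_or_gt t K with htK | htK
    · rw [hzero t htK]
      have h3 : nm p (0 : C(T, ℂ)) = 0 := by rw [nm, map_zero, norm_zero]
      rw [h3]; positivity
    · rw [hblock t htK.le ht2]
      refine (h2 t (by rw [Finset.mem_Icc]; exact ⟨htK.le, ht2⟩)).trans ?_
      have h3 : H ≤ 2 * F := by nlinarith
      have h4 : 0 ≤ 2 * AA n + 1 := by linarith
      nlinarith [mul_le_mul_of_nonneg_left h3 h4]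

/-- expansions in `H^p` -/
theorem expand {n : ℕ} {G : ℕ → Polynomial ℂ} (hG : ∀ (g : Polynomial ℂ) (η : ℝ), 0 < η → ∃ i, ‖polyT (G i) - polyT g‖ ≤ η)
    {ω : Om} (hω : Good p n r G ω) (f : Lp ℂ p muT) (hf : f ∈ Van p) :
    ∃ c : ℕ → ℂ, Tendsto (fun N => ∑ m ∈ range N, c m • lk p (pt (r m) (ω m))) atTop (𝓝 f) := by
  have hq1 := q1_lt n
  have hq0 := q1_pos n
  have hA := AA_ge n
  obtain ⟨c, hc⟩ := iter (F := ↥(Van p)) (fun m => (⟨lk p (pt (r m) (ω m)), lk_mem _⟩ : ↥(Van p)))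
    (q := (1 + q1 n) / 2) (C := 2 * (2 * AA n + 1)) (by linarith) (by linarith) (by linarith) (fun f m₀ => by
      obtain ⟨m₁, h1, c, h2, h3⟩ := one_step hG hω f.1 f.2 m₀
      refine ⟨m₁, h1, c, ?_, fun t ht1 ht2 => ?_⟩
      · have e1 : ‖f - ∑ m ∈ Ico m₀ m₁, c m • (⟨lk p (pt (r m) (ω m)), lk_mem _⟩ : ↥(Van p))‖ =
            ‖f.1 - ∑ m ∈ Ico m₀ m₁, c m • lk p (pt (r m) (ω m))‖ := by
          rw [Submodule.coe_norm, Submodule.coe_sub, Submodule.coe_sum]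
          rfl
        rw [e1]
        exact h2
      · have e1 : ‖∑ m ∈ Ico m₀ t, c m • (⟨lk p (pt (r m) (ω m)), lk_mem _⟩ : ↥(Van p))‖ =
            ‖∑ m ∈ Ico m₀ t, c m • lk p (pt (r m) (ω m))‖ := by
          rw [Submodule.coe_norm, Submodule.coe_sum]
          rfl
        rw [e1]
        exact h3 t ht1 ht2) ⟨f, hf⟩ 0
  refine ⟨c, ?_⟩
  have h1 := (continuous_subtype_val.tendsto (⟨f, hf⟩ : ↥(Van p))).comp hc
  refine h1.congr fun N => ?_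
  simp only [Function.comp_def]
  rw [Submodule.coe_sum, range_eq_Ico]
  rfl

end

/-- ALMOST ALL SEQUENCES OF POINTS ARE REPRESENTING -/
theorem rep_ae {r : ℕ → ℝ} (hr : ∀ k, 0 ≤ r k ∧ r k < 1) (hr1 : Tendsto r atTop (𝓝 1))
    (hd : ¬ Summable fun k => 1 - r k ^ 2) :
    ∀ᵐ ω ∂mu, ∀ p : ℝ≥0∞, 1 ≤ p → p ≠ ∞ → IsRepresenting p fun k => pt (r k) (ω k) := by
  let D : ℕ → PolyC := TopologicalSpace.denseSeq PolyC
  choose G hG using fun i => (D i).2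
  have hdense : ∀ (g : Polynomial ℂ) (η : ℝ), 0 < η → ∃ i, ‖polyT (G i) - polyT g‖ ≤ η := by
    intro g η hη
    have h1 := TopologicalSpace.denseRange_denseSeq PolyC
    obtain ⟨i, hi⟩ := h1.exists_dist_lt (⟨polyT g, g, rfl⟩ : PolyC) hη
    refine ⟨i, ?_⟩
    rw [dist_comm, Subtype.dist_eq, dist_eq_norm] at hi
    rw [hG i]
    exact hi.le
  have hall : ∀ᵐ ω ∂mu, ∀ (n : ℕ) (x : ℚ), PP x ≤ ((2 * (n + 1) : ℕ) : ℝ≥0∞) → Good (PP x) n r G ω := by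
    refine ae_all_iff.2 fun n => ae_all_iff.2 fun x => ?_
    by_cases h : PP x ≤ ((2 * (n + 1) : ℕ) : ℝ≥0∞)
    · filter_upwards [ae_Good (PP_ne x) h hr hr1 hd G] with ω hω _
      exact hω
    · exact Eventually.of_forall fun ω h2 => absurd h2 h
  filter_upwards [hall] with ω hω p hp hpt
  have : Fact (1 ≤ p) := ⟨hp⟩
  obtain ⟨n, hn⟩ := ENNReal.exists_nat_gt hpt
  have hpn : p < ((2 * (n + 1) : ℕ) : ℝ≥0∞) := by
    refine hn.trans_le ?_
    exact_mod_cast (by omega : n ≤ 2 * (n + 1))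
  exact isRepP hpt _ (fun k => by rw [norm_pt (hr k).1]; exact (hr k).2) fun f hf =>
    expand hdense (Good_of hpt hpn (hω n)) f hf

end Pool.Agent.H6.RK
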