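import Mathlib
import Pool.Agent.H6.RK.Vec

/-!
The mean energies in the random Kaczmarz algorithm.
-/

set_option autoImplicit false

namespace Pool.Agent.H6.RK

open MeasureTheory Filter Topology AddCircle ComplexConjugate Finset

/-! ### a recursion -/

theorem prod_small {q : ℕ → ℝ} (h0 : ∀ k, 0 ≤ q k) (h1 : ∀ k, q k ≤ 1) (hd : ¬ Summable q) (K : ℕ) :
    Tendsto (fun k => ∏ j ∈ Ico K k, (1 - q j) ^ 2) atTop (𝓝 0) := by
  have h2 := (not_summable_iff_tendsto_nat_atTop_of_nonneg h0).1 hd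
  have h3 : Tendsto (fun k => Real.exp (-(2 * (∑ j ∈ range k, q j - ∑ j ∈ range K, q j)))) atTop (𝓝 0) := by
    apply Real.tendsto_exp_neg_atTop_nhds_zero.comp
    apply Tendsto.const_mul_atTop (by norm_num)
    exact tendsto_atTop_add_const_right _ _ h2
  refine squeeze_zero' (Eventually.of_forall fun k => prod_nonneg fun j _ => sq_nonneg _) ?_ h3
  filter_upwards [eventually_ge_atTop K] with k hk
  rw [← sum_Ico_eq_sub _ hk, mul_sum, ← sum_neg_distrib, Real.exp_sum]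
  apply prod_le_prod (fun j _ => sq_nonneg _)
  intro j _
  have h4 : 1 - q j ≤ Real.exp (-q j) := by
    have := Real.add_one_le_exp (-q j); linarith
  calc (1 - q j) ^ 2 ≤ (Real.exp (-q j)) ^ 2 := pow_le_pow_left₀ (by linarith [h1 j]) h4 2
    _ = Real.exp (-(2 * q j)) := by rw [← Real.exp_nat_mul]; congr 1; push_cast; ring

theorem decay {P : ℕ → ℕ → ℝ} (h0 : ∀ k n, 0 ≤ P k n) (h1 : ∀ k, HasSum (P k) 1)
    (hdiv : ∀ n, ¬ Summable fun k => P k n) {φ : ℕ → ℕ → ℝ} {E U : ℕ → ℝ} (hφ0 : ∀ k n, 0 ≤ φ k n)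
    (hE : ∀ k, HasSum (φ k) (E k)) (hU : ∀ k, 0 ≤ U k) (hE' : ∀ k, E (k + 1) = E k - U k)
    (hφ : ∀ k n, φ (k + 1) n ≤ (1 - P k n) ^ 2 * φ k n + P k n * U k) : Tendsto E atTop (𝓝 0) := by
  have hP1 : ∀ k n, P k n ≤ 1 := fun k n => le_hasSum (h1 k) n fun m _ => h0 k m
  have hE0 : ∀ k, 0 ≤ E k := fun k => (hE k).nonneg (hφ0 k)
  have hanti : Antitone E := antitone_nat_of_succ_le fun k => by rw [hE']; linarith [hU k]
  obtain ⟨L, hL⟩ : ∃ L, Tendsto E atTop (𝓝 L) := ⟨_, tendsto_atTop_ciInf hanti ⟨0, by rintro _ ⟨k, rfl⟩; exact hE0 k⟩⟩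
  have hL0 : 0 ≤ L := ge_of_tendsto' hL hE0
  have hLE : ∀ k, L ≤ E k := fun k => hanti.le_of_tendsto hL k
  have hsum : ∀ K k, K ≤ k → ∑ j ∈ Ico K k, U j = E K - E k := by
    intro K k hk
    induction k, hk using Nat.le_induction with
    | base => simp
    | succ k hk ih => rw [sum_Ico_succ_top hk, ih, hE']; ring
  have hmain : ∀ ε : ℝ, 0 < ε → L ≤ ε := by
    intro ε hε
    obtain ⟨K, hK⟩ := ((tendsto_order.1 hL).2 (L + ε) (by linarith)).exists
    have h2 : ∀ k, K ≤ k → ∀ n, φ k n ≤ (∏ j ∈ Ico K k, (1 - P j n) ^ 2) * φ K n + ∑ j ∈ Ico K k, P j n * U j := by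
      intro k hk
      induction k, hk using Nat.le_induction with
      | base => intro n; simp
      | succ k hk ih =>
        intro n
        rw [prod_Ico_succ_top hk, sum_Ico_succ_top hk]
        have h3 := hφ k n
        have h4 := ih n
        have h5 : (1 - P k n) ^ 2 ≤ 1 := by nlinarith [h0 k n, hP1 k n]
        have h6 : 0 ≤ ∑ j ∈ Ico K k, P j n * U j := sum_nonneg fun j _ => mul_nonneg (h0 j n) (hU j)
        have h7 : (1 - P k n) ^ 2 * φ k n ≤ (1 - P k n) ^ 2 * ((∏ j ∈ Ico K k, (1 - P j n) ^ 2) * φ K n + ∑ j ∈ Ico K k, P j n * U j) :=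
          mul_le_mul_of_nonneg_left h4 (sq_nonneg _)
        nlinarith
    set g : ℕ → ℝ := fun k => ∑' n, (∏ j ∈ Ico K k, (1 - P j n) ^ 2) * φ K n with hg
    have hprod1 : ∀ k n, ∏ j ∈ Ico K k, (1 - P j n) ^ 2 ≤ 1 := fun k n =>
      prod_le_one (fun j _ => sq_nonneg _) fun j _ => by nlinarith [h0 j n, hP1 j n]
    have hprod0 : ∀ k n, 0 ≤ ∏ j ∈ Ico K k, (1 - P j n) ^ 2 := fun k n => prod_nonneg fun j _ => sq_nonneg _
    have hgs : ∀ k, Summable fun n => (∏ j ∈ Ico K k, (1 - P j n) ^ 2) * φ K n := fun k =>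
      Summable.of_nonneg_of_le (fun n => mul_nonneg (hprod0 k n) (hφ0 K n))
        (fun n => mul_le_of_le_one_left (hφ0 K n) (hprod1 k n)) (hE K).summable
    have hg0 : Tendsto g atTop (𝓝 0) := by
      have := tendsto_tsum_of_dominated_convergence (𝓕 := atTop) (f := fun k n => (∏ j ∈ Ico K k, (1 - P j n) ^ 2) * φ K n)
        (g := fun _ => (0 : ℝ)) (bound := φ K) (hE K).summable (fun n => by
          have := (prod_small (fun k => h0 k n) (fun k => hP1 k n) (hdiv n) K).mul_const (φ K n)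
          rwa [zero_mul] at this)
        (Eventually.of_forall fun k n => by
          rw [Real.norm_eq_abs, abs_of_nonneg (mul_nonneg (hprod0 k n) (hφ0 K n))]
          exact mul_le_of_le_one_left (hφ0 K n) (hprod1 k n))
      simpa using this
    have h8 : ∀ k, K ≤ k → E k ≤ g k + ε := by
      intro k hk
      have h9 : HasSum (fun n => (∏ j ∈ Ico K k, (1 - P j n) ^ 2) * φ K n + ∑ j ∈ Ico K k, P j n * U j)
          (g k + ∑ j ∈ Ico K k, 1 * U j) :=
        (hgs k).hasSum.add (hasSum_sum fun j _ => (h1 j).mul_right (U j))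
      have h10 := hasSum_le (h2 k hk) (hE k) h9
      simp only [one_mul] at h10
      rw [hsum K k hk] at h10
      have := hLE k
      linarith
    have h11 : Tendsto (fun k => g k + ε) atTop (𝓝 (0 + ε)) := hg0.add_const ε
    have := le_of_tendsto_of_tendsto hL h11 (by filter_upwards [eventually_ge_atTop K] with k hk using h8 k hk)
    linarith
  have : L = 0 := le_antisymm (le_of_forall_pos_le_add fun ε hε => by linarith [hmain ε hε]) hL0
  rwa [this] at hL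

/-! ### the algorithm -/

/-- the remainders of the Kaczmarz algorithm -/
noncomputable def kz (e : ℕ → H2) (f : H2) : ℕ → H2
  | 0 => f
  | k + 1 => stp (e k) (kz e f k)

theorem kz_zero (e : ℕ → H2) (f : H2) : kz e f 0 = f := rfl

theorem kz_succ (e : ℕ → H2) (f : H2) (k : ℕ) : kz e f (k + 1) = stp (e k) (kz e f k) := rfl

theorem kz_cont {P : ℕ → ℕ → ℝ} (h0 : ∀ k n, 0 ≤ P k n) (h1 : ∀ k, HasSum (P k) 1) (f : H2) (k : ℕ) :
    Continuous fun ω : Om => kz (fun k => vec (P k) (ω k)) f k := by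
  induction k with
  | zero => exact continuous_const
  | succ k ih => exact stp_cont ((vec_cont (h1 k) (h0 k)).comp (continuous_apply k)) ih

theorem kz_upd (P : ℕ → ℕ → ℝ) (f : H2) (k : ℕ) (ω : Om) (y : T) : ∀ j, j ≤ k →
    kz (fun i => vec (P i) (Function.update ω k y i)) f j = kz (fun i => vec (P i) (ω i)) f j := by
  intro j
  induction j with
  | zero => intro _; rfl
  | succ j ih =>
    intro hj
    rw [kz_succ, kz_succ, ih (by omega), Function.update_of_ne (by omega)]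

theorem kz_norm_succ {e : ℕ → H2} (he : ∀ k, ‖e k‖ = 1) (f : H2) (k : ℕ) :
    ‖kz e f (k + 1)‖ ^ 2 = ‖kz e f k‖ ^ 2 - ‖(inner ℂ (e k) (kz e f k) : ℂ)‖ ^ 2 := stp_norm (he k) _

theorem kz_anti {e : ℕ → H2} (he : ∀ k, ‖e k‖ = 1) (f : H2) : Antitone fun k => ‖kz e f k‖ := by
  apply antitone_nat_of_succ_le
  intro k
  have h := kz_norm_succ he f k
  have h1 : ‖kz e f (k + 1)‖ ^ 2 ≤ ‖kz e f k‖ ^ 2 := by rw [h]; linarith [sq_nonneg ‖(inner ℂ (e k) (kz e f k) : ℂ)‖]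
  exact (sq_le_sq₀ (norm_nonneg _) (norm_nonneg _)).1 h1

theorem kz_le {e : ℕ → H2} (he : ∀ k, ‖e k‖ = 1) (f : H2) (k : ℕ) : ‖kz e f k‖ ≤ ‖f‖ := by
  have h : ‖kz e f k‖ ≤ ‖kz e f 0‖ := kz_anti he f (Nat.zero_le k)
  rwa [kz_zero] at h

theorem stp_sub (e a b : H2) : stp e (a - b) = stp e a - stp e b := by
  unfold stp
  rw [inner_sub_right, sub_smul]
  abel

theorem kz_sub (e : ℕ → H2) (f g : H2) (k : ℕ) : kz e (f - g) k = kz e f k - kz e g k := by
  induction k with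
  | zero => rfl
  | succ k ih => rw [kz_succ, kz_succ, kz_succ, ih, stp_sub]

theorem kz_add (e : ℕ → H2) (f g : H2) (k : ℕ) : kz e (f + g) k = kz e f k + kz e g k := by
  induction k with
  | zero => rfl
  | succ k ih =>
    rw [kz_succ, kz_succ, kz_succ, ih]
    unfold stp
    rw [inner_add_right, add_smul]
    abel

theorem kz_smul (e : ℕ → H2) (c : ℂ) (f : H2) (k : ℕ) : kz e (c • f) k = c • kz e f k := by
  induction k with
  | zero => rfl
  | succ k ih =>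
    rw [kz_succ, kz_succ, ih]
    unfold stp
    rw [inner_smul_right, smul_sub, smul_smul]

/-- the vectors whose remainders tend to zero -/
def good (e : ℕ → H2) : Submodule ℂ H2 where
  carrier := {f | Tendsto (fun k => ‖kz e f k‖) atTop (𝓝 0)}
  zero_mem' := by
    have : ∀ k, ‖kz e 0 k‖ = 0 := by
      intro k
      have := kz_smul e 0 0 k
      rw [zero_smul, zero_smul] at this
      rw [this, norm_zero]
    simp only [Set.mem_ofPred_eq, this]
    exact tendsto_const_nhds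
  add_mem' := by
    intro f g hf hg
    rw [Set.mem_ofPred_eq] at *
    have h := hf.add hg
    rw [add_zero] at h
    refine squeeze_zero (fun k => norm_nonneg _) (fun k => ?_) h
    rw [kz_add]; exact norm_add_le _ _
  smul_mem' := by
    intro c f hf
    rw [Set.mem_ofPred_eq] at *
    have h := hf.const_mul ‖c‖
    rw [mul_zero] at h
    refine h.congr fun k => ?_
    rw [kz_smul, norm_smul]

theorem good_closed {e : ℕ → H2} (he : ∀ k, ‖e k‖ = 1) {f : H2} (hf : ∀ ε : ℝ, 0 < ε → ∃ g ∈ good e, ‖f - g‖ < ε) :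
    f ∈ good e := by
  show Tendsto (fun k => ‖kz e f k‖) atTop (𝓝 0)
  rw [Metric.tendsto_atTop]
  intro ε hε
  obtain ⟨g, hg, hfg⟩ := hf (ε / 2) (by positivity)
  have hg' : Tendsto (fun k => ‖kz e g k‖) atTop (𝓝 0) := hg
  obtain ⟨N, hN⟩ := (Metric.tendsto_atTop.1 hg') (ε / 2) (by positivity)
  refine ⟨N, fun k hk => ?_⟩
  have h1 := hN k hk
  rw [Real.dist_eq, sub_zero, abs_norm] at h1 ⊢
  have h2 : ‖kz e (f - g) k‖ ≤ ‖f - g‖ := by
    have h : ‖kz e (f - g) k‖ ≤ ‖kz e (f - g) 0‖ := by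
      refine antitone_nat_of_succ_le (f := fun k => ‖kz e (f - g) k‖) (fun j => ?_) (Nat.zero_le k)
      have h3 : ‖kz e (f - g) (j + 1)‖ ^ 2 = ‖kz e (f - g) j‖ ^ 2 - ‖(inner ℂ (e j) (kz e (f - g) j) : ℂ)‖ ^ 2 := stp_norm (he j) _
      have h4 : ‖kz e (f - g) (j + 1)‖ ^ 2 ≤ ‖kz e (f - g) j‖ ^ 2 := by
        rw [h3]; linarith [sq_nonneg ‖(inner ℂ (e j) (kz e (f - g) j) : ℂ)‖]
      exact (sq_le_sq₀ (norm_nonneg _) (norm_nonneg _)).1 h4
    rwa [kz_zero] at h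
  have h5 : kz e f k = kz e (f - g) k + kz e g k := by rw [← kz_add, sub_add_cancel]
  rw [h5]
  refine (norm_add_le _ _).trans_lt ?_
  linarith

theorem kz_sum (e : ℕ → H2) (f : H2) (N : ℕ) : f - kz e f N = ∑ k ∈ range N, (inner ℂ (e k) (kz e f k) : ℂ) • e k := by
  induction N with
  | zero => rw [kz_zero]; simp
  | succ N ih =>
    rw [sum_range_succ, ← ih, kz_succ, stp]
    abel

theorem coord_cont {X : Type*} [TopologicalSpace X] {a : X → H2} (ha : Continuous a) (n : ℕ) : Continuous fun x => a x n :=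
  ((continuous_apply n).comp (lp.uniformContinuous_coe (p := 2) (E := fun _ : ℕ => ℂ)).continuous).comp ha

theorem coord_le (a : H2) (n : ℕ) : ‖a n‖ ≤ ‖a‖ := lp.norm_apply_le_norm (by norm_num) a n

section
variable {P : ℕ → ℕ → ℝ} (h0 : ∀ k n, 0 ≤ P k n) (h1 : ∀ k, HasSum (P k) 1) (f : H2)
include h0 h1

/-- mean energies -/
theorem mean_hasSum (k : ℕ) : HasSum (fun n => ∫ ω : Om, ‖kz (fun i => vec (P i) (ω i)) f k n‖ ^ 2 ∂mu)
    (∫ ω : Om, ‖kz (fun i => vec (P i) (ω i)) f k‖ ^ 2 ∂mu) := by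
  have hc := kz_cont h0 h1 f k
  apply hasSum_integral_of_dominated_convergence (fun n ω => ‖kz (fun i => vec (P i) (ω i)) f k n‖ ^ 2)
  · intro n
    exact ((coord_cont hc n).norm.pow 2).aestronglyMeasurable
  · intro n
    exact Eventually.of_forall fun ω => by rw [Real.norm_eq_abs, abs_pow, abs_norm]
  · exact Eventually.of_forall fun ω => (hasSum_norm_sq _).summable
  · simp_rw [← norm_sq]
    exact integrable_cont (hc.norm.pow 2) (C := ‖f‖ ^ 2) fun ω => by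
      rw [Real.norm_eq_abs, abs_pow, abs_norm]
      exact pow_le_pow_left₀ (norm_nonneg _) (kz_le (fun k => vec_norm (h1 k) (h0 k) _) f k) 2
  · exact Eventually.of_forall fun ω => hasSum_norm_sq _

/-- mean energy lost in a step -/
theorem mean_lost (k : ℕ) : HasSum (fun n => P k n * ∫ ω : Om, ‖kz (fun i => vec (P i) (ω i)) f k n‖ ^ 2 ∂mu)
    (∫ ω : Om, (∑' n, P k n * ‖kz (fun i => vec (P i) (ω i)) f k n‖ ^ 2) ∂mu) := by
  have hc := kz_cont h0 h1 f k
  have hP1 : ∀ k n, P k n ≤ 1 := fun k n => le_hasSum (h1 k) n fun m _ => h0 k m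
  have hs : ∀ ω : Om, Summable fun n => P k n * ‖kz (fun i => vec (P i) (ω i)) f k n‖ ^ 2 := fun ω =>
    Summable.of_nonneg_of_le (fun n => mul_nonneg (h0 k n) (sq_nonneg _)) (fun n => mul_le_of_le_one_left (sq_nonneg _) (hP1 k n))
      (hasSum_norm_sq _).summable
  simp_rw [← integral_const_mul]
  have hb : ∀ (ω : Om) (n : ℕ), ‖kz (fun i => vec (P i) (ω i)) f k n‖ ^ 2 ≤ ‖f‖ ^ 2 := fun ω n =>
    pow_le_pow_left₀ (norm_nonneg _) ((coord_le _ n).trans (kz_le (fun k => vec_norm (h1 k) (h0 k) _) f k)) 2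
  apply hasSum_integral_of_dominated_convergence (fun n ω => P k n * ‖f‖ ^ 2)
  · intro n
    exact (((coord_cont hc n).norm.pow 2).const_mul _).aestronglyMeasurable
  · intro n
    refine Eventually.of_forall fun ω => ?_
    rw [Real.norm_eq_abs, abs_of_nonneg (mul_nonneg (h0 k n) (sq_nonneg _))]
    exact mul_le_mul_of_nonneg_left (hb ω n) (h0 k n)
  · exact Eventually.of_forall fun ω => (h1 k).summable.mul_right _
  · exact integrable_const _
  · exact Eventually.of_forall fun ω => (hs ω).hasSum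

theorem joint_cont (k : ℕ) : Continuous fun q : Om × T => stp (vec (P k) q.2) (kz (fun i => vec (P i) (q.1 i)) f k) :=
  stp_cont ((vec_cont (h1 k) (h0 k)).comp continuous_snd) ((kz_cont h0 h1 f k).comp continuous_fst)

/-- the mean energy of a coefficient after a step -/
theorem mean_coef (k n : ℕ) : ∫ ω : Om, ‖kz (fun i => vec (P i) (ω i)) f (k + 1) n‖ ^ 2 ∂mu
    = (1 - 2 * P k n) * (∫ ω : Om, ‖kz (fun i => vec (P i) (ω i)) f k n‖ ^ 2 ∂mu)
      + P k n * ∫ ω : Om, (∑' n, P k n * ‖kz (fun i => vec (P i) (ω i)) f k n‖ ^ 2) ∂mu := by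
  have hc := kz_cont h0 h1 f k
  have hv := fun k (x : T) => vec_norm (h1 k) (h0 k) x
  have h2 := split k (F := fun ω y => ‖stp (vec (P k) y) (kz (fun i => vec (P i) (ω i)) f k) n‖ ^ 2) (C := ‖f‖ ^ 2)
    ((coord_cont (joint_cont h0 h1 f k) n).norm.pow 2) (by
      intro ω y
      rw [abs_pow, abs_norm]
      refine pow_le_pow_left₀ (norm_nonneg _) ((coord_le _ n).trans ?_) 2
      have h3 := stp_norm (hv k y) (kz (fun i => vec (P i) (ω i)) f k)
      have h4 := kz_le (fun k => hv k _) f k (e := fun i => vec (P i) (ω i))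
      have h5 : ‖stp (vec (P k) y) (kz (fun i => vec (P i) (ω i)) f k)‖ ^ 2 ≤ ‖kz (fun i => vec (P i) (ω i)) f k‖ ^ 2 := by
        rw [h3]; linarith [sq_nonneg ‖(inner ℂ (vec (P k) y) (kz (fun i => vec (P i) (ω i)) f k) : ℂ)‖]
      exact ((sq_le_sq₀ (norm_nonneg _) (norm_nonneg _)).1 h5).trans h4)
    (by
      intro ω y z
      simp only
      rw [kz_upd P f k ω y k le_rfl])
  have h3 : ∀ ω : Om, ∫ y, ‖stp (vec (P k) y) (kz (fun i => vec (P i) (ω i)) f k) n‖ ^ 2 ∂nu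
      = (1 - 2 * P k n) * ‖kz (fun i => vec (P i) (ω i)) f k n‖ ^ 2 + P k n * ∑' m, P k m * ‖kz (fun i => vec (P i) (ω i)) f k m‖ ^ 2 := by
    intro ω
    rw [stp_coef (h1 k) (h0 k)]; ring
  simp_rw [h3] at h2
  have i1 : Integrable (fun ω : Om => ‖kz (fun i => vec (P i) (ω i)) f k n‖ ^ 2) mu :=
    integrable_cont ((coord_cont hc n).norm.pow 2) (C := ‖f‖ ^ 2) fun ω => by
      rw [Real.norm_eq_abs, abs_pow, abs_norm]
      exact pow_le_pow_left₀ (norm_nonneg _) ((coord_le _ n).trans (kz_le (fun k => hv k _) f k)) 2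
  have i2 : Integrable (fun ω : Om => ∑' m, P k m * ‖kz (fun i => vec (P i) (ω i)) f k m‖ ^ 2) mu := by
    have hb : ∀ (ω : Om) (m : ℕ), ‖P k m * ‖kz (fun i => vec (P i) (ω i)) f k m‖ ^ 2‖ ≤ P k m * ‖f‖ ^ 2 := fun ω m => by
      rw [Real.norm_eq_abs, abs_of_nonneg (mul_nonneg (h0 k m) (sq_nonneg _))]
      exact mul_le_mul_of_nonneg_left (pow_le_pow_left₀ (norm_nonneg _) ((coord_le _ m).trans (kz_le (fun k => hv k _) f k)) 2) (h0 k m)
    refine integrable_cont ?_ (C := ∑' m, P k m * ‖f‖ ^ 2) fun ω => ?_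
    · exact continuous_tsum (fun m => ((coord_cont hc m).norm.pow 2).const_mul _) ((h1 k).summable.mul_right _) fun m ω => hb ω m
    · exact tsum_of_norm_bounded ((h1 k).summable.mul_right _).hasSum (hb ω)
  rw [integral_add (i1.const_mul _) (i2.const_mul _), integral_const_mul, integral_const_mul] at h2
  exact h2

/-- the mean energy after a step -/
theorem mean_energy (k : ℕ) : ∫ ω : Om, ‖kz (fun i => vec (P i) (ω i)) f (k + 1)‖ ^ 2 ∂mu
    = ∫ ω : Om, ‖kz (fun i => vec (P i) (ω i)) f k‖ ^ 2 ∂mu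
      - ∫ ω : Om, (∑' n, P k n * ‖kz (fun i => vec (P i) (ω i)) f k n‖ ^ 2) ∂mu := by
  have h2 := mean_hasSum h0 h1 f (k + 1)
  simp_rw [mean_coef h0 h1 f k] at h2
  have h3 := mean_hasSum h0 h1 f k
  have h4 := mean_lost h0 h1 f k
  have h5 := (h3.sub (h4.mul_left 2)).add ((h1 k).mul_right (∫ ω : Om, (∑' n, P k n * ‖kz (fun i => vec (P i) (ω i)) f k n‖ ^ 2) ∂mu))
  have h6 := h2.unique (hs_congr (fun n => by ring) h5)
  rw [h6]; ring

/-- THE MEAN ENERGY TENDS TO ZERO -/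
theorem mean_tendsto (hdiv : ∀ n, ¬ Summable fun k => P k n) :
    Tendsto (fun k => ∫ ω : Om, ‖kz (fun i => vec (P i) (ω i)) f k‖ ^ 2 ∂mu) atTop (𝓝 0) := by
  refine decay h0 h1 hdiv (φ := fun k n => ∫ ω : Om, ‖kz (fun i => vec (P i) (ω i)) f k n‖ ^ 2 ∂mu)
    (U := fun k => ∫ ω : Om, (∑' n, P k n * ‖kz (fun i => vec (P i) (ω i)) f k n‖ ^ 2) ∂mu)
    (fun k n => integral_nonneg fun ω => sq_nonneg _) (mean_hasSum h0 h1 f)
    (fun k => integral_nonneg fun ω => tsum_nonneg fun n => mul_nonneg (h0 k n) (sq_nonneg _))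
    (mean_energy h0 h1 f) (fun k n => ?_)
  rw [mean_coef h0 h1 f k n]
  have h2 : 0 ≤ ∫ ω : Om, ‖kz (fun i => vec (P i) (ω i)) f k n‖ ^ 2 ∂mu := integral_nonneg fun ω => sq_nonneg _
  nlinarith [mul_nonneg (sq_nonneg (P k n)) h2]

/-- almost sure convergence for one vector -/
theorem ae_one (hdiv : ∀ n, ¬ Summable fun k => P k n) :
    ∀ᵐ ω : Om ∂mu, Tendsto (fun k => ‖kz (fun i => vec (P i) (ω i)) f k‖) atTop (𝓝 0) := by
  have hm := mean_tendsto h0 h1 f hdiv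
  have hv := fun k (x : T) => vec_norm (h1 k) (h0 k) x
  have hsmall : ∀ ε : ℝ, 0 < ε → ∀ᵐ ω : Om ∂mu, ∃ k, ‖kz (fun i => vec (P i) (ω i)) f k‖ ^ 2 < ε := by
    intro ε hε
    rw [ae_iff]
    push Not
    have h2 : ∀ k, mu {ω : Om | ∀ k, ε ≤ ‖kz (fun i => vec (P i) (ω i)) f k‖ ^ 2}
        ≤ ENNReal.ofReal ((∫ ω : Om, ‖kz (fun i => vec (P i) (ω i)) f k‖ ^ 2 ∂mu) / ε) := by
      intro k
      have i1 : Integrable (fun ω : Om => ‖kz (fun i => vec (P i) (ω i)) f k‖ ^ 2) mu :=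
        integrable_cont ((kz_cont h0 h1 f k).norm.pow 2) (C := ‖f‖ ^ 2) fun ω => by
          rw [Real.norm_eq_abs, abs_pow, abs_norm]
          exact pow_le_pow_left₀ (norm_nonneg _) (kz_le (fun k => hv k _) f k) 2
      have h3 := mul_meas_ge_le_integral_of_nonneg (Eventually.of_forall fun ω => sq_nonneg _) i1 ε
      have h4 : mu.real {ω : Om | ε ≤ ‖kz (fun i => vec (P i) (ω i)) f k‖ ^ 2}
          ≤ (∫ ω : Om, ‖kz (fun i => vec (P i) (ω i)) f k‖ ^ 2 ∂mu) / ε := by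
        rw [le_div_iff₀ hε, mul_comm]; exact h3
      have hsub : {ω : Om | ∀ k, ε ≤ ‖kz (fun i => vec (P i) (ω i)) f k‖ ^ 2}
          ⊆ {ω : Om | ε ≤ ‖kz (fun i => vec (P i) (ω i)) f k‖ ^ 2} := by
        intro ω hω
        rw [Set.mem_ofPred_eq] at hω ⊢
        exact hω k
      refine (measure_mono hsub).trans ?_
      rw [← ofReal_measureReal]
      exact ENNReal.ofReal_le_ofReal h4
    have h5 : Tendsto (fun k => ENNReal.ofReal ((∫ ω : Om, ‖kz (fun i => vec (P i) (ω i)) f k‖ ^ 2 ∂mu) / ε)) atTop (𝓝 0) := by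
      have := ENNReal.tendsto_ofReal (hm.div_const ε)
      simpa using this
    exact le_antisymm (ge_of_tendsto' h5 h2) bot_le
  have h6 : ∀ᵐ ω : Om ∂mu, ∀ m : ℕ, ∃ k, ‖kz (fun i => vec (P i) (ω i)) f k‖ ^ 2 < 1 / ((m : ℝ) + 1) :=
    ae_all_iff.2 fun m => hsmall _ (by positivity)
  filter_upwards [h6] with ω hω
  rw [Metric.tendsto_atTop]
  intro ε hε
  obtain ⟨m, hm⟩ := exists_nat_one_div_lt (show 0 < ε ^ 2 by positivity)
  obtain ⟨k, hk⟩ := hω m
  refine ⟨k, fun j hj => ?_⟩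
  rw [Real.dist_eq, sub_zero, abs_norm]
  have h7 : ‖kz (fun i => vec (P i) (ω i)) f j‖ ≤ ‖kz (fun i => vec (P i) (ω i)) f k‖ := kz_anti (fun k => hv k _) f hj
  have h8 : ‖kz (fun i => vec (P i) (ω i)) f j‖ ^ 2 < ε ^ 2 :=
    (pow_le_pow_left₀ (norm_nonneg _) h7 2).trans_lt (hk.trans hm)
  exact lt_of_pow_lt_pow_left₀ 2 hε.le h8

end

/-- RANDOM KACZMARZ -/
theorem ae_all {P : ℕ → ℕ → ℝ} (h0 : ∀ k n, 0 ≤ P k n) (h1 : ∀ k, HasSum (P k) 1) (hdiv : ∀ n, ¬ Summable fun k => P k n) :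
    ∀ᵐ ω : Om ∂mu, ∀ f : H2, Tendsto (fun k => ‖kz (fun i => vec (P i) (ω i)) f k‖) atTop (𝓝 0) := by
  have h2 : ∀ᵐ ω : Om ∂mu, ∀ n : ℕ, Tendsto (fun k => ‖kz (fun i => vec (P i) (ω i)) (lp.single 2 n (1 : ℂ)) k‖) atTop (𝓝 0) :=
    ae_all_iff.2 fun n => ae_one h0 h1 _ hdiv
  filter_upwards [h2] with ω hω f
  have hgood : ∀ n (c : ℂ), (lp.single 2 n c : H2) ∈ good (fun i => vec (P i) (ω i)) := by
    intro n c
    have e : (lp.single 2 n c : H2) = c • lp.single 2 n (1 : ℂ) := by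
      rw [← lp.single_smul, smul_eq_mul, mul_one]
    rw [e]
    exact Submodule.smul_mem _ _ (hω n)
  refine good_closed (fun k => vec_norm (h1 k) (h0 k) _) fun ε hε => ?_
  have h3 := lp.hasSum_single (p := 2) (by norm_num) f
  obtain ⟨s, hs⟩ := (Metric.tendsto_atTop.1 h3) ε hε
  refine ⟨∑ n ∈ s, lp.single 2 n (f n), Submodule.sum_mem _ fun n _ => hgood n _, ?_⟩
  have := hs s le_rfl
  rwa [dist_comm, dist_eq_norm] at this

end Pool.Agent.H6.RK
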