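import Mathlib
import Pool.Agent.H6.RK.Fin
import Pool.Agent.H6.RK.Rec

/-!
The Kaczmarz expansion of the functions of `H²` in Cauchy kernels at random points.
-/

set_option autoImplicit false

namespace Pool.Agent.H6.RK

open MeasureTheory Filter Topology AddCircle ComplexConjugate Finset
open Pool.Agent.Y242.CK (kv kv_apply J J_kv exists_J L2)
open Pool.Agent.H155R3 (DD cker cker_apply muT)
open Pool.Agent.Results.MP_459ac8_an.ZeroDensity (Circ cauchyKernel MemHardy IsRepresenting)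
open scoped ENNReal

/-- the remainders of the Kaczmarz expansion of `f` in the Cauchy kernels at the points `Λ 0, Λ 1, …` -/
noncomputable def kacRem (Λ : ℕ → ℂ) (f : Circ → ℂ) : ℕ → Circ → ℂ
  | 0 => f
  | k + 1 => fun t => kacRem Λ f k t - (((1 - ‖Λ k‖ ^ 2 : ℝ) : ℂ) *
      ∫ s, conj (cauchyKernel (Λ k) s) * kacRem Λ f k s ∂haarAddCircle) * cauchyKernel (Λ k) t

/-- the coefficients of the Kaczmarz expansion -/
noncomputable def kacCoef (Λ : ℕ → ℂ) (f : Circ → ℂ) (k : ℕ) : ℂ :=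
  ((1 - ‖Λ k‖ ^ 2 : ℝ) : ℂ) * ∫ s, conj (cauchyKernel (Λ k) s) * kacRem Λ f k s ∂haarAddCircle

theorem kacRem_eq (Λ : ℕ → ℂ) (f : Circ → ℂ) (N : ℕ) :
    (fun t => f t - ∑ k ∈ range N, kacCoef Λ f k * cauchyKernel (Λ k) t) = kacRem Λ f N := by
  induction N with
  | zero => funext t; simp [kacRem]
  | succ N ih =>
    funext t
    have h := congrFun ih t
    rw [sum_range_succ, ← sub_sub, h]
    rfl

/-- the coefficients of the random kernels -/
noncomputable def PK (r : ℕ → ℝ) (k n : ℕ) : ℝ := (1 - r k ^ 2) * (r k ^ 2) ^ n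

variable {r : ℕ → ℝ}

theorem PK_nonneg (hr : ∀ k, 0 ≤ r k ∧ r k < 1) (k n : ℕ) : 0 ≤ PK r k n := by
  unfold PK
  have := hr k
  have h : 0 ≤ 1 - r k ^ 2 := by nlinarith
  positivity

theorem PK_hasSum (hr : ∀ k, 0 ≤ r k ∧ r k < 1) (k : ℕ) : HasSum (PK r k) 1 := by
  unfold PK
  have h0 := hr k
  have h1 : r k ^ 2 < 1 := by nlinarith
  have h := (hasSum_geometric_of_lt_one (sq_nonneg (r k)) h1).mul_left (1 - r k ^ 2)
  rwa [mul_inv_cancel₀ (by nlinarith)] at h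

theorem PK_div (hr : ∀ k, 0 ≤ r k ∧ r k < 1) (hr1 : Tendsto r atTop (𝓝 1)) (hd : ¬ Summable fun k => 1 - r k ^ 2) (n : ℕ) :
    ¬ Summable fun k => PK r k n := by
  intro hs
  apply hd
  have h1 : Tendsto (fun k => (r k ^ 2) ^ n) atTop (𝓝 1) := by
    have := (hr1.pow 2).pow n
    simpa using this
  obtain ⟨K, hK⟩ := eventually_atTop.1 ((tendsto_order.1 h1).1 (1 / 2) (by norm_num))
  have h2 : Summable fun k => PK r (k + K) n := (summable_nat_add_iff K).2 hs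
  refine (summable_nat_add_iff K).1 ?_
  refine Summable.of_nonneg_of_le (fun k => ?_) (fun k => ?_) (h2.mul_left 2)
  · have := hr (k + K); nlinarith
  · have h3 := hK (k + K) (by omega)
    have h4 : 0 ≤ 1 - r (k + K) ^ 2 := by have := hr (k + K); nlinarith
    unfold PK
    nlinarith

theorem vec_eq_kv (hr : ∀ k, 0 ≤ r k ∧ r k < 1) (k : ℕ) (y : T) :
    vec (PK r k) y = ((√ (1 - r k ^ 2) : ℝ) : ℂ) • kv (pt (r k) y) := by
  have h0 := hr k
  ext n
  rw [vec_apply (PK_hasSum hr k) (PK_nonneg hr k), lp.coeFn_smul, Pi.smul_apply, smul_eq_mul,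
    kv_apply (by rw [norm_pt h0.1]; exact h0.2)]
  have e1 : √ (PK r k n) = √ (1 - r k ^ 2) * r k ^ n := by
    unfold PK
    rw [← pow_mul, mul_comm 2 n, pow_mul, Real.sqrt_mul (by nlinarith), Real.sqrt_sq (by have := h0.1; positivity)]
  have e2 : conj (pt (r k) y) ^ n = (r k : ℂ) ^ n * fourier (-(n : ℤ)) y := by
    unfold pt
    rw [map_mul, Complex.conj_ofReal, mul_pow, conj_fourier]
    congr 1
    rw [fourier_apply, fourier_apply, ← Circle.coe_pow, ← AddCircle.toCircle_nsmul]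
    congr 2
    rw [neg_smul, neg_smul, one_smul, natCast_zsmul, smul_neg]
  rw [e1, e2]
  push_cast
  ring

theorem J_kv_ae {ν : ℂ} (hν : ‖ν‖ < 1) : (J (kv ν) : Circ → ℂ) =ᵐ[haarAddCircle] cauchyKernel ν := by
  have h1 := J_kv ⟨ν, hν⟩
  simp only at h1
  rw [h1]
  filter_upwards [ContinuousMap.coeFn_toLp (p := 2) (𝕜 := ℂ) muT (cker ⟨ν, hν⟩)] with t ht
  rw [ht, cker_apply, cauchyKernel, one_div]

theorem inner_kv {ν : ℂ} (hν : ‖ν‖ < 1) (a : H2) {F : Circ → ℂ} (hF : (J a : Circ → ℂ) =ᵐ[haarAddCircle] F) :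
    (inner ℂ (kv ν) a : ℂ) = ∫ s, conj (cauchyKernel ν s) * F s ∂haarAddCircle := by
  have h1 : (inner ℂ (kv ν) a : ℂ) = inner ℂ (J (kv ν)) (J a) := (J.inner_map_map _ _).symm
  rw [h1, L2.inner_def]
  apply integral_congr_ae
  filter_upwards [J_kv_ae hν, hF] with s h2 h3
  rw [h2, h3, RCLike.inner_apply]
  ring

theorem kz_ae (hr : ∀ k, 0 ≤ r k ∧ r k < 1) (ω : Om) (x : H2) {f : Circ → ℂ} (hx : (J x : Circ → ℂ) =ᵐ[haarAddCircle] f) (k : ℕ) :
    (J (kz (fun i => vec (PK r i) (ω i)) x k) : Circ → ℂ) =ᵐ[haarAddCircle] kacRem (fun i => pt (r i) (ω i)) f k := by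
  induction k with
  | zero => exact hx
  | succ k ih =>
    have hk := hr k
    have hlt : ‖pt (r k) (ω k)‖ < 1 := by rw [norm_pt hk.1]; exact hk.2
    have e0 : ((√ (1 - r k ^ 2) : ℝ) : ℂ) * ((√ (1 - r k ^ 2) : ℝ) : ℂ) = ((1 - r k ^ 2 : ℝ) : ℂ) := by
      rw [← Complex.ofReal_mul, Real.mul_self_sqrt (by nlinarith)]
    have e1 : kz (fun i => vec (PK r i) (ω i)) x (k + 1) = kz (fun i => vec (PK r i) (ω i)) x k -
        (((1 - r k ^ 2 : ℝ) : ℂ) * inner ℂ (kv (pt (r k) (ω k))) (kz (fun i => vec (PK r i) (ω i)) x k)) • kv (pt (r k) (ω k)) := by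
      rw [kz_succ, stp, vec_eq_kv hr, inner_smul_left, Complex.conj_ofReal, smul_smul]
      congr 2
      rw [← e0]; ring
    rw [e1, map_sub, map_smul, inner_kv hlt _ ih]
    have h1 := Lp.coeFn_sub (J (kz (fun i => vec (PK r i) (ω i)) x k))
      ((((1 - r k ^ 2 : ℝ) : ℂ) * ∫ s, conj (cauchyKernel (pt (r k) (ω k)) s) *
        kacRem (fun i => pt (r i) (ω i)) f k s ∂haarAddCircle) • J (kv (pt (r k) (ω k))))
    have h2 := Lp.coeFn_smul (((1 - r k ^ 2 : ℝ) : ℂ) * ∫ s, conj (cauchyKernel (pt (r k) (ω k)) s) *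
        kacRem (fun i => pt (r i) (ω i)) f k s ∂haarAddCircle) (J (kv (pt (r k) (ω k))))
    filter_upwards [h1, h2, ih, J_kv_ae hlt] with t h3 h4 h5 h6
    rw [h3, Pi.sub_apply, h4, Pi.smul_apply, h5, h6, smul_eq_mul]
    simp only [kacRem]
    rw [norm_pt hk.1]

/-- RANDOM KACZMARZ EXPANSIONS IN `H²` -/
theorem kac_ae (hr : ∀ k, 0 ≤ r k ∧ r k < 1) (hr1 : Tendsto r atTop (𝓝 1)) (hd : ¬ Summable fun k => 1 - r k ^ 2) :
    ∀ᵐ ω ∂mu, ∀ f : Circ → ℂ, MemHardy 2 f →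
      Tendsto (fun N : ℕ => eLpNorm (fun t => f t - ∑ k ∈ range N,
        kacCoef (fun i => pt (r i) (ω i)) f k * cauchyKernel (pt (r k) (ω k)) t) 2 haarAddCircle) atTop (𝓝 0) ∧
      HasSum (fun k => ‖kacCoef (fun i => pt (r i) (ω i)) f k‖ ^ 2 / (1 - r k ^ 2)) ((eLpNorm f 2 haarAddCircle).toReal ^ 2) := by
  filter_upwards [ae_all (PK_nonneg hr) (PK_hasSum hr) (PK_div hr hr1 hd)] with ω hω f hf
  obtain ⟨hf1, hf2⟩ := hf
  obtain ⟨x, hx⟩ := exists_J (hf1.toLp f) (fun n hn => by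
    rw [fourierCoeff_congr_ae hf1.coeFn_toLp]
    exact hf2 n hn)
  have hx' : (J x : Circ → ℂ) =ᵐ[haarAddCircle] f := by rw [hx]; exact hf1.coeFn_toLp
  have hu : ∀ k, ‖vec (PK r k) (ω k)‖ = 1 := fun k => vec_norm (PK_hasSum hr k) (PK_nonneg hr k) _
  have hen : ∀ N, eLpNorm (kacRem (fun i => pt (r i) (ω i)) f N) 2 haarAddCircle
      = ENNReal.ofReal ‖kz (fun i => vec (PK r i) (ω i)) x N‖ := by
    intro N
    rw [← eLpNorm_congr_ae (kz_ae hr ω x hx' N), ← J.norm_map, Lp.norm_def, ENNReal.ofReal_toReal (Lp.eLpNorm_ne_top _)]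
  constructor
  · have h1 := ENNReal.tendsto_ofReal (hω x)
    rw [ENNReal.ofReal_zero] at h1
    refine h1.congr fun N => ?_
    rw [← hen]
    congr 1
    exact (kacRem_eq _ _ _).symm
  · have h0 : ∀ k, 0 < 1 - r k ^ 2 := fun k => by have := hr k; nlinarith
    have e1 : ∀ k, ‖kacCoef (fun i => pt (r i) (ω i)) f k‖ ^ 2 / (1 - r k ^ 2)
        = ‖kz (fun i => vec (PK r i) (ω i)) x k‖ ^ 2 - ‖kz (fun i => vec (PK r i) (ω i)) x (k + 1)‖ ^ 2 := by
      intro k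
      have hk := hr k
      have hlt : ‖pt (r k) (ω k)‖ < 1 := by rw [norm_pt hk.1]; exact hk.2
      rw [kz_norm_succ hu, kacCoef, ← inner_kv hlt _ (kz_ae hr ω x hx' k), vec_eq_kv hr, inner_smul_left, Complex.conj_ofReal,
        norm_mul, norm_mul, Complex.norm_real, Complex.norm_real, Real.norm_eq_abs, Real.norm_eq_abs, mul_pow, mul_pow, sq_abs, sq_abs,
        Real.sq_sqrt (h0 k).le, norm_pt hk.1]
      field_simp [(h0 k).ne']
      ring
    have e2 : (eLpNorm f 2 haarAddCircle).toReal ^ 2 = ‖x‖ ^ 2 := by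
      have := hen 0
      rw [kz_zero] at this
      have h3 : kacRem (fun i => pt (r i) (ω i)) f 0 = f := rfl
      rw [h3] at this
      rw [this, ENNReal.toReal_ofReal (norm_nonneg _)]
    rw [e2, hasSum_iff_tendsto_nat_of_nonneg (fun k => div_nonneg (sq_nonneg _) (h0 k).le)]
    have e3 : ∀ N, ∑ k ∈ range N, ‖kacCoef (fun i => pt (r i) (ω i)) f k‖ ^ 2 / (1 - r k ^ 2)
        = ‖x‖ ^ 2 - ‖kz (fun i => vec (PK r i) (ω i)) x N‖ ^ 2 := by
      intro N
      simp_rw [e1]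
      rw [sum_range_sub' (fun k => ‖kz (fun i => vec (PK r i) (ω i)) x k‖ ^ 2), kz_zero]
    simp_rw [e3]
    have h4 := tendsto_const_nhds (x := ‖x‖ ^ 2) |>.sub ((hω x).pow 2)
    simpa using h4

end Pool.Agent.H6.RK
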