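import Mathlib
import Pool.Agent.H6.RK.Kac

/-!
Moduli of upper density zero with divergent Blaschke sum; distinctness of random points.
-/

set_option autoImplicit false

namespace Pool.Agent.H6.RK

open MeasureTheory Filter Topology AddCircle ComplexConjugate Finset
open Pool.Agent.Results.MP_459ac8_an.ZeroDensity (Circ upperDensity)
open scoped ENNReal

/-- `m (⌊log₂ m⌋ + 1)` -/
noncomputable def DD2 (m : ℕ) : ℝ := (m : ℝ) * ((Nat.log 2 m : ℝ) + 1)

theorem DD2_lt {m n : ℕ} (h : m < n) : DD2 m < DD2 n := by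
  unfold DD2
  have h1 : (m : ℝ) < n := by exact_mod_cast h
  have h2 : (Nat.log 2 m : ℝ) ≤ Nat.log 2 n := by exact_mod_cast Nat.log_mono_right h.le
  have h3 : (0 : ℝ) ≤ Nat.log 2 m := Nat.cast_nonneg _
  have h4 : (0 : ℝ) ≤ m := Nat.cast_nonneg _
  nlinarith

theorem DD2_le {m n : ℕ} (h : m ≤ n) : DD2 m ≤ DD2 n := by
  rcases h.eq_or_lt with rfl | h
  · exact le_rfl
  · exact (DD2_lt h).le

theorem DD2_ge (k : ℕ) : (k : ℝ) + 2 ≤ DD2 (k + 2) := by
  unfold DD2
  have h3 : (0 : ℝ) ≤ Nat.log 2 (k + 2) := Nat.cast_nonneg _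
  push_cast
  nlinarith [(Nat.cast_nonneg k : (0 : ℝ) ≤ k)]

/-- the sparse moduli -/
noncomputable def sp (k : ℕ) : ℝ := 1 - 1 / DD2 (k + 2)

theorem DD2_pos (k : ℕ) : 0 < DD2 (k + 2) := by
  have := DD2_ge k
  have h : (0 : ℝ) ≤ k := Nat.cast_nonneg _
  linarith

theorem sp_mono : StrictMono sp := by
  intro a b hab
  unfold sp
  have h1 := DD2_lt (show a + 2 < b + 2 by omega)
  have h2 := one_div_lt_one_div_of_lt (DD2_pos a) h1
  linarith

theorem sp_pos (k : ℕ) : 0 < sp k ∧ sp k < 1 := by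
  unfold sp
  have h1 := DD2_ge k
  have h2 := DD2_pos k
  have h3 : (0 : ℝ) ≤ k := Nat.cast_nonneg _
  have h4 : 1 / DD2 (k + 2) < 1 := by
    rw [div_lt_one h2]; linarith
  have h5 : 0 < 1 / DD2 (k + 2) := by positivity
  constructor <;> linarith

theorem sp_tendsto : Tendsto sp atTop (𝓝 1) := by
  have h1 : Tendsto (fun k : ℕ => 1 / DD2 (k + 2)) atTop (𝓝 0) := by
    have h2 : Tendsto (fun k : ℕ => 1 / ((k : ℝ) + 1)) atTop (𝓝 0) := tendsto_one_div_add_atTop_nhds_zero_nat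
    refine squeeze_zero (fun k => by have := DD2_pos k; positivity) (fun k => ?_) h2
    have := DD2_ge k
    exact one_div_le_one_div_of_le (by positivity) (by linarith)
  have := tendsto_const_nhds (x := (1 : ℝ)) |>.sub h1
  rw [sub_zero] at this
  exact this

theorem sp_div : ¬ Summable fun k => 1 - sp k := by
  have e : (fun k => 1 - sp k) = fun k => 1 / DD2 (k + 2) := by
    funext k; unfold sp; ring
  rw [e]
  intro h
  have h1 : Summable fun m : ℕ => 1 / DD2 m := (summable_nat_add_iff (f := fun m : ℕ => 1 / DD2 m) 2).1 h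
  have h0 : ∀ m, 0 ≤ DD2 m := fun m => by unfold DD2; positivity
  have h2 := (summable_condensed_iff_of_nonneg (f := fun m : ℕ => 1 / DD2 m) (fun m => by have := h0 m; positivity)
    (fun m n hm hmn => by
      have h3 : 0 < DD2 m := by unfold DD2; positivity
      exact one_div_le_one_div_of_le h3 (DD2_le hmn))).2 h1
  have h4 : (fun k : ℕ => (2 : ℝ) ^ k * (1 / DD2 (2 ^ k))) = fun k : ℕ => 1 / ((k + 1 : ℕ) : ℝ) := by
    funext k
    unfold DD2
    rw [Nat.log_pow (by norm_num)]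
    push_cast
    have : (2 : ℝ) ^ k ≠ 0 := by positivity
    field_simp
  rw [h4] at h2
  exact Real.not_summable_one_div_natCast ((summable_nat_add_iff (f := fun m : ℕ => 1 / (m : ℝ)) 1).1 h2)

theorem sp_card {s : ℝ} (hs : s < 1) (L : ℕ) {Λ : ℕ → ℂ} (hΛ : ∀ k, ‖Λ k‖ = sp k) :
    ENNReal.ofReal (1 - s) * ((({n : ℕ | ‖Λ n‖ < s}.encard : ℕ∞)) : ℝ≥0∞) ≤
      ENNReal.ofReal ((1 - s) * 2 ^ L + 1 / ((L : ℝ) + 1)) := by
  have h1 : 0 < 1 - s := by linarith
  set x : ℝ := 1 / ((1 - s) * ((L : ℝ) + 1)) with hx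
  have hx0 : 0 ≤ x := by positivity
  have hsub : {n : ℕ | ‖Λ n‖ < s} ⊆ ((range (2 ^ L + ⌊x⌋₊) : Finset ℕ) : Set ℕ) := by
    intro k hk
    have hk : ‖Λ k‖ < s := hk
    rw [hΛ] at hk
    rw [Finset.mem_coe, Finset.mem_range]
    by_cases hkL : k < 2 ^ L
    · omega
    · have h2 : L ≤ Nat.log 2 (k + 2) := by
        apply Nat.le_log_of_pow_le (by norm_num)
        omega
      have h2' : (L : ℝ) ≤ Nat.log 2 (k + 2) := by exact_mod_cast h2
      have h3 : 1 - s < 1 / DD2 (k + 2) := by unfold sp at hk; linarith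
      have h4 : (1 - s) * DD2 (k + 2) < 1 := by
        rwa [lt_div_iff₀ (DD2_pos k)] at h3
      have h5 : ((k : ℝ) + 1) * ((L : ℝ) + 1) ≤ DD2 (k + 2) := by
        unfold DD2
        push_cast
        have := (Nat.cast_nonneg k : (0 : ℝ) ≤ k)
        have := (Nat.cast_nonneg L : (0 : ℝ) ≤ L)
        nlinarith
      have h6 : ((k + 1 : ℕ) : ℝ) ≤ x := by
        rw [hx, le_div_iff₀ (by positivity)]
        push_cast
        have := mul_le_mul_of_nonneg_left h5 h1.le
        nlinarith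
      have h7 : k + 1 ≤ ⌊x⌋₊ := Nat.le_floor h6
      exact Nat.lt_of_lt_of_le (Nat.lt_of_succ_le h7) (Nat.le_add_left _ _)
  have h8 : ({n : ℕ | ‖Λ n‖ < s}.encard : ℕ∞) ≤ ((2 ^ L + ⌊x⌋₊ : ℕ) : ℕ∞) := by
    refine (Set.encard_le_encard hsub).trans ?_
    rw [Set.encard_coe_eq_coe_finsetCard, card_range]
  have h9 : ((({n : ℕ | ‖Λ n‖ < s}.encard : ℕ∞)) : ℝ≥0∞) ≤ ((2 ^ L + ⌊x⌋₊ : ℕ) : ℝ≥0∞) := by
    have := (ENat.toENNReal_le (m := ({n : ℕ | ‖Λ n‖ < s}.encard : ℕ∞)) (n := ((2 ^ L + ⌊x⌋₊ : ℕ) : ℕ∞))).2 h8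
    simpa using this
  refine (mul_le_mul_right h9 _).trans ?_
  rw [← ENNReal.ofReal_natCast, ← ENNReal.ofReal_mul h1.le]
  apply ENNReal.ofReal_le_ofReal
  have h10 : (⌊x⌋₊ : ℝ) ≤ x := Nat.floor_le hx0
  have h11 : (1 - s) * x = 1 / ((L : ℝ) + 1) := by
    rw [hx]; field_simp
  push_cast
  nlinarith

theorem sp_density {Λ : ℕ → ℂ} (hΛ : ∀ k, ‖Λ k‖ = sp k) : upperDensity Λ = 0 := by
  unfold upperDensity
  have h : Tendsto (fun s : ℝ => ENNReal.ofReal (1 - s) *
      ((({n : ℕ | ‖Λ n‖ < s}.encard : ℕ∞)) : ℝ≥0∞)) (𝓝[<] 1) (𝓝 0) := by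
    rw [ENNReal.tendsto_nhds_zero]
    intro ε hε
    rcases eq_or_ne ε ∞ with rfl | hε'
    · exact Eventually.of_forall fun _ => le_top
    · have he : 0 < ε.toReal := ENNReal.toReal_pos hε.ne' hε'
      obtain ⟨L, hL⟩ := exists_nat_one_div_lt (show 0 < ε.toReal / 2 by positivity)
      have h1 : Tendsto (fun s : ℝ => (1 - s) * 2 ^ L) (𝓝[<] 1) (𝓝 ((1 - 1) * 2 ^ L)) :=
        ((tendsto_const_nhds.sub tendsto_id).mul_const _).mono_left nhdsWithin_le_nhds
      rw [sub_self, zero_mul] at h1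
      filter_upwards [(tendsto_order.1 h1).2 (ε.toReal / 2) (by positivity), self_mem_nhdsWithin] with s hs1 hs2
      refine (sp_card hs2 L hΛ).trans ?_
      rw [← ENNReal.ofReal_toReal hε']
      exact ENNReal.ofReal_le_ofReal (by linarith)
  exact h.limsup_eq

/-! ### distinctness -/

theorem nu_singleton (y : T) : nu {y} = 0 := by
  have h1 : (volume : Measure T) {y} = 0 := by
    refine measure_mono_null (t := Metric.closedBall y 0) (by simp) ?_
    rw [AddCircle.volume_closedBall]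
    simp
  rw [AddCircle.volume_eq_smul_haarAddCircle, Measure.smul_apply, smul_eq_mul] at h1
  simpa using h1

theorem ne_ae {i j : ℕ} (hij : i ≠ j) : ∀ᵐ ω ∂mu, ω i ≠ ω j := by
  have hm : MeasurableSet {q : Om × T | Function.update q.1 i q.2 i = Function.update q.1 i q.2 j} := by
    apply IsClosed.measurableSet
    apply isClosed_eq <;> fun_prop
  have h1 := upd_mp i
  rw [ae_iff]
  have e0 : {ω : Om | ¬ ω i ≠ ω j} = {ω : Om | ω i = ω j} := by ext ω; simp
  rw [e0]
  have hm2 : MeasurableSet {ω : Om | ω i = ω j} := by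
    apply IsClosed.measurableSet
    apply isClosed_eq <;> fun_prop
  rw [← h1.measure_preimage hm2.nullMeasurableSet]
  have e1 : (fun q : Om × T => Function.update q.1 i q.2) ⁻¹' {ω : Om | ω i = ω j} = {q : Om × T | q.2 = q.1 j} := by
    ext q
    simp [Function.update_of_ne hij.symm]
  rw [e1, Measure.measure_prod_null (by apply IsClosed.measurableSet; apply isClosed_eq <;> fun_prop)]
  refine Eventually.of_forall fun ω => ?_
  have e2 : Prod.mk ω ⁻¹' {q : Om × T | q.2 = q.1 j} = {ω j} := by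
    ext y; simp
  change nu (Prod.mk ω ⁻¹' {q : Om × T | q.2 = q.1 j}) = 0
  rw [e2]
  exact nu_singleton _

theorem inj_ae {r : ℕ → ℝ} (hr : ∀ k, 0 < r k) : ∀ᵐ ω : Om ∂mu, Function.Injective fun k => pt (r k) (ω k) := by
  have h : ∀ᵐ ω : Om ∂mu, ∀ i j, i ≠ j → ω i ≠ ω j :=
    ae_all_iff.2 fun i => ae_all_iff.2 fun j => by
      by_cases h : i = j
      · exact Eventually.of_forall fun ω hne => absurd h hne
      · filter_upwards [ne_ae h] with ω hω _ using hω
  filter_upwards [h] with ω hω i j hij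
  by_contra hne
  apply hω i j hne
  simp only at hij
  have h1 : r i = r j := by
    have := congrArg norm hij
    rwa [norm_pt (hr i).le, norm_pt (hr j).le] at this
  unfold pt at hij
  rw [h1] at hij
  have h2 : (fourier 1 (ω i) : ℂ) = fourier 1 (ω j) := mul_left_cancel₀ (by exact_mod_cast (hr j).ne') hij
  rw [fourier_one, fourier_one] at h2
  exact AddCircle.injective_toCircle one_ne_zero (Circle.ext h2)

end Pool.Agent.H6.RK
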